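import Mathlib

set_option autoImplicit false

/-! # Counting the bad pairs -/

namespace Pool.Agent.Q148.CN

open Finset

/-- the numbers `u ≤ N`, `u ≡ 1` modulo `W`, with `q ∣ u - a` -/
noncomputable def Aset (N W q : ℕ) (a : ℤ) : Finset ℕ :=
  (range (N + 1)).filter (fun u => u ≡ 1 [MOD W] ∧ (q : ℤ) ∣ (u : ℤ) - a)

lemma mod_int (W u : ℕ) (h : u ≡ 1 [MOD W]) : (W : ℤ) ∣ (u : ℤ) - 1 := by
  have := (Nat.modEq_iff_dvd.mp h.symm)
  exact_mod_cast this

lemma cop (W q u : ℕ) (a : ℤ) (ha : (W : ℤ) ∣ a) (h1 : u ≡ 1 [MOD W]) (h2 : (q : ℤ) ∣ (u : ℤ) - a) :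
    IsCoprime (W : ℤ) (q : ℤ) := by
  obtain ⟨x, hx⟩ := mod_int W u h1
  obtain ⟨y, hy⟩ := h2
  obtain ⟨z, hz⟩ := ha
  refine ⟨z - x, y, ?_⟩
  linear_combination hx - hz - hy

lemma cnt (N W q : ℕ) (a : ℤ) (hW : 1 ≤ W) (hq : 1 ≤ q) (ha : (W : ℤ) ∣ a) :
    ((Aset N W q a).card : ℝ) ≤ N / (W * q) + 1 := by
  have hWq : 0 < W * q := by positivity
  have h1 : (Aset N W q a).card ≤ (range (N / (W * q) + 1)).card := by
    apply Finset.card_le_card_of_injOn (fun u => u / (W * q))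
    · intro u hu
      simp only [Aset, Finset.coe_filter, Set.mem_ofPred_eq, Finset.mem_range] at hu
      simp only [Finset.coe_range, Set.mem_Iio]
      have := Nat.div_le_div_right (c := W * q) (Nat.lt_succ_iff.mp hu.1)
      omega
    · intro u hu v hv huv
      simp only [Aset, Finset.coe_filter, Set.mem_ofPred_eq, Finset.mem_range] at hu hv
      simp only at huv
      have hc := cop W q u a ha hu.2.1 hu.2.2
      have h2 : (W : ℤ) ∣ (v : ℤ) - u := by
        have h3 := mod_int W u hu.2.1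
        have h4 := mod_int W v hv.2.1
        have h5 : (v : ℤ) - u = ((v : ℤ) - 1) - ((u : ℤ) - 1) := by ring
        rw [h5]
        exact dvd_sub h4 h3
      have h3 : (q : ℤ) ∣ (v : ℤ) - u := by
        have h5 : (v : ℤ) - u = ((v : ℤ) - a) - ((u : ℤ) - a) := by ring
        rw [h5]
        exact dvd_sub hv.2.2 hu.2.2
      have h4 : ((W * q : ℕ) : ℤ) ∣ (v : ℤ) - u := by
        push_cast
        exact hc.mul_dvd h2 h3
      have h5 : u ≡ v [MOD (W * q)] := Nat.modEq_iff_dvd.mpr h4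
      have h6 : u % (W * q) = v % (W * q) := h5
      rw [← Nat.div_add_mod u (W * q), ← Nat.div_add_mod v (W * q), huv, h6]
  rw [Finset.card_range] at h1
  calc ((Aset N W q a).card : ℝ) ≤ ((N / (W * q) + 1 : ℕ) : ℝ) := by exact_mod_cast h1
    _ = ((N / (W * q) : ℕ) : ℝ) + 1 := by push_cast; ring
    _ ≤ (N : ℝ) / ((W * q : ℕ) : ℝ) + 1 := by
        gcongr
        exact Nat.cast_div_le
    _ = _ := by push_cast; ring

/-- the pair `(u, t)` does not lead to a squarefree number -/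
def BadP (B W u t : ℕ) : Prop :=
  ∃ p : ℕ, p.Prime ∧ ((p ∣ u ∧ p ∣ t) ∨ ((p ^ 2 : ℕ) : ℤ) ∣ (u : ℤ) - 0 ∨
    ((p ^ 2 : ℕ) : ℤ) ∣ (u : ℤ) - (B * W ^ 2 * t ^ 2 : ℤ) ∨
    ((p ^ 2 : ℕ) : ℤ) ∣ (u : ℤ) - (-(B * W ^ 2 * t ^ 2) : ℤ))

open Classical in
/-- the set of bad pairs -/
noncomputable def BadS (B W N T : ℕ) : Finset (ℕ × ℕ) :=
  ((range (N + 1)) ×ˢ (Ioc T (2 * T))).filter
    (fun x => x.1 ≡ 1 [MOD W] ∧ B * W ^ 2 * x.2 ^ 2 < x.1 ∧ BadP B W x.1 x.2)

lemma sum_inv_sq (D R : ℕ) (hD : 1 ≤ D) : ∑ p ∈ Ioc D R, 1 / (p : ℝ) ^ 2 ≤ 1 / (D : ℝ) := by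
  rcases Nat.lt_or_ge R D with h | h
  · rw [Finset.Ioc_eq_empty (by omega)]
    simp
  · have h1 := sum_Ioc_inv_sq_le_sub (α := ℝ) (by omega : D ≠ 0) h
    have h2 : ∑ p ∈ Ioc D R, 1 / (p : ℝ) ^ 2 = ∑ p ∈ Ioc D R, ((p : ℝ) ^ 2)⁻¹ := by
      apply Finset.sum_congr rfl
      intro p _
      rw [one_div]
    rw [h2, one_div]
    have h3 : (0 : ℝ) ≤ (R : ℝ)⁻¹ := by positivity
    linarith

/-- the pairs with a square divisor `p ^ 2` of `u - e t` -/
noncomputable def S2 (W N T D R : ℕ) (e : ℕ → ℤ) : Finset (ℕ × ℕ) :=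
  (Ioc T (2 * T)).biUnion (fun t => (Ioc D R).biUnion (fun p => Aset N W (p ^ 2) (e t) ×ˢ {t}))

lemma S2_card (W N T D R : ℕ) (e : ℕ → ℤ) (hW : 1 ≤ W) (hD : 1 ≤ D)
    (he : ∀ t, (W : ℤ) ∣ e t) : ((S2 W N T D R e).card : ℝ) ≤ T * (N / (W * D) + R) := by
  have hW0 : (0 : ℝ) < W := by exact_mod_cast hW
  have hD0 : (0 : ℝ) < D := by exact_mod_cast hD
  have h1 : ∀ t, (((Ioc D R).biUnion (fun p => Aset N W (p ^ 2) (e t) ×ˢ {t})).card : ℝ) ≤
      N / (W * D) + R := by
    intro t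
    calc (((Ioc D R).biUnion (fun p => Aset N W (p ^ 2) (e t) ×ˢ {t})).card : ℝ) ≤
        ((∑ p ∈ Ioc D R, (Aset N W (p ^ 2) (e t) ×ˢ {t}).card : ℕ) : ℝ) := by
          exact_mod_cast Finset.card_biUnion_le
      _ = ∑ p ∈ Ioc D R, ((Aset N W (p ^ 2) (e t)).card : ℝ) := by
          push_cast
          apply Finset.sum_congr rfl
          intro p _
          rw [Finset.card_product, Finset.card_singleton, mul_one]
      _ ≤ ∑ p ∈ Ioc D R, ((N : ℝ) / W * (1 / (p : ℝ) ^ 2) + 1) := by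
          apply Finset.sum_le_sum
          intro p hp
          rw [Finset.mem_Ioc] at hp
          have hp0 : 1 ≤ p := by omega
          have := cnt N W (p ^ 2) (e t) hW (Nat.one_le_pow _ _ hp0) (he t)
          push_cast at this
          calc _ ≤ _ := this
            _ = _ := by
                have : (0 : ℝ) < p := by exact_mod_cast hp0
                field_simp
      _ = (N : ℝ) / W * ∑ p ∈ Ioc D R, 1 / (p : ℝ) ^ 2 + (Ioc D R).card := by
          rw [Finset.sum_add_distrib, Finset.mul_sum]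
          simp
      _ ≤ (N : ℝ) / W * (1 / D) + R := by
          have h2 := sum_inv_sq D R hD
          have h3 : ((Ioc D R).card : ℝ) ≤ R := by
            rw [Nat.card_Ioc]
            exact_mod_cast Nat.sub_le _ _
          gcongr
      _ = _ := by
          field_simp
  unfold S2
  calc (((Ioc T (2 * T)).biUnion (fun t => (Ioc D R).biUnion
        (fun p => Aset N W (p ^ 2) (e t) ×ˢ {t}))).card : ℝ) ≤
      ((∑ t ∈ Ioc T (2 * T), ((Ioc D R).biUnion
        (fun p => Aset N W (p ^ 2) (e t) ×ˢ {t})).card : ℕ) : ℝ) := by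
        exact_mod_cast Finset.card_biUnion_le
    _ ≤ ∑ t ∈ Ioc T (2 * T), ((N : ℝ) / (W * D) + R) := by
        push_cast
        apply Finset.sum_le_sum
        intro t _
        exact h1 t
    _ = _ := by
        rw [Finset.sum_const, nsmul_eq_mul, Nat.card_Ioc]
        have : 2 * T - T = T := by omega
        rw [this]

/-- the pairs with a common divisor -/
noncomputable def S1 (W N T D : ℕ) : Finset (ℕ × ℕ) :=
  (Ioc D (2 * T)).biUnion (fun p => Aset N W p 0 ×ˢ (Ioc T (2 * T)).filter (fun t => p ∣ t))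

lemma S1_card (W N T D : ℕ) (hW : 1 ≤ W) (hD : 1 ≤ D) :
    ((S1 W N T D).card : ℝ) ≤ 2 * T * N / (W * D) + 4 * T ^ 2 := by
  have hW0 : (0 : ℝ) < W := by exact_mod_cast hW
  have hD0 : (0 : ℝ) < D := by exact_mod_cast hD
  unfold S1
  calc (((Ioc D (2 * T)).biUnion (fun p => Aset N W p 0 ×ˢ
        (Ioc T (2 * T)).filter (fun t => p ∣ t))).card : ℝ) ≤
      ((∑ p ∈ Ioc D (2 * T), (Aset N W p 0 ×ˢ
        (Ioc T (2 * T)).filter (fun t => p ∣ t)).card : ℕ) : ℝ) := by
        exact_mod_cast Finset.card_biUnion_le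
    _ ≤ ∑ p ∈ Ioc D (2 * T), (2 * T * N / W * (1 / (p : ℝ) ^ 2) + 2 * T) := by
        push_cast
        apply Finset.sum_le_sum
        intro p hp
        rw [Finset.mem_Ioc] at hp
        have hp0 : 1 ≤ p := by omega
        have hp1 : (1 : ℝ) ≤ p := by exact_mod_cast hp0
        have h1 := cnt N W p 0 hW hp0 (dvd_zero _)
        have h2 : (((Ioc T (2 * T)).filter (fun t => p ∣ t)).card : ℝ) ≤ 2 * T / p := by
          have h3 : ((Ioc T (2 * T)).filter (fun t => p ∣ t)) ⊆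
              (Ioc 0 (2 * T)).filter (fun t => p ∣ t) := by
            apply Finset.filter_subset_filter
            intro x hx
            rw [Finset.mem_Ioc] at hx ⊢
            omega
          have h4 := Finset.card_le_card h3
          rw [Nat.Ioc_filter_dvd_card_eq_div] at h4
          calc (((Ioc T (2 * T)).filter (fun t => p ∣ t)).card : ℝ) ≤ ((2 * T / p : ℕ) : ℝ) := by
                exact_mod_cast h4
            _ ≤ ((2 * T : ℕ) : ℝ) / p := Nat.cast_div_le
            _ = _ := by push_cast; ring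
        rw [Finset.card_product]
        push_cast
        calc ((Aset N W p 0).card : ℝ) * (((Ioc T (2 * T)).filter (fun t => p ∣ t)).card : ℝ) ≤
            ((N : ℝ) / (W * p) + 1) * (2 * T / p) := by gcongr
          _ = 2 * T * N / W * (1 / (p : ℝ) ^ 2) + 2 * T / p := by field_simp
          _ ≤ 2 * T * N / W * (1 / (p : ℝ) ^ 2) + 2 * T / 1 := by gcongr
          _ = _ := by ring
    _ = 2 * T * N / W * ∑ p ∈ Ioc D (2 * T), 1 / (p : ℝ) ^ 2 +
          ((Ioc D (2 * T)).card : ℝ) * (2 * T) := by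
        rw [Finset.sum_add_distrib, Finset.mul_sum]
        simp
    _ ≤ 2 * T * N / W * (1 / D) + (2 * T) * (2 * T) := by
        have h2 := sum_inv_sq D (2 * T) hD
        have h3 : ((Ioc D (2 * T)).card : ℝ) ≤ 2 * T := by
          rw [Nat.card_Ioc]
          exact_mod_cast Nat.sub_le _ _
        gcongr
    _ = _ := by
        field_simp
        ring

lemma bad_card (B W N T D : ℕ) (hW : 1 ≤ W) (hD : 1 ≤ D)
    (hWp : ∀ p : ℕ, p.Prime → p ≤ D → p ∣ W) :
    ((BadS B W N T).card : ℝ) ≤ 5 * T * N / (W * D) + 4 * T ^ 2 + 3 * T * Real.sqrt (2 * N) := by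
  set R : ℕ := Nat.sqrt (2 * N) with hR
  have hsub : BadS B W N T ⊆ S1 W N T D ∪ (S2 W N T D R (fun _ => 0) ∪
      (S2 W N T D R (fun t => (B * W ^ 2 * t ^ 2 : ℤ)) ∪
        S2 W N T D R (fun t => (-(B * W ^ 2 * t ^ 2) : ℤ)))) := by
    classical
    rintro ⟨u, t⟩ hx
    unfold BadS at hx
    rw [Finset.mem_filter, Finset.mem_product] at hx
    obtain ⟨⟨hu, ht⟩, hmod, hlt, p, hp, hbad⟩ := hx
    simp only at hu ht hmod hlt hbad
    have hu' := Finset.mem_range.mp hu
    have ht' := Finset.mem_Ioc.mp ht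
    have hp2 := hp.two_le
    have hWv : (W : ℤ) ∣ (B * W ^ 2 * t ^ 2 : ℤ) := ⟨B * W * t ^ 2, by ring⟩
    have hpD : ∀ a : ℤ, (W : ℤ) ∣ a → ((p : ℕ) : ℤ) ∣ (u : ℤ) - a → D < p := by
      intro a ha hd
      by_contra hcon
      push Not at hcon
      have h1 := hWp p hp hcon
      have h2 := cop W p u a ha hmod hd
      have h3 : Nat.Coprime W p := Nat.isCoprime_iff_coprime.mp h2
      have h4 : p ∣ 1 := by
        have := Nat.dvd_gcd h1 (dvd_refl p)
        rwa [h3] at this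
      exact hp.one_lt.ne' (Nat.dvd_one.mp h4)
    have hsq : ∀ a : ℤ, ((p ^ 2 : ℕ) : ℤ) ∣ (u : ℤ) - a → ((p : ℕ) : ℤ) ∣ (u : ℤ) - a := by
      intro a h
      refine dvd_trans ?_ h
      push_cast
      exact dvd_pow_self _ (by norm_num)
    have hgen : ∀ (e : ℕ → ℤ), (W : ℤ) ∣ e t → 0 < (u : ℤ) - e t → (u : ℤ) - e t ≤ 2 * N →
        ((p ^ 2 : ℕ) : ℤ) ∣ (u : ℤ) - e t → (u, t) ∈ S2 W N T D R e := by
      intro e h1 h2 h3 h4
      unfold S2
      rw [Finset.mem_biUnion]
      refine ⟨t, ht, ?_⟩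
      rw [Finset.mem_biUnion]
      refine ⟨p, ?_, ?_⟩
      · rw [Finset.mem_Ioc]
        refine ⟨hpD _ h1 (hsq _ h4), ?_⟩
        have h5 := Int.le_of_dvd h2 h4
        have h6 : p ^ 2 ≤ 2 * N := by
          have : ((p ^ 2 : ℕ) : ℤ) ≤ ((2 * N : ℕ) : ℤ) := by
            push_cast at h5 ⊢
            linarith
          exact_mod_cast this
        rw [hR, Nat.le_sqrt]
        nlinarith
      · rw [Finset.mem_product]
        refine ⟨?_, Finset.mem_singleton_self _⟩
        unfold Aset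
        rw [Finset.mem_filter]
        exact ⟨hu, hmod, h4⟩
    have hltZ : (B * W ^ 2 * t ^ 2 : ℤ) < u := by exact_mod_cast hlt
    have huN : (u : ℤ) ≤ N := by
      have : u ≤ N := by omega
      exact_mod_cast this
    have hv0 : (0 : ℤ) ≤ (B * W ^ 2 * t ^ 2 : ℤ) := by positivity
    rw [Finset.mem_union, Finset.mem_union, Finset.mem_union]
    rcases hbad with ⟨h1, h2⟩ | h1 | h1 | h1
    · left
      unfold S1
      rw [Finset.mem_biUnion]
      refine ⟨p, ?_, ?_⟩
      · rw [Finset.mem_Ioc]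
        constructor
        · apply hpD 0 (dvd_zero _)
          rw [sub_zero]
          exact_mod_cast h1
        · have := Nat.le_of_dvd (by omega) h2
          omega
      · rw [Finset.mem_product, Finset.mem_filter]
        refine ⟨?_, ht, h2⟩
        unfold Aset
        rw [Finset.mem_filter]
        refine ⟨hu, hmod, ?_⟩
        rw [sub_zero]
        exact_mod_cast h1
    · right; left
      apply hgen (fun _ => 0) (dvd_zero _) _ _ h1
      · linarith
      · linarith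
    · right; right; left
      apply hgen (fun t => (B * W ^ 2 * t ^ 2 : ℤ)) hWv _ _ h1
      · linarith
      · linarith
    · right; right; right
      apply hgen (fun t => (-(B * W ^ 2 * t ^ 2) : ℤ)) (dvd_neg.mpr hWv) _ _ h1
      · linarith
      · linarith
  have h1 := Finset.card_le_card hsub
  have h2 : (S1 W N T D ∪ (S2 W N T D R (fun _ => 0) ∪
      (S2 W N T D R (fun t => (B * W ^ 2 * t ^ 2 : ℤ)) ∪
        S2 W N T D R (fun t => (-(B * W ^ 2 * t ^ 2) : ℤ))))).card ≤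
      (S1 W N T D).card + ((S2 W N T D R (fun _ => 0)).card +
      ((S2 W N T D R (fun t => (B * W ^ 2 * t ^ 2 : ℤ))).card +
        (S2 W N T D R (fun t => (-(B * W ^ 2 * t ^ 2) : ℤ))).card)) := by
    refine (Finset.card_union_le _ _).trans ?_
    gcongr
    refine (Finset.card_union_le _ _).trans ?_
    gcongr
    exact Finset.card_union_le _ _
  have h3 : ((BadS B W N T).card : ℝ) ≤ (S1 W N T D).card + ((S2 W N T D R (fun _ => 0)).card +
      ((S2 W N T D R (fun t => (B * W ^ 2 * t ^ 2 : ℤ))).card +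
        (S2 W N T D R (fun t => (-(B * W ^ 2 * t ^ 2) : ℤ))).card)) := by
    exact_mod_cast h1.trans h2
  have hRr : (R : ℝ) ≤ Real.sqrt (2 * N) := by
    rw [hR]
    have := Real.nat_sqrt_le_real_sqrt (a := 2 * N)
    push_cast at this
    exact this
  have hv : ∀ t : ℕ, (W : ℤ) ∣ (B * W ^ 2 * t ^ 2 : ℤ) := fun t => ⟨B * W * t ^ 2, by ring⟩
  have c1 := S1_card W N T D hW hD
  have c2 := S2_card W N T D R (fun _ => 0) hW hD (fun _ => dvd_zero _)
  have c3 := S2_card W N T D R (fun t => (B * W ^ 2 * t ^ 2 : ℤ)) hW hD hv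
  have c4 := S2_card W N T D R (fun t => (-(B * W ^ 2 * t ^ 2) : ℤ)) hW hD
    (fun t => dvd_neg.mpr (hv t))
  have hW0 : (0 : ℝ) < W := by exact_mod_cast hW
  have hD0 : (0 : ℝ) < D := by exact_mod_cast hD
  calc ((BadS B W N T).card : ℝ) ≤ (2 * T * N / (W * D) + 4 * T ^ 2) +
        (T * (N / (W * D) + R) + (T * (N / (W * D) + R) + T * (N / (W * D) + R))) := by
        linarith
    _ = 5 * T * N / (W * D) + 4 * T ^ 2 + 3 * T * R := by ring
    _ ≤ _ := by gcongr

end Pool.Agent.Q148.CN
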