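import Pool.Agent.Q148.CN.Var
import Pool.Agent.Q148.CN.Bad

set_option autoImplicit false

/-! # From near integers to congruent numbers -/

namespace Pool.Agent.Q148.CN

open Finset

/-- `n` is the area of a right triangle with rational sides -/
def Cong (n : ℕ) : Prop :=
  ∃ a b c : ℚ, 0 < a ∧ 0 < b ∧ 0 < c ∧ a ^ 2 + b ^ 2 = c ^ 2 ∧ (n : ℚ) = a * b / 2

lemma arith (B W u t : ℕ) (hB : Squarefree B) (hBW : B ∣ W) (h2 : 2 ∣ W) (hW : 1 ≤ W) (ht : 1 ≤ t)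
    (hu : u ≡ 1 [MOD W]) (hv : B * W ^ 2 * t ^ 2 < u) (hgood : ¬ BadP B W u t) :
    ∃ n : ℕ, (n : ℝ) = B * ((u : ℝ) ^ 3 - (vv B W t) ^ 2 * u) ∧ Squarefree n ∧ n ≡ B [MOD W] ∧
      Cong n := by
  set v : ℕ := B * W ^ 2 * t ^ 2 with hvdef
  have hB1 : 1 ≤ B := Nat.one_le_iff_ne_zero.mpr hB.ne_zero
  have hvpos : 0 < v := by rw [hvdef]; positivity
  have hu1 : 1 ≤ u := by omega
  -- coprimality
  have hgcd : ∀ p : ℕ, p.Prime → ¬ ((p ∣ u ∧ p ∣ t) ∨ ((p ^ 2 : ℕ) : ℤ) ∣ (u : ℤ) - 0 ∨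
    ((p ^ 2 : ℕ) : ℤ) ∣ (u : ℤ) - (B * W ^ 2 * t ^ 2 : ℤ) ∨
    ((p ^ 2 : ℕ) : ℤ) ∣ (u : ℤ) - (-(B * W ^ 2 * t ^ 2) : ℤ)) := by
    intro p hp hcon
    exact hgood ⟨p, hp, hcon⟩
  have huW : Nat.Coprime u W := by
    have h1 := hu.gcd_eq
    unfold Nat.Coprime
    rw [h1]
    simp
  have huB : Nat.Coprime u B := Nat.Coprime.coprime_dvd_right hBW huW
  have hut : Nat.Coprime u t := by
    rw [Nat.coprime_iff_gcd_eq_one]
    by_contra hne
    obtain ⟨p, hp, hd⟩ := Nat.exists_prime_and_dvd hne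
    exact hgcd p hp (Or.inl ⟨hd.trans (Nat.gcd_dvd_left _ _), hd.trans (Nat.gcd_dvd_right _ _)⟩)
  have huv : Nat.Coprime u v := by
    rw [hvdef]
    exact Nat.Coprime.mul_right (Nat.Coprime.mul_right huB (Nat.Coprime.pow_right 2 huW))
      (Nat.Coprime.pow_right 2 hut)
  have hBv : B ∣ v := ⟨W ^ 2 * t ^ 2, by rw [hvdef]; ring⟩
  have h2v : 2 ∣ v := by
    rw [hvdef]
    exact Dvd.dvd.mul_right (Dvd.dvd.mul_left (dvd_pow h2 (by norm_num)) _) _
  have h2u : Nat.Coprime u 2 := Nat.Coprime.coprime_dvd_right h2 huW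
  have hc1 : Nat.Coprime u (u + v) := by
    rw [Nat.coprime_self_add_right]
    exact huv
  have hle : v ≤ u := hv.le
  have hsub : (u - v) + v = u := Nat.sub_add_cancel hle
  have hc2 : Nat.Coprime (u - v) v := by
    have h1 : Nat.Coprime ((u - v) + v) v := by rw [hsub]; exact huv
    rwa [Nat.coprime_add_self_left] at h1
  have hc3 : Nat.Coprime u (u - v) := by
    have h1 : Nat.Coprime (u - v) ((u - v) + v) := by
      rw [Nat.coprime_self_add_right]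
      exact hc2
    rw [hsub] at h1
    exact h1.symm
  have hc4 : Nat.Coprime (u - v) 2 := by
    have hodd : Odd u := Nat.coprime_two_right.mp h2u
    have hev : Even v := even_iff_two_dvd.mpr h2v
    exact Nat.coprime_two_right.mpr (Nat.Odd.sub_even hle hodd hev)
  have hc5 : Nat.Coprime (u - v) (u + v) := by
    have h1 : u + v = (u - v) + 2 * v := by omega
    rw [h1, Nat.coprime_self_add_right]
    exact Nat.Coprime.mul_right hc4 hc2
  have hcB1 : Nat.Coprime B (u + v) := by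
    obtain ⟨k, hk⟩ := hBv
    rw [hk, Nat.coprime_add_mul_left_right]
    exact huB.symm
  have hcB2 : Nat.Coprime B (u - v) := by
    obtain ⟨k, hk⟩ := hBv
    have h1 : Nat.Coprime B ((u - v) + B * k) := by
      rw [← hk, hsub]
      exact huB.symm
    rwa [Nat.coprime_add_mul_left_right] at h1
  -- squarefreeness
  have hs1 : Squarefree u := by
    rw [Nat.squarefree_iff_prime_squarefree]
    intro p hp hd
    apply hgcd p hp
    right; left
    rw [sub_zero, pow_two]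
    exact_mod_cast hd
  have hs2 : Squarefree (u - v) := by
    rw [Nat.squarefree_iff_prime_squarefree]
    intro p hp hd
    apply hgcd p hp
    right; right; left
    have h1 : (u : ℤ) - (B * W ^ 2 * t ^ 2 : ℤ) = ((u - v : ℕ) : ℤ) := by
      rw [Nat.cast_sub hle, hvdef]
      push_cast
      ring
    rw [h1, pow_two]
    exact_mod_cast hd
  have hs3 : Squarefree (u + v) := by
    rw [Nat.squarefree_iff_prime_squarefree]
    intro p hp hd
    apply hgcd p hp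
    right; right; right
    have h1 : (u : ℤ) - (-(B * W ^ 2 * t ^ 2) : ℤ) = ((u + v : ℕ) : ℤ) := by
      rw [hvdef]
      push_cast
      ring
    rw [h1, pow_two]
    exact_mod_cast hd
  refine ⟨B * (u * ((u - v) * (u + v))), ?_, ?_, ?_, ?_⟩
  · have h1 : (((u - v : ℕ)) : ℝ) = (u : ℝ) - v := by
      rw [Nat.cast_sub hle]
    push_cast
    rw [h1]
    have h2 : (v : ℝ) = vv B W t := by
      rw [hvdef]
      unfold vv
      push_cast
      ring
    rw [h2]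
    ring
  · rw [Nat.squarefree_mul_iff, Nat.squarefree_mul_iff, Nat.squarefree_mul_iff]
    refine ⟨?_, hB, ?_, hs1, ?_, hs2, hs3⟩
    · exact Nat.Coprime.mul_right huB.symm (Nat.Coprime.mul_right hcB2 hcB1)
    · exact Nat.Coprime.mul_right hc3 hc1
    · exact hc5
  · have h1 : v ≡ 0 [MOD W] := by
      rw [Nat.modEq_zero_iff_dvd, hvdef]
      exact ⟨B * W * t ^ 2, by ring⟩
    have h2 : u + v ≡ 1 [MOD W] := by
      have := hu.add h1
      simpa using this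
    have h3 : u - v ≡ 1 [MOD W] := by
      have h4 : (u - v) + v ≡ 1 + v [MOD W] := by
        rw [hsub]
        calc u ≡ 1 [MOD W] := hu
          _ = 1 + 0 := rfl
          _ ≡ 1 + v [MOD W] := (Nat.ModEq.refl 1).add h1.symm
      exact Nat.ModEq.add_right_cancel' v h4
    have h5 := (Nat.ModEq.refl B).mul (hu.mul (h3.mul h2))
    simpa using h5
  · have hW0 : (0 : ℚ) < W := by exact_mod_cast hW
    have ht0 : (0 : ℚ) < t := by exact_mod_cast ht
    have hu0 : (0 : ℚ) < u := by exact_mod_cast hu1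
    have hv0 : (0 : ℚ) < v := by exact_mod_cast hvpos
    have huv' : (v : ℚ) < u := by exact_mod_cast hv
    have hvq : (v : ℚ) = B * W ^ 2 * t ^ 2 := by
      rw [hvdef]
      push_cast
      ring
    refine ⟨((u : ℚ) ^ 2 - v ^ 2) / (W * t), 2 * u * v / (W * t), ((u : ℚ) ^ 2 + v ^ 2) / (W * t),
      ?_, by positivity, by positivity, ?_, ?_⟩
    · apply div_pos _ (by positivity)
      nlinarith
    · field_simp
      ring
    · push_cast
      rw [Nat.cast_sub hle]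
      have h6 : (((u : ℚ) ^ 2 - v ^ 2) / (W * t)) * (2 * u * v / (W * t)) / 2 =
          (u : ℚ) * (u ^ 2 - v ^ 2) * (v / (W ^ 2 * t ^ 2)) := by
        field_simp
      have h7 : (v : ℚ) / (W ^ 2 * t ^ 2) = B := by
        rw [hvq]
        field_simp
      rw [h6, h7]
      ring

lemma rho (s : ℝ) (h0 : 0 ≤ s) (h1 : s ≤ 1) :
    0 ≤ (1 + s / 3 - s ^ 3 / 81 + s ^ 4 / 243) ^ 3 - s * (1 + s / 3 - s ^ 3 / 81 + s ^ 4 / 243) - 1 ∧
    (1 + s / 3 - s ^ 3 / 81 + s ^ 4 / 243) ^ 3 - s * (1 + s / 3 - s ^ 3 / 81 + s ^ 4 / 243) - 1 ≤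
      s ^ 6 / 100 := by
  have h2 : (1 + s / 3 - s ^ 3 / 81 + s ^ 4 / 243) ^ 3 -
      s * (1 + s / 3 - s ^ 3 / 81 + s ^ 4 / 243) - 1 =
      s ^ 6 * (4 / 2187 - s / 6561 - s ^ 2 / 19683 + 8 * s ^ 3 / 531441 + s ^ 4 / 531441 -
        s ^ 5 / 1594323 + s ^ 6 / 14348907) := by ring
  have p2 : s ^ 2 ≤ 1 := pow_le_one₀ h0 h1
  have p3 : s ^ 3 ≤ 1 := pow_le_one₀ h0 h1
  have p4 : s ^ 4 ≤ 1 := pow_le_one₀ h0 h1
  have p5 : s ^ 5 ≤ 1 := pow_le_one₀ h0 h1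
  have p6 : s ^ 6 ≤ 1 := pow_le_one₀ h0 h1
  have q2 : 0 ≤ s ^ 2 := by positivity
  have q3 : 0 ≤ s ^ 3 := by positivity
  have q4 : 0 ≤ s ^ 4 := by positivity
  have q5 : 0 ≤ s ^ 5 := by positivity
  have q6 : 0 ≤ s ^ 6 := by positivity
  rw [h2]
  constructor
  · apply mul_nonneg q6
    linarith
  · have h3 : (4 / 2187 - s / 6561 - s ^ 2 / 19683 + 8 * s ^ 3 / 531441 + s ^ 4 / 531441 -
        s ^ 5 / 1594323 + s ^ 6 / 14348907) ≤ 1 / 100 := by linarith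
    calc _ ≤ s ^ 6 * (1 / 100) := by gcongr
      _ = _ := by ring

/-- the standing assumptions on the parameters -/
structure Par (B W T L : ℕ) (Z : ℝ) : Prop where
  hB : 1 ≤ B
  hW : 2 ≤ W
  hL : 2 ≤ L
  hLT : L ≤ T
  hZ0 : 0 < Z
  hZ : (T : ℝ) ^ 7 ≤ Z ^ 3
  hZ2 : Z ^ 3 ≤ 128 * (T : ℝ) ^ 7
  hT : (10 : ℝ) ^ 15 * (B : ℝ) ^ 18 * W ^ 36 ≤ T

lemma Par.hT0 {B W T L : ℕ} {Z : ℝ} (h : Par B W T L Z) :
    (10 : ℝ) ^ 15 * (B : ℝ) ^ 6 * W ^ 12 ≤ T := by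
  have hB : (1 : ℝ) ≤ B := by exact_mod_cast h.hB
  have hW : (1 : ℝ) ≤ W := by
    have := h.hW
    exact_mod_cast (by omega : 1 ≤ W)
  refine le_trans ?_ h.hT
  have h1 : (B : ℝ) ^ 6 ≤ (B : ℝ) ^ 18 := pow_le_pow_right₀ hB (by norm_num)
  have h2 : (W : ℝ) ^ 12 ≤ (W : ℝ) ^ 36 := pow_le_pow_right₀ hW (by norm_num)
  gcongr

lemma Par.hZT {B W T L : ℕ} {Z : ℝ} (h : Par B W T L Z) : (T : ℝ) ≤ Z := by
  have hT1 : (1 : ℝ) ≤ T := by
    have h1 := h.hL
    have h2 := h.hLT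
    exact_mod_cast (by omega : 1 ≤ T)
  have h3 : (T : ℝ) ^ 3 ≤ Z ^ 3 := le_trans (pow_le_pow_right₀ hT1 (by norm_num)) h.hZ
  exact le_of_pow_le_pow_left₀ (by norm_num) h.hZ0.le h3

lemma Par.hWZ {B W T L : ℕ} {Z : ℝ} (h : Par B W T L Z) : 1000 * (W : ℝ) ≤ Z := by
  have hB : (1 : ℝ) ≤ B := by exact_mod_cast h.hB
  have hW : (1 : ℝ) ≤ W := by
    have := h.hW
    exact_mod_cast (by omega : 1 ≤ W)
  refine le_trans ?_ (h.hT0.trans h.hZT)
  have h1 : (1 : ℝ) ≤ (B : ℝ) ^ 6 := one_le_pow₀ hB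
  have h2 : (W : ℝ) ≤ (W : ℝ) ^ 12 := le_self_pow₀ hW (by norm_num)
  calc 1000 * (W : ℝ) ≤ (10 : ℝ) ^ 15 * 1 * W := by
        have : (0 : ℝ) < W := by linarith
        nlinarith
    _ ≤ (10 : ℝ) ^ 15 * (B : ℝ) ^ 6 * W ^ 12 := by gcongr

/-- the error of the approximate inverse is negligible -/
lemma Par.err {B W T L t : ℕ} {Z : ℝ} (h : Par B W T L Z) (ht : t ∈ Ioc T (2 * T)) :
    Z * ((vv B W t) ^ 2 / Z ^ 2) ^ 6 ≤ 1 / T := by
  have hT1 : (1 : ℝ) ≤ T := by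
    have h1 := h.hL
    have h2 := h.hLT
    exact_mod_cast (by omega : 1 ≤ T)
  have hZ0 := h.hZ0
  have hv := vv_sq B W T t ht
  set C : ℝ := (B : ℝ) ^ 6 * W ^ 12 with hC
  have hC0 : 0 ≤ C := by rw [hC]; positivity
  have h1 : ((vv B W t) ^ 2 / Z ^ 2) ^ 3 ≤ 4096 * C / T ^ 2 := by
    calc ((vv B W t) ^ 2 / Z ^ 2) ^ 3 ≤ (16 * (B : ℝ) ^ 2 * W ^ 4 * T ^ 4 / Z ^ 2) ^ 3 := by
          gcongr
      _ = 4096 * C * T ^ 12 / (Z ^ 3) ^ 2 := by
          rw [hC]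
          field_simp
          ring
      _ ≤ 4096 * C * T ^ 12 / ((T : ℝ) ^ 7) ^ 2 := by
          have := h.hZ
          gcongr
      _ = _ := by
          field_simp
  have h2 : Z * (4096 * C) ^ 2 ≤ T ^ 3 := by
    have h3 : (Z * (4096 * C) ^ 2) ^ 3 ≤ ((T : ℝ) ^ 3) ^ 3 := by
      have h4 : (10 : ℝ) ^ 15 * C ^ 3 ≤ T := by
        have := h.hT
        rw [hC]
        calc _ = (10 : ℝ) ^ 15 * (B : ℝ) ^ 18 * W ^ 36 := by ring
          _ ≤ _ := this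
      calc (Z * (4096 * C) ^ 2) ^ 3 = Z ^ 3 * (4096 ^ 6 * C ^ 6) := by ring
        _ ≤ (128 * (T : ℝ) ^ 7) * (4096 ^ 6 * C ^ 6) := by
            have := h.hZ2
            gcongr
        _ = (T : ℝ) ^ 7 * ((128 * 4096 ^ 6 / 10 ^ 30) * ((10 : ℝ) ^ 15 * C ^ 3) ^ 2) := by ring
        _ ≤ (T : ℝ) ^ 7 * (1 * (T : ℝ) ^ 2) := by
            gcongr
            norm_num
        _ = _ := by ring
    exact le_of_pow_le_pow_left₀ (by norm_num) (by positivity) h3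
  calc Z * ((vv B W t) ^ 2 / Z ^ 2) ^ 6 = Z * (((vv B W t) ^ 2 / Z ^ 2) ^ 3) ^ 2 := by ring
    _ ≤ Z * (4096 * C / T ^ 2) ^ 2 := by gcongr
    _ = (Z * (4096 * C) ^ 2) / T ^ 4 := by field_simp
    _ ≤ (T : ℝ) ^ 3 / T ^ 4 := by gcongr
    _ = _ := by field_simp

/-- a near integer gives a value of the cubic form in a short interval -/
lemma approx {B W T L : ℕ} {Z : ℝ} (h : Par B W T L Z) (t : ℕ) (ht : t ∈ Ioc T (2 * T)) (x : ℝ)
    (hx : x ∈ Set.Icc Z (2 * Z)) (m : ℤ) (hm : |yt B W L t x - m| < 1 / L) :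
    ∃ u : ℕ, (u : ℤ) = 1 + W * m ∧ vv B W t < u ∧ (u : ℝ) ≤ 3 * Z ∧
      x ^ 3 ≤ (u : ℝ) ^ 3 - (vv B W t) ^ 2 * u ∧
      (u : ℝ) ^ 3 - (vv B W t) ^ 2 * u ≤ x ^ 3 + 82 * W * Z ^ 2 / L := by
  have hZ0 := h.hZ0
  have hx0 : 0 < x := lt_of_lt_of_le hZ0 hx.1
  have hW : (2 : ℝ) ≤ W := by exact_mod_cast h.hW
  have hL : (2 : ℝ) ≤ L := by exact_mod_cast h.hL
  have hLT : (L : ℝ) ≤ T := by exact_mod_cast h.hLT
  have hT1 : 1 ≤ T := by
    have h1 := h.hL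
    have h2 := h.hLT
    omega
  have hWZ := h.hWZ
  have hw := vv_two B W T t Z ht hT1 hZ0 h.hZ h.hT0
  have hv0 := vv_nonneg B W t
  set v : ℝ := vv B W t with hv
  set s : ℝ := v ^ 2 / x ^ 2 with hs
  set w : ℝ := 1 + s / 3 - s ^ 3 / 81 + s ^ 4 / 243 with hwdef
  have hs0 : 0 ≤ s := by rw [hs]; positivity
  have hsZ : s ≤ v ^ 2 / Z ^ 2 := by
    rw [hs]
    have := hx.1
    gcongr
  have hZ400 : v ^ 2 / Z ^ 2 ≤ 1 / 400 := by
    rw [div_le_div_iff₀ (by positivity) (by norm_num)]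
    linarith
  have hs1 : s ≤ 1 / 400 := hsZ.trans hZ400
  have hyt : yt B W L t x = (x * w - 1) / W + 2 / L := by
    unfold yt ph
    rw [← hv, hwdef, hs]
    field_simp
    ring
  set G : ℝ := x * w with hG
  set U : ℝ := 1 + W * m with hU
  have hm' := abs_lt.mp hm
  have hUG1 : W / L ≤ U - G := by
    have h1 : yt B W L t x - m < 1 / L := hm'.2
    rw [hyt] at h1
    have h2 : (G - 1) / W < m - 1 / L := by
      have h3 : (2 : ℝ) / L = 1 / L + 1 / L := by ring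
      linarith
    rw [div_lt_iff₀ (by linarith)] at h2
    have h3 : (m - 1 / (L : ℝ)) * W = W * m - W / L := by ring
    rw [h3] at h2
    rw [hU]
    linarith
  have hUG2 : U - G ≤ 3 * W / L := by
    have h1 : -(1 / (L : ℝ)) < yt B W L t x - m := hm'.1
    rw [hyt] at h1
    have h2 : m - 3 / L < (G - 1) / W := by
      have h3 : (3 : ℝ) / L = 2 / L + 1 / L := by ring
      linarith
    rw [lt_div_iff₀ (by linarith)] at h2
    have h3 : (m - 3 / (L : ℝ)) * W = W * m - 3 * W / L := by ring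
    rw [h3] at h2
    rw [hU]
    linarith
  have p3 : s ^ 3 ≤ s := by
    have : s ^ 2 ≤ 1 := pow_le_one₀ hs0 (by linarith)
    nlinarith
  have p4 : s ^ 4 ≤ s := by
    have : s ^ 3 ≤ 1 := pow_le_one₀ hs0 (by linarith)
    nlinarith
  have q3 : 0 ≤ s ^ 3 := by positivity
  have q4 : 0 ≤ s ^ 4 := by positivity
  have hw1 : 1 ≤ w := by rw [hwdef]; linarith
  have hw2 : w ≤ 1 + 1 / 400 := by rw [hwdef]; linarith
  have hGx : x ≤ G := by
    rw [hG]
    nlinarith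
  have hGZ : G ≤ 2 * Z * (1 + 1 / 400) := by
    rw [hG]
    have := hx.2
    gcongr
  have hWL : 0 < W / (L : ℝ) := by positivity
  have hWL2 : 3 * W / (L : ℝ) ≤ 3 * W := by
    apply div_le_self (by linarith) (by linarith)
  have hU0 : G < U := by linarith
  have hU3 : U ≤ 3 * Z := by linarith
  have hUpos : 0 < U := by linarith
  have hmpos : 0 ≤ 1 + (W : ℤ) * m := by
    have : (0 : ℝ) < ((1 + (W : ℤ) * m : ℤ) : ℝ) := by
      push_cast
      exact hUpos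
    have h2 : (0 : ℤ) < 1 + (W : ℤ) * m := by exact_mod_cast this
    exact h2.le
  obtain ⟨u, hu⟩ := Int.eq_ofNat_of_zero_le hmpos
  have huU : (u : ℝ) = U := by
    rw [hU]
    have : ((1 + (W : ℤ) * m : ℤ) : ℝ) = ((u : ℤ) : ℝ) := by rw [hu]
    push_cast at this
    exact this.symm
  have hvZ : v ≤ Z / 20 := by
    have : v ^ 2 ≤ (Z / 20) ^ 2 := by
      calc v ^ 2 ≤ Z ^ 2 / 400 := hw
        _ = _ := by ring
    exact le_of_pow_le_pow_left₀ (by norm_num) (by positivity) this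
  have hvx : v ≤ x := by
    have := hx.1
    linarith
  refine ⟨u, by rw [hu], ?_, ?_, ?_, ?_⟩
  · rw [huU]
    linarith
  · rw [huU]
    exact hU3
  · rw [huU]
    have h1 : x ^ 3 ≤ G ^ 3 - v ^ 2 * G := by
      have h2 := (rho s hs0 (by linarith)).1
      rw [← hwdef] at h2
      have h3 : G ^ 3 - v ^ 2 * G = x ^ 3 + x ^ 3 * (w ^ 3 - s * w - 1) := by
        rw [hG, hs]
        field_simp
        ring
      rw [h3]
      have : 0 ≤ x ^ 3 * (w ^ 3 - s * w - 1) := by positivity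
      linarith
    have h2 : (U ^ 3 - v ^ 2 * U) - (G ^ 3 - v ^ 2 * G) =
        (U - G) * (U ^ 2 + U * G + G ^ 2 - v ^ 2) := by ring
    have h3 : 0 ≤ (U - G) * (U ^ 2 + U * G + G ^ 2 - v ^ 2) := by
      apply mul_nonneg (by linarith)
      have : v ^ 2 ≤ G ^ 2 := by
        have : v ≤ G := by linarith
        gcongr
      have h4 : 0 ≤ U ^ 2 := by positivity
      have h5 : 0 ≤ U * G := by
        apply mul_nonneg hUpos.le
        linarith
      linarith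
    linarith
  · rw [huU]
    have h1 : G ^ 3 - v ^ 2 * G ≤ x ^ 3 + Z ^ 2 * W / L := by
      have h2 := (rho s hs0 (by linarith)).2
      rw [← hwdef] at h2
      have h3 : G ^ 3 - v ^ 2 * G = x ^ 3 + x ^ 3 * (w ^ 3 - s * w - 1) := by
        rw [hG, hs]
        field_simp
        ring
      have h4 := h.err ht
      rw [← hv] at h4
      have h5 : x ^ 3 * (w ^ 3 - s * w - 1) ≤ (2 * Z) ^ 3 * ((v ^ 2 / Z ^ 2) ^ 6 / 100) := by
        have h6 : x ^ 3 ≤ (2 * Z) ^ 3 := by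
          have := hx.2
          gcongr
        have h7 : s ^ 6 ≤ (v ^ 2 / Z ^ 2) ^ 6 := by gcongr
        calc x ^ 3 * (w ^ 3 - s * w - 1) ≤ x ^ 3 * (s ^ 6 / 100) := by gcongr
          _ ≤ _ := by gcongr
      have h6 : (2 * Z) ^ 3 * ((v ^ 2 / Z ^ 2) ^ 6 / 100) =
          (8 / 100) * Z ^ 2 * (Z * (v ^ 2 / Z ^ 2) ^ 6) := by ring
      have h7 : (8 / 100) * Z ^ 2 * (Z * (v ^ 2 / Z ^ 2) ^ 6) ≤ (8 / 100) * Z ^ 2 * (1 / T) := by
        gcongr
      have h8 : (8 / 100) * Z ^ 2 * (1 / (T : ℝ)) ≤ Z ^ 2 * W / L := by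
        calc (8 / 100) * Z ^ 2 * (1 / (T : ℝ)) ≤ (8 / 100) * Z ^ 2 * (1 / L) := by gcongr
          _ = (8 / 100) * (Z ^ 2 / L) := by ring
          _ ≤ W * (Z ^ 2 / L) := by
              gcongr
              linarith
          _ = _ := by ring
      linarith
    have h2 : (U ^ 3 - v ^ 2 * U) - (G ^ 3 - v ^ 2 * G) =
        (U - G) * (U ^ 2 + U * G + G ^ 2 - v ^ 2) := by ring
    have hG3 : G ≤ 3 * Z := by linarith
    have hG0 : 0 < G := by linarith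
    have h3 : (U - G) * (U ^ 2 + U * G + G ^ 2 - v ^ 2) ≤ (3 * W / L) * (27 * Z ^ 2) := by
      have h4 : U ^ 2 + U * G + G ^ 2 - v ^ 2 ≤ 27 * Z ^ 2 := by
        have h5 : U ^ 2 ≤ (3 * Z) ^ 2 := by gcongr
        have h6 : U * G ≤ (3 * Z) * (3 * Z) := by gcongr
        have h7 : G ^ 2 ≤ (3 * Z) ^ 2 := by gcongr
        have h8 : 0 ≤ v ^ 2 := by positivity
        nlinarith
      have h9 : 0 ≤ U ^ 2 + U * G + G ^ 2 - v ^ 2 := by
        have : v ^ 2 ≤ G ^ 2 := by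
          have : v ≤ G := by linarith
          gcongr
        have h4 : 0 ≤ U ^ 2 := by positivity
        have h5 : 0 ≤ U * G := mul_nonneg hUpos.le hG0.le
        linarith
      have h10 : 0 ≤ 3 * W / (L : ℝ) := by positivity
      exact mul_le_mul hUG2 h4 h9 h10
    have h4 : (3 * W / (L : ℝ)) * (27 * Z ^ 2) + Z ^ 2 * W / L = 82 * W * Z ^ 2 / L := by ring
    linarith

end Pool.Agent.Q148.CN
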