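import Pool.Agent.Q148.CN.Core

set_option autoImplicit false

/-! # The choice of the parameters -/

namespace Pool.Agent.Q148.CN

open Finset MeasureTheory

/-- the bound for the measure of the exceptional set -/
noncomputable def Bd (B W T L D : ℕ) (Z : ℝ) : ℝ :=
  484 / T ^ 2 * (4 * L * T * Z + 128 * W * L ^ 2 * T ^ 2 +
        208 * L * T ^ 2 * (Real.sqrt (Z * W) * Real.sqrt (Dc B W L T Z)) +
        320 * L * Z ^ 2 / T ^ 2 * (1 + Real.log T)) +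
      (2400 * Z / D + 640 * W * T + 480 * W * Real.sqrt (6 * Z))

lemma log_sqrt (T : ℝ) (hT : 1 ≤ T) : 1 + Real.log T ≤ 2 * Real.sqrt T := by
  have h1 : Real.log T = 2 * Real.log (Real.sqrt T) := by
    rw [Real.log_sqrt (by linarith)]
    ring
  have h2 : 0 < Real.sqrt T := Real.sqrt_pos.mpr (by linarith)
  have h3 := Real.log_le_sub_one_of_pos h2
  linarith

lemma asy (B W D : ℕ) (η : ℝ) (hη : 0 < η) (hB : 1 ≤ B) (hW : 2 ≤ W) (hD : 1 ≤ D)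
    (hD' : 16800 / η ≤ D) : ∃ K₀ : ℕ, 1 ≤ K₀ ∧ ∃ T₀ : ℝ, 1 ≤ T₀ ∧ ∀ (T : ℕ) (Z : ℝ), T₀ ≤ T → 0 < Z →
      (T : ℝ) ^ 7 ≤ Z ^ 3 → Z ^ 3 ≤ 128 * (T : ℝ) ^ 7 →
      Par B W T (T / K₀) Z ∧ (T : ℝ) ≤ 2 * K₀ * ((T / K₀ : ℕ) : ℝ) ∧
        Bd B W T (T / K₀) D Z ≤ η * Z := by
  set ε : ℝ := η / 7 with hε
  have hε0 : 0 < ε := by rw [hε]; positivity
  have hB0 : (1 : ℝ) ≤ B := by exact_mod_cast hB
  have hW0 : (2 : ℝ) ≤ W := by exact_mod_cast hW
  have hD0 : (1 : ℝ) ≤ D := by exact_mod_cast hD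
  set A : ℝ := 1936 / ε + 43 * (B : ℝ) ^ 2 * W ^ 5 * (100672 / ε) ^ 2 with hA
  have hA0 : 0 < A := by rw [hA]; positivity
  obtain ⟨K₀, hK⟩ := exists_nat_gt (A + 1)
  have hK1 : (1 : ℝ) < K₀ := by linarith
  have hK1' : 1 ≤ K₀ := by exact_mod_cast hK1.le
  refine ⟨K₀, hK1', ?_⟩
  set T₀ : ℝ := (10 : ℝ) ^ 15 * (B : ℝ) ^ 18 * W ^ 36 + 2 * K₀ + (61952 * W / ε) ^ 3 +
    6 * (480 * W / ε) ^ 2 + 2 ^ 20 * (154880 / ε) ^ 6 with hT₀
  have t1 : 0 ≤ (10 : ℝ) ^ 15 * (B : ℝ) ^ 18 * W ^ 36 := by positivity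
  have t2 : 0 ≤ (61952 * (W : ℝ) / ε) ^ 3 := by positivity
  have t3 : 0 ≤ 6 * (480 * (W : ℝ) / ε) ^ 2 := by positivity
  have t4 : 0 ≤ 2 ^ 20 * (154880 / ε) ^ 6 := by positivity
  refine ⟨T₀, by rw [hT₀]; linarith, ?_⟩
  intro T Z hT hZ0 hZ1 hZ2
  have hTK : 2 * (K₀ : ℝ) ≤ T := by linarith
  have hTK' : 2 * K₀ ≤ T := by exact_mod_cast hTK
  have hTr : (1 : ℝ) ≤ T := by linarith
  have hT1 : 1 ≤ T := by exact_mod_cast hTr
  set L : ℕ := T / K₀ with hL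
  have hL2 : 2 ≤ L := by
    rw [hL, Nat.le_div_iff_mul_le (by omega)]
    linarith
  have hLT : L ≤ T := Nat.div_le_self _ _
  have hpar : Par B W T L Z := ⟨hB, hW, hL2, hLT, hZ0, hZ1, hZ2, by linarith⟩
  have hLr : (2 : ℝ) ≤ L := by exact_mod_cast hL2
  have hLK : (L : ℝ) * K₀ ≤ T := by
    have := Nat.div_mul_le_self T K₀
    rw [← hL] at this
    exact_mod_cast this
  have hLK2 : (T : ℝ) ≤ 2 * K₀ * L := by
    have h1 := Nat.lt_div_mul_add (a := T) (b := K₀) (by omega)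
    rw [← hL] at h1
    have h2 : (T : ℝ) < L * K₀ + K₀ := by exact_mod_cast h1
    nlinarith
  refine ⟨hpar, hLK2, ?_⟩
  have hZT := hpar.hZT
  have hLTr : (L : ℝ) ≤ T := by exact_mod_cast hLT
  have hlog : 0 ≤ Real.log T := Real.log_nonneg hTr
  -- term 1
  have a1 : 484 / (T : ℝ) ^ 2 * (4 * L * T * Z) ≤ ε * Z := by
    have h1 : 484 / (T : ℝ) ^ 2 * (4 * L * T * Z) = (1936 * L / T) * Z := by
      field_simp
      norm_num
    rw [h1]
    gcongr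
    rw [div_le_iff₀ (by linarith)]
    have h2 : 1936 / ε ≤ K₀ := by
      have : 0 ≤ 43 * (B : ℝ) ^ 2 * W ^ 5 * (100672 / ε) ^ 2 := by positivity
      linarith
    rw [div_le_iff₀ hε0] at h2
    calc 1936 * (L : ℝ) ≤ (K₀ * ε) * L := by gcongr
      _ = ε * (L * K₀) := by ring
      _ ≤ ε * T := by gcongr
  -- term 2
  have hT2Z : 61952 * (W : ℝ) * T ^ 2 ≤ ε * Z := by
    have h1 : ((61952 * W / ε) * (T : ℝ) ^ 2) ^ 3 ≤ Z ^ 3 := by
      calc ((61952 * W / ε) * (T : ℝ) ^ 2) ^ 3 = (61952 * W / ε) ^ 3 * (T : ℝ) ^ 6 := by ring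
        _ ≤ T * (T : ℝ) ^ 6 := by
            gcongr
            linarith
        _ = (T : ℝ) ^ 7 := by ring
        _ ≤ _ := hZ1
    have h2 := le_of_pow_le_pow_left₀ (by norm_num) hZ0.le h1
    have h3 : (61952 * W / ε) * (T : ℝ) ^ 2 = (61952 * W * T ^ 2) / ε := by ring
    rw [h3, div_le_iff₀ hε0] at h2
    linarith
  have a2 : 484 / (T : ℝ) ^ 2 * (128 * W * L ^ 2 * T ^ 2) ≤ ε * Z := by
    have h1 : 484 / (T : ℝ) ^ 2 * (128 * W * L ^ 2 * T ^ 2) = 61952 * W * L ^ 2 := by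
      field_simp
      norm_num
    rw [h1]
    calc 61952 * (W : ℝ) * L ^ 2 ≤ 61952 * W * T ^ 2 := by gcongr
      _ ≤ _ := hT2Z
  -- term 3
  have a3 : 484 / (T : ℝ) ^ 2 * (208 * L * T ^ 2 *
      (Real.sqrt (Z * W) * Real.sqrt (Dc B W L T Z))) ≤ ε * Z := by
    have h1 : 484 / (T : ℝ) ^ 2 * (208 * L * T ^ 2 *
      (Real.sqrt (Z * W) * Real.sqrt (Dc B W L T Z))) =
        100672 * (L * (Real.sqrt (Z * W) * Real.sqrt (Dc B W L T Z))) := by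
      field_simp
      ring
    rw [h1]
    have hDc0 : 0 ≤ Dc B W L T Z := by
      unfold Dc
      positivity
    have h2 : (L * (Real.sqrt (Z * W) * Real.sqrt (Dc B W L T Z))) ^ 2 ≤
        (ε / 100672 * Z) ^ 2 := by
      have h3 : (L * (Real.sqrt (Z * W) * Real.sqrt (Dc B W L T Z))) ^ 2 =
          43 * (B : ℝ) ^ 2 * W ^ 5 * ((L : ℝ) ^ 3 * T ^ 4) / Z := by
        rw [mul_pow, mul_pow, Real.sq_sqrt (by positivity), Real.sq_sqrt hDc0]
        unfold Dc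
        field_simp
      rw [h3]
      have h4 : (L : ℝ) ^ 3 * K₀ ≤ (T : ℝ) ^ 3 := by
        calc (L : ℝ) ^ 3 * K₀ = (L : ℝ) ^ 2 * (L * K₀) := by ring
          _ ≤ (T : ℝ) ^ 2 * T := by gcongr
          _ = _ := by ring
      have h5 : (L : ℝ) ^ 3 * T ^ 4 * K₀ ≤ Z ^ 3 := by
        calc (L : ℝ) ^ 3 * T ^ 4 * K₀ = ((L : ℝ) ^ 3 * K₀) * T ^ 4 := by ring
          _ ≤ (T : ℝ) ^ 3 * T ^ 4 := by gcongr
          _ = (T : ℝ) ^ 7 := by ring
          _ ≤ _ := hZ1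
      have h6 : 43 * (B : ℝ) ^ 2 * W ^ 5 * (100672 / ε) ^ 2 ≤ K₀ := by
        have : 0 ≤ 1936 / ε := by positivity
        linarith
      rw [div_le_iff₀ hZ0]
      have h7 : (0 : ℝ) < (100672 / ε) ^ 2 := by positivity
      have h8 : (ε / 100672 * Z) ^ 2 * Z = Z ^ 3 / (100672 / ε) ^ 2 := by
        field_simp
      rw [h8, le_div_iff₀ h7]
      calc 43 * (B : ℝ) ^ 2 * W ^ 5 * ((L : ℝ) ^ 3 * T ^ 4) * (100672 / ε) ^ 2 =
          (43 * (B : ℝ) ^ 2 * W ^ 5 * (100672 / ε) ^ 2) * ((L : ℝ) ^ 3 * T ^ 4) := by ring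
        _ ≤ K₀ * ((L : ℝ) ^ 3 * T ^ 4) := by gcongr
        _ = (L : ℝ) ^ 3 * T ^ 4 * K₀ := by ring
        _ ≤ _ := h5
    have h3 := le_of_pow_le_pow_left₀ (by norm_num) (by positivity) h2
    calc 100672 * (L * (Real.sqrt (Z * W) * Real.sqrt (Dc B W L T Z))) ≤
        100672 * (ε / 100672 * Z) := by gcongr
      _ = _ := by ring
  -- term 4
  have a4 : 484 / (T : ℝ) ^ 2 * (320 * L * Z ^ 2 / T ^ 2 * (1 + Real.log T)) ≤ ε * Z := by
    have h1 : 484 / (T : ℝ) ^ 2 * (320 * L * Z ^ 2 / T ^ 2 * (1 + Real.log T)) =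
        (154880 * (Z * (1 + Real.log T)) * (L / T ^ 4)) * Z := by
      field_simp
      norm_num
    rw [h1]
    gcongr
    have h2 : (L : ℝ) / T ^ 4 ≤ 1 / T ^ 3 := by
      rw [div_le_div_iff₀ (by positivity) (by positivity)]
      calc (L : ℝ) * T ^ 3 ≤ T * T ^ 3 := by gcongr
        _ = _ := by ring
    have h3 : (154880 / ε) * (Z * (2 * Real.sqrt T)) ≤ T ^ 3 := by
      have h4 : ((154880 / ε) * (Z * (2 * Real.sqrt T))) ^ 6 ≤ ((T : ℝ) ^ 3) ^ 6 := by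
        have h5 : Real.sqrt (T : ℝ) ^ 6 = (T : ℝ) ^ 3 := by
          calc Real.sqrt (T : ℝ) ^ 6 = (Real.sqrt (T : ℝ) ^ 2) ^ 3 := by ring
            _ = _ := by rw [Real.sq_sqrt (by linarith)]
        calc ((154880 / ε) * (Z * (2 * Real.sqrt T))) ^ 6 =
            64 * (154880 / ε) ^ 6 * ((Z ^ 3) ^ 2 * Real.sqrt (T : ℝ) ^ 6) := by ring
          _ ≤ 64 * (154880 / ε) ^ 6 * ((128 * (T : ℝ) ^ 7) ^ 2 * (T : ℝ) ^ 3) := by
              rw [h5]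
              gcongr
          _ = (2 ^ 20 * (154880 / ε) ^ 6) * (T : ℝ) ^ 17 := by ring
          _ ≤ T * (T : ℝ) ^ 17 := by
              gcongr
              linarith
          _ = _ := by ring
      exact le_of_pow_le_pow_left₀ (by norm_num) (by positivity) h4
    have h4 := log_sqrt T hTr
    calc 154880 * (Z * (1 + Real.log T)) * (L / T ^ 4) ≤
        154880 * (Z * (2 * Real.sqrt T)) * (1 / T ^ 3) := by gcongr
      _ = ε * ((154880 / ε) * (Z * (2 * Real.sqrt T))) * (1 / T ^ 3) := by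
          field_simp
      _ ≤ ε * T ^ 3 * (1 / T ^ 3) := by gcongr
      _ = _ := by field_simp
  -- term 5
  have a5 : 2400 * Z / D ≤ ε * Z := by
    rw [div_le_iff₀ (by linarith)]
    have h1 : 2400 ≤ ε * D := by
      rw [div_le_iff₀ hη] at hD'
      rw [hε]
      linarith
    calc 2400 * Z ≤ (ε * D) * Z := by gcongr
      _ = _ := by ring
  -- term 6
  have a6 : 640 * W * T ≤ ε * Z := by
    refine le_trans ?_ hT2Z
    have h1 : (T : ℝ) ≤ T ^ 2 := by nlinarith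
    have h2 : (640 : ℝ) * W ≤ 61952 * W := by linarith
    calc 640 * (W : ℝ) * T ≤ (61952 * W) * T := by gcongr
      _ ≤ _ := by gcongr
  -- term 7
  have a7 : 480 * W * Real.sqrt (6 * Z) ≤ ε * Z := by
    have h1 : 6 * (480 * (W : ℝ) / ε) ^ 2 ≤ Z := by linarith
    have h2 : (480 * W * Real.sqrt (6 * Z)) ^ 2 ≤ (ε * Z) ^ 2 := by
      calc (480 * W * Real.sqrt (6 * Z)) ^ 2 = (480 * W) ^ 2 * (Real.sqrt (6 * Z)) ^ 2 := by ring
        _ = (480 * W) ^ 2 * (6 * Z) := by rw [Real.sq_sqrt (by positivity)]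
        _ = ε ^ 2 * (6 * (480 * (W : ℝ) / ε) ^ 2) * Z := by
            field_simp
        _ ≤ ε ^ 2 * Z * Z := by gcongr
        _ = _ := by ring
    exact le_of_pow_le_pow_left₀ (by norm_num) (by positivity) h2
  unfold Bd
  have h7 : η * Z = ε * Z + ε * Z + ε * Z + ε * Z + (ε * Z + ε * Z + ε * Z) := by
    rw [hε]
    ring
  rw [h7, mul_add, mul_add, mul_add]
  linarith

end Pool.Agent.Q148.CN
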