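import Pool.Agent.Q148.CN.Var2
import Pool.Agent.Q148.CN.Arith

set_option autoImplicit false

/-! # The exceptional set has small measure -/

namespace Pool.Agent.Q148.CN

open Finset MeasureTheory

/-- there is a good number near `B x ^ 3` -/
def Good (B W L : ℕ) (Z x : ℝ) : Prop :=
  ∃ n : ℕ, Squarefree n ∧ n ≡ B [MOD W] ∧ Cong n ∧ B * x ^ 3 ≤ n ∧
    (n : ℝ) ≤ B * x ^ 3 + 82 * B * W * Z ^ 2 / L

/-- the deviation from the mean -/
noncomputable def Sf (B W T L : ℕ) (x : ℝ) : ℝ :=
  ∑ t ∈ Ioc T (2 * T), mk L (yt B W L t x) - T * ∫ y in (0 : ℝ)..1, mk L y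

/-- the points near which the pair `q` counts -/
def Iset (B W L : ℕ) (q : ℕ × ℕ) : Set ℝ :=
  {y | |yt B W L q.2 y - ((q.1 : ℝ) - 1) / W| < 1 / L}

/-- the number of bad pairs near `x` -/
noncomputable def Ef (B W N T L : ℕ) (x : ℝ) : ℝ :=
  ∑ q ∈ BadS B W N T, (Iset B W L q).indicator (fun _ => (1 : ℝ)) x

/-- the function to which Markov's inequality is applied -/
noncomputable def Phi (B W N T L : ℕ) (c x : ℝ) : ℝ :=
  4 / c ^ 2 * Sf B W T L x ^ 2 + 40 * L ^ 2 / c * Ef B W N T L x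

lemma key {B W T L N : ℕ} {Z : ℝ} (h : Par B W T L Z) (hN : N = ⌊3 * Z⌋₊) (hB : Squarefree B)
    (hBW : B ∣ W) (h2 : 2 ∣ W) (x : ℝ) (hx : x ∈ Set.Icc Z (2 * Z)) (hnot : ¬ Good B W L Z x)
    (c : ℝ) (hc : c = T * ∫ y in (0 : ℝ)..1, mk L y) (hc0 : 0 < c) :
    1 ≤ Phi B W N T L c x := by
  have hL : (2 : ℝ) ≤ L := by exact_mod_cast h.hL
  have hB1 : (1 : ℝ) ≤ B := by exact_mod_cast h.hB
  have hind : ∀ q : ℕ × ℕ, 0 ≤ (Iset B W L q).indicator (fun _ => (1 : ℝ)) x := by
    intro q
    exact Set.indicator_nonneg (fun _ _ => zero_le_one) x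
  have hmk : ∀ t ∈ Ioc T (2 * T), mk L (yt B W L t x) ≤ 20 * (L : ℝ) ^ 2 *
      ∑ q ∈ (BadS B W N T).filter (fun q => q.2 = t),
        (Iset B W L q).indicator (fun _ => (1 : ℝ)) x := by
    intro t ht
    have ht' := Finset.mem_Ioc.mp ht
    have hrhs : 0 ≤ 20 * (L : ℝ) ^ 2 * ∑ q ∈ (BadS B W N T).filter (fun q => q.2 = t),
        (Iset B W L q).indicator (fun _ => (1 : ℝ)) x := by
      apply mul_nonneg (by positivity)
      exact Finset.sum_nonneg (fun q _ => hind q)
    by_cases hnear : ∃ m : ℤ, |yt B W L t x - m| < 1 / L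
    · obtain ⟨m, hm⟩ := hnear
      obtain ⟨u, hu1, hu2, hu3, hu4, hu5⟩ := approx h t ht x hx m hm
      have hmod : u ≡ 1 [MOD W] := by
        apply Nat.ModEq.symm
        rw [Nat.modEq_iff_dvd]
        refine ⟨m, ?_⟩
        push_cast
        linarith
      have hvn : B * W ^ 2 * t ^ 2 < u := by
        unfold vv at hu2
        exact_mod_cast hu2
      have hbad : BadP B W u t := by
        by_contra hg
        apply hnot
        obtain ⟨n, hn1, hn2, hn3, hn4⟩ := arith B W u t hB hBW h2 (by have := h.hW; omega)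
          (by omega) hmod hvn hg
        refine ⟨n, hn2, hn3, hn4, ?_, ?_⟩
        · rw [hn1]
          gcongr
        · rw [hn1]
          calc (B : ℝ) * ((u : ℝ) ^ 3 - vv B W t ^ 2 * u) ≤ B * (x ^ 3 + 82 * W * Z ^ 2 / L) := by
                gcongr
            _ = _ := by ring
      have hmem : (u, t) ∈ (BadS B W N T).filter (fun q => q.2 = t) := by
        classical
        unfold BadS
        rw [Finset.mem_filter, Finset.mem_filter, Finset.mem_product, Finset.mem_range]
        refine ⟨⟨⟨?_, ht⟩, hmod, hvn, hbad⟩, rfl⟩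
        have : u ≤ N := by
          rw [hN]
          exact Nat.le_floor hu3
        omega
      have hone : (Iset B W L (u, t)).indicator (fun _ => (1 : ℝ)) x = 1 := by
        rw [Set.indicator_of_mem]
        unfold Iset
        show |yt B W L t x - ((u : ℝ) - 1) / W| < 1 / L
        have h3 : ((u : ℝ) - 1) / W = m := by
          have h4 : (u : ℝ) = 1 + W * m := by exact_mod_cast hu1
          rw [h4]
          have : (0 : ℝ) < W := by
            have := h.hW
            exact_mod_cast (by omega : 0 < W)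
          field_simp
          ring
        rw [h3]
        exact hm
      have h4 := Finset.single_le_sum (f := fun q => (Iset B W L q).indicator
        (fun _ => (1 : ℝ)) x) (fun q _ => hind q) hmem
      rw [hone] at h4
      calc mk L (yt B W L t x) ≤ 20 * (L : ℝ) ^ 2 := mk_le L (by have := h.hL; omega) _
        _ = 20 * (L : ℝ) ^ 2 * 1 := by ring
        _ ≤ _ := by gcongr
    · push Not at hnear
      exact (mk_nonpos L h.hL _ hnear).trans hrhs
  have hsum : ∑ t ∈ Ioc T (2 * T), mk L (yt B W L t x) ≤ 20 * (L : ℝ) ^ 2 * Ef B W N T L x := by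
    calc _ ≤ ∑ t ∈ Ioc T (2 * T), 20 * (L : ℝ) ^ 2 *
          ∑ q ∈ (BadS B W N T).filter (fun q => q.2 = t),
            (Iset B W L q).indicator (fun _ => (1 : ℝ)) x := Finset.sum_le_sum hmk
      _ = _ := by
          rw [← Finset.mul_sum]
          congr 1
          unfold Ef
          apply Finset.sum_fiberwise_of_maps_to
          intro q hq
          classical
          unfold BadS at hq
          rw [Finset.mem_filter, Finset.mem_product] at hq
          exact hq.1.2
  have hE0 : 0 ≤ Ef B W N T L x := Finset.sum_nonneg (fun q _ => hind q)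
  unfold Phi
  by_cases hcase : c / 2 ≤ 20 * (L : ℝ) ^ 2 * Ef B W N T L x
  · have h3 : 1 ≤ 40 * (L : ℝ) ^ 2 / c * Ef B W N T L x := by
      rw [div_mul_eq_mul_div, le_div_iff₀ hc0]
      linarith
    have h4 : 0 ≤ 4 / c ^ 2 * Sf B W T L x ^ 2 := by positivity
    linarith
  · push Not at hcase
    have h3 : Sf B W T L x < -(c / 2) := by
      unfold Sf
      rw [← hc]
      linarith
    have h4 : (c / 2) ^ 2 ≤ (-Sf B W T L x) ^ 2 := by
      have : c / 2 ≤ -Sf B W T L x := by linarith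
      gcongr
    rw [neg_sq] at h4
    have h4 : c ^ 2 / 4 ≤ Sf B W T L x ^ 2 := by
      calc c ^ 2 / 4 = (c / 2) ^ 2 := by ring
        _ ≤ _ := h4
    have h5 : 1 ≤ 4 / c ^ 2 * Sf B W T L x ^ 2 := by
      rw [div_mul_eq_mul_div, le_div_iff₀ (by positivity)]
      linarith
    have h6 : 0 ≤ 40 * (L : ℝ) ^ 2 / c * Ef B W N T L x := by positivity
    linarith

lemma yt_meas (B W L t : ℕ) : Measurable (yt B W L t) := by
  unfold yt ph
  fun_prop

lemma Iset_meas (B W L : ℕ) (q : ℕ × ℕ) : MeasurableSet (Iset B W L q) := by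
  unfold Iset
  apply measurableSet_lt
  · have := yt_meas B W L q.2
    fun_prop
  · fun_prop

lemma yt_slope {B W T L : ℕ} {Z : ℝ} (h : Par B W T L Z) (t : ℕ) (ht : t ∈ Ioc T (2 * T))
    (x y : ℝ) (hx : Z ≤ x) (hxy : x ≤ y) (hy : y ≤ 2 * Z) :
    yt B W L t x + 1 / (2 * W) * (y - x) ≤ yt B W L t y := by
  have hZ0 := h.hZ0
  have hT1 : 1 ≤ T := by
    have h1 := h.hL
    have h2 := h.hLT
    omega
  have hw := vv_two B W T t Z ht hT1 hZ0 h.hZ h.hT0
  have hW0 : (0 : ℝ) < W := by
    have := h.hW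
    exact_mod_cast (by omega : 0 < W)
  set v : ℝ := vv B W t with hv
  apply slope (yt B W L t) (fun x => 1 / W - v ^ 2 / (3 * W) / x ^ 2 -
    5 * (-v ^ 6 / (81 * W)) / x ^ 6 - 7 * (v ^ 8 / (243 * W)) / x ^ 8) Z (2 * Z) (1 / (2 * W))
    _ _ x y hx hxy hy
  · intro z hz
    exact ph_deriv _ _ _ _ _ z (lt_of_lt_of_le hZ0 hz.1)
  · intro z hz
    have hz0 : 0 < z := lt_of_lt_of_le hZ0 hz.1
    set s : ℝ := v ^ 2 / z ^ 2 with hs
    have hs0 : 0 ≤ s := by rw [hs]; positivity
    have hs1 : s ≤ 1 / 400 := by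
      rw [hs, div_le_div_iff₀ (by positivity) (by norm_num)]
      have : Z ^ 2 ≤ z ^ 2 := by
        have := hz.1
        gcongr
      linarith
    have h1 : 1 / (W : ℝ) - v ^ 2 / (3 * W) / z ^ 2 - 5 * (-v ^ 6 / (81 * W)) / z ^ 6 -
        7 * (v ^ 8 / (243 * W)) / z ^ 8 =
        (1 - s / 3 + 5 * s ^ 3 / 81 - 7 * s ^ 4 / 243) / W := by
      rw [hs]
      field_simp
      ring
    have h2 : 1 / (2 * (W : ℝ)) = (1 / 2) / W := by field_simp
    have h3 : s ^ 4 ≤ 1 := pow_le_one₀ hs0 (by linarith)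
    have h4 : 0 ≤ s ^ 3 := by positivity
    rw [h1, h2]
    have h5 : 1 / 2 ≤ (1 - s / 3 + 5 * s ^ 3 / 81 - 7 * s ^ 4 / 243) := by linarith
    gcongr

lemma Iset_vol {B W T L : ℕ} {Z : ℝ} (h : Par B W T L Z) (q : ℕ × ℕ) (hq : q.2 ∈ Ioc T (2 * T)) :
    ∫ x in Set.Ioc Z (2 * Z), (Iset B W L q).indicator (fun _ => (1 : ℝ)) x ≤ 8 * W / L := by
  have hW0 : (0 : ℝ) < W := by
    have := h.hW
    exact_mod_cast (by omega : 0 < W)
  have hL0 : (0 : ℝ) < L := by
    have := h.hL
    exact_mod_cast (by omega : 0 < L)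
  have h1 : (Iset B W L q).indicator (fun _ => (1 : ℝ)) = (Iset B W L q).indicator 1 := rfl
  rw [h1, integral_indicator_one (Iset_meas B W L q)]
  rw [measureReal_restrict_apply (Iset_meas B W L q)]
  by_cases hne : (Iset B W L q ∩ Set.Ioc Z (2 * Z)).Nonempty
  · obtain ⟨x₀, hx₀, hx₀'⟩ := hne
    have hsub : Iset B W L q ∩ Set.Ioc Z (2 * Z) ⊆
        Set.Icc (x₀ - 4 * W / L) (x₀ + 4 * W / L) := by
      rintro x ⟨hx, hx'⟩
      unfold Iset at hx hx₀
      simp only [Set.mem_ofPred_eq] at hx hx₀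
      have h3 := abs_lt.mp hx
      have h4 := abs_lt.mp hx₀
      have h5 : 1 / (2 * (W : ℝ)) * (4 * W / L) = 2 / L := by
        field_simp
        norm_num
      have h6 : (2 : ℝ) / L = 1 / L + 1 / L := by ring
      constructor
      · by_contra hcon
        push Not at hcon
        have h7 := yt_slope h q.2 hq x x₀ hx'.1.le (by
          have : 0 < 4 * W / (L : ℝ) := by positivity
          linarith) hx₀'.2
        have h8 : 1 / (2 * (W : ℝ)) * (4 * W / L) ≤ 1 / (2 * (W : ℝ)) * (x₀ - x) := by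
          gcongr
          linarith
        linarith
      · by_contra hcon
        push Not at hcon
        have h7 := yt_slope h q.2 hq x₀ x hx₀'.1.le (by
          have : 0 < 4 * W / (L : ℝ) := by positivity
          linarith) hx'.2
        have h8 : 1 / (2 * (W : ℝ)) * (4 * W / L) ≤ 1 / (2 * (W : ℝ)) * (x - x₀) := by
          gcongr
          linarith
        linarith
    calc volume.real (Iset B W L q ∩ Set.Ioc Z (2 * Z)) ≤
        volume.real (Set.Icc (x₀ - 4 * W / L) (x₀ + 4 * W / L)) := by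
          apply measureReal_mono hsub (by rw [Real.volume_Icc]; exact ENNReal.ofReal_ne_top)
      _ = (x₀ + 4 * W / L) - (x₀ - 4 * W / L) := by
          rw [Real.volume_real_Icc_of_le]
          have : 0 < 4 * W / (L : ℝ) := by positivity
          linarith
      _ = _ := by ring
  · rw [Set.not_nonempty_iff_eq_empty.mp hne]
    rw [measureReal_empty]
    positivity

lemma Sf_cont (B W T L : ℕ) (Z : ℝ) (hZ0 : 0 < Z) :
    ContinuousOn (Sf B W T L) (Set.uIcc Z (2 * Z)) := by
  unfold Sf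
  apply ContinuousOn.sub _ continuousOn_const
  apply continuousOn_finsetSum
  intro t _
  exact (mk_cont L).comp_continuousOn (yt_cont B W L t Z hZ0)

lemma Sf_meas (B W T L : ℕ) : Measurable (Sf B W T L) := by
  unfold Sf
  apply Measurable.sub _ measurable_const
  apply Finset.measurable_fun_sum
  intro t _
  exact (mk_cont L).measurable.comp (yt_meas B W L t)

lemma Phi_meas (B W N T L : ℕ) (c : ℝ) : Measurable (Phi B W N T L c) := by
  unfold Phi Ef
  apply Measurable.add
  · exact ((Sf_meas B W T L).pow_const 2).const_mul _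
  · apply Measurable.const_mul
    apply Finset.measurable_fun_sum
    intro q _
    exact measurable_const.indicator (Iset_meas B W L q)

lemma Phi_int {B W T L N D : ℕ} {Z : ℝ} (h : Par B W T L Z) (hN : N = ⌊3 * Z⌋₊) (hD : 1 ≤ D)
    (hWp : ∀ p : ℕ, p.Prime → p ≤ D → p ∣ W)
    (c : ℝ) (hc : c = T * ∫ y in (0 : ℝ)..1, mk L y) :
    Integrable (Phi B W N T L c) (volume.restrict (Set.Ioc Z (2 * Z))) ∧
    ∫ x in Set.Ioc Z (2 * Z), Phi B W N T L c x ≤
      484 / T ^ 2 * (4 * L * T * Z + 128 * W * L ^ 2 * T ^ 2 +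
        208 * L * T ^ 2 * (Real.sqrt (Z * W) * Real.sqrt (Dc B W L T Z)) +
        320 * L * Z ^ 2 / T ^ 2 * (1 + Real.log T)) +
      (2400 * Z / D + 640 * W * T + 480 * W * Real.sqrt (6 * Z)) := by
  have hZ0 := h.hZ0
  have hT1 : 1 ≤ T := by
    have h1 := h.hL
    have h2 := h.hLT
    omega
  have hTr : (1 : ℝ) ≤ T := by exact_mod_cast hT1
  have hW0 : (0 : ℝ) < W := by
    have := h.hW
    exact_mod_cast (by omega : 0 < W)
  have hL0 : (0 : ℝ) < L := by
    have := h.hL
    exact_mod_cast (by omega : 0 < L)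
  have hD0 : (0 : ℝ) < D := by exact_mod_cast hD
  have hc1 : 2 * (L : ℝ) * T ≤ c := by
    rw [hc]
    have := int_mk L h.hL
    nlinarith
  have hc0 : 0 < c := lt_of_lt_of_le (by positivity) hc1
  have hle : Z ≤ 2 * Z := by linarith
  have hi1 : Integrable (fun x => Sf B W T L x ^ 2) (volume.restrict (Set.Ioc Z (2 * Z))) := by
    have : IntervalIntegrable (fun x => Sf B W T L x ^ 2) volume Z (2 * Z) :=
      ContinuousOn.intervalIntegrable ((Sf_cont B W T L Z hZ0).pow 2)
    exact (intervalIntegrable_iff_integrableOn_Ioc_of_le hle).mp this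
  have hi2 : ∀ q : ℕ × ℕ, Integrable (fun x => (Iset B W L q).indicator (fun _ => (1 : ℝ)) x)
      (volume.restrict (Set.Ioc Z (2 * Z))) := by
    intro q
    exact (integrable_const (1 : ℝ)).indicator (Iset_meas B W L q)
  have hi3 : Integrable (fun x => Ef B W N T L x) (volume.restrict (Set.Ioc Z (2 * Z))) := by
    unfold Ef
    apply integrable_finsetSum
    intro q _
    exact hi2 q
  have hiP : Integrable (Phi B W N T L c) (volume.restrict (Set.Ioc Z (2 * Z))) := by
    unfold Phi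
    exact (hi1.const_mul _).add (hi3.const_mul _)
  refine ⟨hiP, ?_⟩
  have hE : ∫ x in Set.Ioc Z (2 * Z), Ef B W N T L x ≤
      (5 * T * (3 * Z) / (W * D) + 4 * T ^ 2 + 3 * T * Real.sqrt (2 * (3 * Z))) * (8 * W / L) := by
    unfold Ef
    rw [integral_finsetSum]
    · have hNr : (N : ℝ) ≤ 3 * Z := by
        rw [hN]
        exact Nat.floor_le (by positivity)
      calc ∑ q ∈ BadS B W N T, ∫ x in Set.Ioc Z (2 * Z),
            (Iset B W L q).indicator (fun _ => (1 : ℝ)) x ≤
          ∑ q ∈ BadS B W N T, 8 * W / (L : ℝ) := by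
            apply Finset.sum_le_sum
            intro q hq
            apply Iset_vol h
            classical
            unfold BadS at hq
            rw [Finset.mem_filter, Finset.mem_product] at hq
            exact hq.1.2
        _ = (BadS B W N T).card * (8 * W / (L : ℝ)) := by
            rw [Finset.sum_const, nsmul_eq_mul]
        _ ≤ (5 * T * N / (W * D) + 4 * T ^ 2 + 3 * T * Real.sqrt (2 * N)) * (8 * W / L) := by
            have := bad_card B W N T D (by have := h.hW; omega) hD hWp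
            gcongr
        _ ≤ _ := by gcongr
    · intro q _
      exact hi2 q
  have hV : ∫ x in Set.Ioc Z (2 * Z), Sf B W T L x ^ 2 ≤
      (22 * L) ^ 2 * (4 * L * T * Z + 128 * W * L ^ 2 * T ^ 2 +
        208 * L * T ^ 2 * (Real.sqrt (Z * W) * Real.sqrt (Dc B W L T Z)) +
        320 * L * Z ^ 2 / T ^ 2 * (1 + Real.log T)) := by
    rw [← intervalIntegral.integral_of_le hle]
    exact variance B W T L Z h.hB h.hW h.hL h.hLT h.hZ h.hT0 hZ0
  have hlog : 0 ≤ Real.log T := Real.log_nonneg hTr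
  set X : ℝ := 4 * L * T * Z + 128 * W * L ^ 2 * T ^ 2 +
        208 * L * T ^ 2 * (Real.sqrt (Z * W) * Real.sqrt (Dc B W L T Z)) +
        320 * L * Z ^ 2 / T ^ 2 * (1 + Real.log T) with hX
  have hX0 : 0 ≤ X := by rw [hX]; positivity
  have heq : ∫ x in Set.Ioc Z (2 * Z), Phi B W N T L c x =
      4 / c ^ 2 * (∫ x in Set.Ioc Z (2 * Z), Sf B W T L x ^ 2) +
      40 * L ^ 2 / c * (∫ x in Set.Ioc Z (2 * Z), Ef B W N T L x) := by
    unfold Phi
    rw [integral_add (hi1.const_mul _) (hi3.const_mul _), integral_const_mul, integral_const_mul]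
  rw [heq]
  have h1 : 4 / c ^ 2 * ∫ x in Set.Ioc Z (2 * Z), Sf B W T L x ^ 2 ≤ 484 / T ^ 2 * X := by
    calc 4 / c ^ 2 * ∫ x in Set.Ioc Z (2 * Z), Sf B W T L x ^ 2 ≤
        4 / c ^ 2 * ((22 * L) ^ 2 * X) := by gcongr
      _ ≤ 4 / (2 * L * T) ^ 2 * ((22 * L) ^ 2 * X) := by gcongr
      _ = _ := by
          field_simp
          ring
  have h2 : 40 * L ^ 2 / c * ∫ x in Set.Ioc Z (2 * Z), Ef B W N T L x ≤
      2400 * Z / D + 640 * W * T + 480 * W * Real.sqrt (6 * Z) := by
    have h3 : 0 ≤ (5 * T * (3 * Z) / (W * D) + 4 * T ^ 2 + 3 * T * Real.sqrt (2 * (3 * Z))) *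
        (8 * W / L) := by positivity
    calc 40 * L ^ 2 / c * ∫ x in Set.Ioc Z (2 * Z), Ef B W N T L x ≤
        40 * L ^ 2 / c * ((5 * T * (3 * Z) / (W * D) + 4 * T ^ 2 +
          3 * T * Real.sqrt (2 * (3 * Z))) * (8 * W / L)) := by gcongr
      _ ≤ 40 * L ^ 2 / (2 * L * T) * ((5 * T * (3 * Z) / (W * D) + 4 * T ^ 2 +
          3 * T * Real.sqrt (2 * (3 * Z))) * (8 * W / L)) := by gcongr
      _ = _ := by
          rw [show 2 * (3 * Z) = 6 * Z by ring]
          field_simp
          ring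
  linarith

end Pool.Agent.Q148.CN
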