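import Pool.Agent.Q148.CN.Asy

set_option autoImplicit false

/-! # Squarefree congruent numbers in almost all short intervals -/

namespace Pool.Agent.Q148.CN

open Finset MeasureTheory

/-- the short interval after `x` contains a squarefree congruent number of the class -/
def PK (B W : ℕ) (K : ℝ) (x : ℕ) : Prop :=
  ∃ n : ℕ, x ≤ n ∧ (n : ℝ) ≤ x + K * (x : ℝ) ^ (11 / 21 : ℝ) ∧ Squarefree n ∧ n ≡ B [MOD W] ∧
    Cong n

/-- the cube root of `y / B` -/
noncomputable def cb (B : ℕ) (y : ℝ) : ℝ := (y / B) ^ (1 / 3 : ℝ)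

lemma cb_cube (B : ℕ) (hB : 1 ≤ B) (y : ℝ) (hy : 0 ≤ y) : B * cb B y ^ 3 = y := by
  have hB0 : (0 : ℝ) < B := by exact_mod_cast hB
  unfold cb
  rw [← Real.rpow_natCast, ← Real.rpow_mul (by positivity)]
  norm_num
  field_simp

lemma cb_nonneg (B : ℕ) (y : ℝ) (hy : 0 ≤ y) : 0 ≤ cb B y := by
  unfold cb
  positivity

lemma cb_mono (B : ℕ) (y z : ℝ) (hy : 0 ≤ y) (hyz : y ≤ z) : cb B y ≤ cb B z := by
  unfold cb
  gcongr

lemma block (B W D : ℕ) (η : ℝ) (hη : 0 < η) (hB : Squarefree B) (hBW : B ∣ W) (h2 : 2 ∣ W)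
    (hW : 2 ≤ W) (hD : 1 ≤ D) (hWp : ∀ p : ℕ, p.Prime → p ≤ D → p ∣ W)
    (hD' : 16800 / η ≤ D) : ∃ K : ℝ, 0 < K ∧ ∃ Y₀ : ℝ, 1 ≤ Y₀ ∧ ∀ Y : ℝ, Y₀ ≤ Y →
      ∀ S : Finset ℕ, (∀ x ∈ S, Y / 8 ≤ x ∧ (x : ℝ) + 1 ≤ Y ∧ ¬ PK B W K x) →
        (S.card : ℝ) ≤ 2 * η * Y := by
  have hB1 : 1 ≤ B := Nat.one_le_iff_ne_zero.mpr hB.ne_zero
  have hB0 : (1 : ℝ) ≤ B := by exact_mod_cast hB1
  have hW0 : (2 : ℝ) ≤ W := by exact_mod_cast hW
  obtain ⟨K₀, hK₀, T₀, hT₀, hasy⟩ := asy B W D η hη hB1 hW hD hD'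
  have hK₀r : (1 : ℝ) ≤ K₀ := by exact_mod_cast hK₀
  refine ⟨328 * B * W * K₀ + 1, by positivity, 8 * B * (T₀ + 1) ^ 7 + 8, ?_, ?_⟩
  · have : 0 ≤ 8 * (B : ℝ) * (T₀ + 1) ^ 7 := by positivity
    linarith
  intro Y hY S hS
  have hY8 : 8 ≤ Y := by
    have : 0 ≤ 8 * (B : ℝ) * (T₀ + 1) ^ 7 := by positivity
    linarith
  set Z : ℝ := cb B (Y / 8) with hZ
  have hZ3 : B * Z ^ 3 = Y / 8 := cb_cube B hB1 _ (by linarith)
  have hZn : 0 ≤ Z := cb_nonneg B _ (by linarith)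
  have hZ0 : 0 < Z := by
    rcases hZn.lt_or_eq with h | h
    · exact h
    · rw [← h] at hZ3
      norm_num at hZ3
      linarith
  set τ : ℝ := Z ^ (3 / 7 : ℝ) with hτ
  have hτ7 : τ ^ 7 = Z ^ 3 := by
    rw [hτ, ← Real.rpow_natCast, ← Real.rpow_mul hZn]
    norm_num
  have hτ0 : 0 ≤ τ := by rw [hτ]; positivity
  have hτT : T₀ + 1 ≤ τ := by
    have h3 : (T₀ + 1) ^ 7 ≤ τ ^ 7 := by
      rw [hτ7]
      have h4 : 8 * B * (T₀ + 1) ^ 7 ≤ 8 * (B * Z ^ 3) := by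
        rw [hZ3]
        linarith
      have h5 : (8 * (B : ℝ)) * (T₀ + 1) ^ 7 ≤ (8 * B) * Z ^ 3 := by linarith
      exact le_of_mul_le_mul_left h5 (by positivity)
    exact le_of_pow_le_pow_left₀ (by norm_num) hτ0 h3
  set T : ℕ := ⌊τ⌋₊ with hT
  have hTτ : (T : ℝ) ≤ τ := Nat.floor_le hτ0
  have hτT1 : τ < T + 1 := Nat.lt_floor_add_one τ
  have hTT₀ : T₀ ≤ T := by linarith
  have hT1 : (1 : ℝ) ≤ T := by linarith
  have hτ2T : τ ≤ 2 * T := by linarith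
  have hZT1 : (T : ℝ) ^ 7 ≤ Z ^ 3 := by
    rw [← hτ7]
    gcongr
  have hZT2 : Z ^ 3 ≤ 128 * (T : ℝ) ^ 7 := by
    rw [← hτ7]
    calc τ ^ 7 ≤ (2 * (T : ℝ)) ^ 7 := by gcongr
      _ = _ := by ring
  obtain ⟨hpar, hLK, hBd⟩ := hasy T Z hTT₀ hZ0 hZT1 hZT2
  set L : ℕ := T / K₀ with hL
  have hLr : (2 : ℝ) ≤ L := by exact_mod_cast hpar.hL
  -- the exceptional set
  set N : ℕ := ⌊3 * Z⌋₊ with hN
  set c : ℝ := T * ∫ y in (0 : ℝ)..1, mk L y with hc
  have hc0 : 0 < c := by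
    have h3 := int_mk L hpar.hL
    rw [hc]
    have : 0 < ∫ y in (0 : ℝ)..1, mk L y := by linarith
    positivity
  obtain ⟨hint, hle⟩ := Phi_int hpar hN hD hWp c hc
  have hPhi0 : ∀ x, 0 ≤ Phi B W N T L c x := by
    intro x
    unfold Phi
    have hE0 : 0 ≤ Ef B W N T L x :=
      Finset.sum_nonneg (fun q _ => Set.indicator_nonneg (fun _ _ => zero_le_one) x)
    positivity
  set M : Set ℝ := {x | 1 ≤ Phi B W N T L c x} with hM
  have hMm : MeasurableSet M := measurableSet_le measurable_const (Phi_meas B W N T L c)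
  have hMvol : volume.real (M ∩ Set.Ioc Z (2 * Z)) ≤ η * Z := by
    have h3 := mul_meas_ge_le_integral_of_nonneg (μ := volume.restrict (Set.Ioc Z (2 * Z)))
      (Filter.Eventually.of_forall hPhi0) hint 1
    rw [one_mul] at h3
    rw [measureReal_restrict_apply hMm] at h3
    refine h3.trans (hle.trans ?_)
    exact hBd
  -- the intervals
  set I : ℕ → Set ℝ := fun x => Set.Ioc (cb B (x : ℝ)) (cb B ((x + 1 : ℕ) : ℝ)) with hI
  have hmonof : Monotone (fun x : ℕ => cb B (x : ℝ)) := by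
    intro x y hxy
    exact cb_mono B _ _ (by positivity) (by exact_mod_cast hxy)
  have hdisj : (S : Set ℕ).PairwiseDisjoint I := by
    have h3 := hmonof.pairwise_disjoint_on_Ioc_succ
    intro x _ y _ hxy
    exact h3 hxy
  have hsub : (⋃ x ∈ S, I x) ⊆ M ∩ Set.Ioc Z (2 * Z) := by
    intro ξ hξ
    rw [Set.mem_iUnion₂] at hξ
    obtain ⟨x, hxS, hξx⟩ := hξ
    obtain ⟨h3, h4, h5⟩ := hS x hxS
    rw [hI] at hξx
    have hξ1 : cb B (x : ℝ) < ξ := hξx.1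
    have hξ2 : ξ ≤ cb B ((x + 1 : ℕ) : ℝ) := hξx.2
    have hx0 : (0 : ℝ) ≤ x := by positivity
    have hx1 : (1 : ℝ) ≤ x := by linarith
    have hZξ : Z < ξ := lt_of_le_of_lt (cb_mono B _ _ (by linarith) h3) hξ1
    have hξ0 : 0 < ξ := hZ0.trans hZξ
    have hcx := cb_cube B hB1 (x : ℝ) hx0
    have hcx1 := cb_cube B hB1 ((x + 1 : ℕ) : ℝ) (by positivity)
    have hl : (x : ℝ) ≤ B * ξ ^ 3 := by
      rw [← hcx]
      have := cb_nonneg B (x : ℝ) hx0
      gcongr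
    have hr : B * ξ ^ 3 ≤ x + 1 := by
      calc B * ξ ^ 3 ≤ B * (cb B ((x + 1 : ℕ) : ℝ)) ^ 3 := by gcongr
        _ = ((x + 1 : ℕ) : ℝ) := hcx1
        _ = _ := by push_cast; ring
    have hξZ : ξ ≤ 2 * Z := by
      have h6 : ξ ^ 3 ≤ (2 * Z) ^ 3 := by
        have h7 : B * ξ ^ 3 ≤ B * (2 * Z) ^ 3 := by
          calc B * ξ ^ 3 ≤ x + 1 := hr
            _ ≤ Y := h4
            _ = 8 * (B * Z ^ 3) := by rw [hZ3]; ring
            _ = _ := by ring
        exact le_of_mul_le_mul_left h7 (by linarith)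
      exact le_of_pow_le_pow_left₀ (by norm_num) (by positivity) h6
    refine ⟨?_, hZξ, hξZ⟩
    show 1 ≤ Phi B W N T L c ξ
    apply key hpar hN hB hBW h2 ξ ⟨hZξ.le, hξZ⟩ _ c hc hc0
    rintro ⟨n, hn1, hn2, hn3, hn4, hn5⟩
    apply h5
    refine ⟨n, ?_, ?_, hn1, hn2, hn3⟩
    · have : (x : ℝ) ≤ n := hl.trans hn4
      exact_mod_cast this
    · have h6 : 82 * (B : ℝ) * W * Z ^ 2 / L ≤ 328 * B * W * K₀ * (x : ℝ) ^ (11 / 21 : ℝ) := by
        have h7 : Z ^ 2 = Z ^ (11 / 7 : ℝ) * τ := by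
          rw [hτ, ← Real.rpow_add hZ0, ← Real.rpow_natCast]
          norm_num
        have h8 : Z ^ (11 / 7 : ℝ) ≤ (x : ℝ) ^ (11 / 21 : ℝ) := by
          have h9 : Z ≤ (x : ℝ) ^ (1 / 3 : ℝ) := by
            calc Z ≤ cb B (x : ℝ) := cb_mono B _ _ (by linarith) h3
              _ = ((x : ℝ) / B) ^ (1 / 3 : ℝ) := rfl
              _ ≤ (x : ℝ) ^ (1 / 3 : ℝ) := by
                  have : (x : ℝ) / B ≤ x := div_le_self hx0 hB0
                  gcongr
          calc Z ^ (11 / 7 : ℝ) ≤ ((x : ℝ) ^ (1 / 3 : ℝ)) ^ (11 / 7 : ℝ) := by gcongr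
            _ = _ := by
                rw [← Real.rpow_mul hx0]
                norm_num
        have h10 : Z ^ 2 ≤ (x : ℝ) ^ (11 / 21 : ℝ) * (4 * K₀ * L) := by
          rw [h7]
          calc Z ^ (11 / 7 : ℝ) * τ ≤ (x : ℝ) ^ (11 / 21 : ℝ) * (2 * T) := by gcongr
            _ ≤ (x : ℝ) ^ (11 / 21 : ℝ) * (2 * (2 * K₀ * L)) := by gcongr
            _ = _ := by ring
        rw [div_le_iff₀ (by linarith)]
        calc 82 * (B : ℝ) * W * Z ^ 2 ≤ 82 * B * W * ((x : ℝ) ^ (11 / 21 : ℝ) * (4 * K₀ * L)) := by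
              gcongr
          _ = _ := by ring
      have h7 : 1 ≤ (x : ℝ) ^ (11 / 21 : ℝ) := Real.one_le_rpow hx1 (by norm_num)
      calc (n : ℝ) ≤ B * ξ ^ 3 + 82 * B * W * Z ^ 2 / L := hn5
        _ ≤ (x + 1) + 328 * B * W * K₀ * (x : ℝ) ^ (11 / 21 : ℝ) := by gcongr
        _ ≤ _ := by
            rw [add_mul]
            linarith
  have hvol : volume.real (⋃ x ∈ S, I x) = ∑ x ∈ S, volume.real (I x) := by
    apply measureReal_biUnion_finset hdisj (fun x _ => measurableSet_Ioc)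
      (fun x _ => by
        rw [hI]
        simp only
        rw [Real.volume_Ioc]
        exact ENNReal.ofReal_ne_top)
  have hlen : ∀ x ∈ S, 1 / (12 * B * Z ^ 2) ≤ volume.real (I x) := by
    intro x hxS
    obtain ⟨h3, h4, h5⟩ := hS x hxS
    have hx0 : (0 : ℝ) ≤ x := by positivity
    have hcx := cb_cube B hB1 (x : ℝ) hx0
    have hcx1 := cb_cube B hB1 ((x + 1 : ℕ) : ℝ) (by positivity)
    have ha0 := cb_nonneg B (x : ℝ) hx0
    have hab : cb B (x : ℝ) ≤ cb B ((x + 1 : ℕ) : ℝ) := hmonof (Nat.le_succ x)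
    rw [hI]
    simp only
    rw [Real.volume_real_Ioc_of_le hab]
    set a : ℝ := cb B (x : ℝ) with ha
    set b : ℝ := cb B ((x + 1 : ℕ) : ℝ) with hb
    have hb0 : 0 ≤ b := ha0.trans hab
    have hb2 : b ≤ 2 * Z := by
      have h6 : b ^ 3 ≤ (2 * Z) ^ 3 := by
        have h7 : B * b ^ 3 ≤ B * (2 * Z) ^ 3 := by
          calc B * b ^ 3 = ((x + 1 : ℕ) : ℝ) := hcx1
            _ = x + 1 := by push_cast; ring
            _ ≤ Y := h4
            _ = 8 * (B * Z ^ 3) := by rw [hZ3]; ring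
            _ = _ := by ring
        exact le_of_mul_le_mul_left h7 (by linarith)
      exact le_of_pow_le_pow_left₀ (by norm_num) (by positivity) h6
    have hdiff : B * ((b - a) * (b ^ 2 + a * b + a ^ 2)) = 1 := by
      have h6 : B * ((b - a) * (b ^ 2 + a * b + a ^ 2)) = B * b ^ 3 - B * a ^ 3 := by ring
      rw [h6, hcx, hcx1]
      push_cast
      ring
    have hq : b ^ 2 + a * b + a ^ 2 ≤ 12 * Z ^ 2 := by
      have ha2 : a ≤ 2 * Z := hab.trans hb2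
      have h6 : b ^ 2 ≤ (2 * Z) ^ 2 := by gcongr
      have h7 : a * b ≤ (2 * Z) * (2 * Z) := by gcongr
      have h8 : a ^ 2 ≤ (2 * Z) ^ 2 := by gcongr
      nlinarith
    rw [div_le_iff₀ (by positivity)]
    have hba : 0 ≤ b - a := by linarith
    calc (1 : ℝ) = B * ((b - a) * (b ^ 2 + a * b + a ^ 2)) := hdiff.symm
      _ ≤ B * ((b - a) * (12 * Z ^ 2)) := by gcongr
      _ = _ := by ring
  have h3 : (S.card : ℝ) * (1 / (12 * B * Z ^ 2)) ≤ η * Z := by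
    calc (S.card : ℝ) * (1 / (12 * B * Z ^ 2)) = ∑ x ∈ S, 1 / (12 * (B : ℝ) * Z ^ 2) := by
          rw [Finset.sum_const, nsmul_eq_mul]
      _ ≤ ∑ x ∈ S, volume.real (I x) := Finset.sum_le_sum hlen
      _ = volume.real (⋃ x ∈ S, I x) := hvol.symm
      _ ≤ volume.real (M ∩ Set.Ioc Z (2 * Z)) := by
          exact measureReal_mono hsub (ne_of_lt (lt_of_le_of_lt
            (measure_mono Set.inter_subset_right)
            (by rw [Real.volume_Ioc]; exact ENNReal.ofReal_lt_top)))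
      _ ≤ _ := hMvol
  have h4 : (S.card : ℝ) = (S.card : ℝ) * (1 / (12 * B * Z ^ 2)) * (12 * B * Z ^ 2) := by
    field_simp
  calc (S.card : ℝ) = (S.card : ℝ) * (1 / (12 * B * Z ^ 2)) * (12 * B * Z ^ 2) := h4
    _ ≤ (η * Z) * (12 * B * Z ^ 2) := by gcongr
    _ = 12 * η * (B * Z ^ 3) := by ring
    _ = 12 * η * (Y / 8) := by rw [hZ3]
    _ ≤ 2 * η * Y := by
        have : 0 ≤ η * Y := by positivity
        linarith

lemma PK_mono (B W W' : ℕ) (K : ℝ) (x : ℕ) (hW : W ∣ W') (h : PK B W' K x) : PK B W K x := by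
  obtain ⟨n, h1, h2, h3, h4, h5⟩ := h
  exact ⟨n, h1, h2, h3, h4.of_dvd hW, h5⟩

open Classical in
/-- the number of `x ≤ X` without a number in the short interval -/
noncomputable def Nf (B W : ℕ) (K : ℝ) (X : ℕ) : ℕ :=
  ((range (X + 1)).filter (fun x => ¬ PK B W K x)).card

lemma Nf_le (B W : ℕ) (K : ℝ) (X : ℕ) : Nf B W K X ≤ X + 1 := by
  classical
  unfold Nf
  refine (Finset.card_filter_le _ _).trans ?_
  rw [Finset.card_range]

lemma main_nat (B M : ℕ) (hB : Squarefree B) (hM : 1 ≤ M) (η : ℝ) (hη : 0 < η) :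
    ∃ K : ℝ, 0 < K ∧ ∃ C : ℝ, 0 < C ∧ ∀ X : ℕ, (Nf B (2 * M) K X : ℝ) ≤ C + η * X := by
  classical
  have hB1 : 1 ≤ B := Nat.one_le_iff_ne_zero.mpr hB.ne_zero
  obtain ⟨D, hD⟩ := exists_nat_ge (16800 / (η / 4) + 1)
  have hDr : 1 ≤ (D : ℝ) := by
    have : 0 < 16800 / (η / 4) := by positivity
    linarith
  have hD1 : 1 ≤ D := by exact_mod_cast hDr
  set W : ℕ := 2 * M * B * D.factorial with hWdef
  have hWpos : 0 < M * B * D.factorial := by positivity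
  have hW2 : 2 ≤ W := by
    have : W = 2 * (M * B * D.factorial) := by rw [hWdef]; ring
    omega
  have hBW : B ∣ W := ⟨2 * M * D.factorial, by rw [hWdef]; ring⟩
  have h2W : 2 ∣ W := ⟨M * B * D.factorial, by rw [hWdef]; ring⟩
  have hMW : 2 * M ∣ W := ⟨B * D.factorial, by rw [hWdef]; ring⟩
  have hWp : ∀ p : ℕ, p.Prime → p ≤ D → p ∣ W := by
    intro p hp hpD
    have h1 : p ∣ D.factorial := Nat.dvd_factorial hp.pos hpD
    rw [hWdef]
    exact h1.mul_left _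
  obtain ⟨K, hK, Y₀, hY₀, hblock⟩ := block B W D (η / 4) (by positivity) hB hBW h2W hW2 hD1 hWp
    (by linarith)
  refine ⟨K, hK, Y₀ + 2, by linarith, ?_⟩
  intro X
  induction X using Nat.strong_induction_on with
  | _ X ih =>
    by_cases hsmall : (X : ℝ) + 1 < Y₀ ∨ X < 2
    · have h1 : (Nf B (2 * M) K X : ℝ) ≤ X + 1 := by exact_mod_cast Nf_le B (2 * M) K X
      have h2 : 0 ≤ η * X := by positivity
      rcases hsmall with h3 | h3
      · linarith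
      · have : (X : ℝ) ≤ 1 := by exact_mod_cast (by omega : X ≤ 1)
        linarith
    · push Not at hsmall
      obtain ⟨h1, h2⟩ := hsmall
      set S : Finset ℕ := (range (X + 1)).filter (fun x => ¬ PK B (2 * M) K x ∧ (X + 1) / 8 < x)
        with hS
      have h3 : Nf B (2 * M) K X ≤ Nf B (2 * M) K ((X + 1) / 8) + S.card := by
        unfold Nf
        have hsub : (range (X + 1)).filter (fun x => ¬ PK B (2 * M) K x) ⊆
            ((range ((X + 1) / 8 + 1)).filter (fun x => ¬ PK B (2 * M) K x)) ∪ S := by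
          intro x hx
          rw [Finset.mem_filter, Finset.mem_range] at hx
          rw [Finset.mem_union, Finset.mem_filter, hS, Finset.mem_filter, Finset.mem_range,
            Finset.mem_range]
          by_cases hx2 : x < (X + 1) / 8 + 1
          · exact Or.inl ⟨hx2, hx.2⟩
          · exact Or.inr ⟨hx.1, hx.2, by omega⟩
        exact (Finset.card_le_card hsub).trans (Finset.card_union_le _ _)
      have h4 : (S.card : ℝ) ≤ 2 * (η / 4) * ((X : ℝ) + 1) := by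
        apply hblock ((X : ℝ) + 1) h1 S
        intro x hx
        rw [hS, Finset.mem_filter, Finset.mem_range] at hx
        obtain ⟨h5, h6, h7⟩ := hx
        refine ⟨?_, ?_, ?_⟩
        · have h8 : X + 1 ≤ 8 * x := by omega
          have h9 : (X : ℝ) + 1 ≤ 8 * x := by exact_mod_cast h8
          linarith
        · have h8 : x + 1 ≤ X + 1 := by omega
          exact_mod_cast h8
        · intro h8
          exact h6 (PK_mono B (2 * M) W K x hMW h8)
      have h5 := ih ((X + 1) / 8) (by omega)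
      have h6 : (((X + 1) / 8 : ℕ) : ℝ) ≤ ((X : ℝ) + 1) / 8 := by
        have := @Nat.cast_div_le ℝ _ _ _ (X + 1) 8
        push_cast at this
        exact this
      have h7 : (Nf B (2 * M) K X : ℝ) ≤ Nf B (2 * M) K ((X + 1) / 8) + S.card := by
        exact_mod_cast h3
      have h8 : (2 : ℝ) ≤ X := by exact_mod_cast h2
      have h9 : η * (((X + 1) / 8 : ℕ) : ℝ) ≤ η * (((X : ℝ) + 1) / 8) := by gcongr
      have h10 : η * (((X : ℝ) + 1) / 8) + 2 * (η / 4) * ((X : ℝ) + 1) ≤ η * X := by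
        have h11 : η * (((X : ℝ) + 1) / 8) + 2 * (η / 4) * ((X : ℝ) + 1) =
            η * ((5 / 8) * ((X : ℝ) + 1)) := by ring
        rw [h11]
        gcongr
        linarith
      linarith

theorem main (B M : ℕ) (hB : Squarefree B) (hM : 1 ≤ M) (η : ℝ) (hη : 0 < η) :
    ∃ K : ℝ, 0 < K ∧ ∃ X₀ : ℝ, ∀ X : ℝ, X₀ ≤ X →
      (({x : ℕ | (x : ℝ) ≤ X ∧ ¬ PK B (2 * M) K x}).ncard : ℝ) ≤ η * X := by
  classical
  obtain ⟨K, hK, C, hC, h⟩ := main_nat B M hB hM (η / 2) (by positivity)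
  refine ⟨K, hK, 2 * C / η, ?_⟩
  intro X hX
  have hX0 : 0 < X := lt_of_lt_of_le (by positivity) hX
  have h1 : {x : ℕ | (x : ℝ) ≤ X ∧ ¬ PK B (2 * M) K x} =
      ((range (⌊X⌋₊ + 1)).filter (fun x => ¬ PK B (2 * M) K x) : Finset ℕ) := by
    ext x
    simp only [Set.mem_ofPred_eq, Finset.coe_filter, Finset.mem_range]
    rw [Nat.lt_succ_iff, Nat.le_floor_iff hX0.le]
  rw [h1, Set.ncard_coe_finset]
  have h2 := h ⌊X⌋₊
  unfold Nf at h2
  have h3 : (⌊X⌋₊ : ℝ) ≤ X := Nat.floor_le hX0.le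
  have h4 : 2 * C ≤ η * X := by
    rw [div_le_iff₀ hη] at hX
    linarith
  have h5 : (((range (⌊X⌋₊ + 1)).filter (fun x => ¬ PK B (2 * M) K x)).card : ℝ) ≤
      C + η / 2 * ⌊X⌋₊ := by
    convert h2 using 3
  have h6 : η / 2 * (⌊X⌋₊ : ℝ) ≤ η / 2 * X := by gcongr
  linarith

end Pool.Agent.Q148.CN
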