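import Mathlib

set_option autoImplicit false

/-! # A trigonometric minorant of the interval `‖y‖ < 1 / L` -/

namespace Pool.Agent.Q148.CN

open Finset MeasureTheory

/-- the character `exp (2 π i x)` -/
noncomputable def ex (x : ℝ) : ℂ := Complex.exp (2 * Real.pi * x * Complex.I)

lemma ex_zero : ex 0 = 1 := by simp [ex]

lemma ex_add (x y : ℝ) : ex (x + y) = ex x * ex y := by
  unfold ex
  rw [← Complex.exp_add]
  congr 1
  push_cast
  ring

lemma ex_norm (x : ℝ) : ‖ex x‖ = 1 := by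
  unfold ex
  rw [show (2 * Real.pi * x * Complex.I : ℂ) = ((2 * Real.pi * x : ℝ) : ℂ) * Complex.I by
    push_cast; ring]
  exact Complex.norm_exp_ofReal_mul_I _

lemma ex_cont : Continuous ex := by
  unfold ex
  fun_prop

lemma ex_conj (x : ℝ) : (starRingEnd ℂ) (ex x) = ex (-x) := by
  unfold ex
  rw [← Complex.exp_conj]
  congr 1
  rw [map_mul, map_mul, map_mul, Complex.conj_I, Complex.conj_ofReal, Complex.conj_ofReal,
    map_ofNat]
  push_cast
  ring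

lemma ex_nat (k : ℕ) (y : ℝ) : ex (k * y) = (ex y) ^ k := by
  unfold ex
  rw [← Complex.exp_nat_mul]
  congr 1
  push_cast
  ring

lemma ex_int (n : ℤ) : ex n = 1 := by
  unfold ex
  rw [Complex.exp_eq_one_iff]
  exact ⟨n, by push_cast; ring⟩

lemma int_ex (n : ℤ) : ∫ y in (0 : ℝ)..1, ex (n * y) = if n = 0 then 1 else 0 := by
  split_ifs with h
  · subst h
    simp [ex_zero]
  · have h1 : (2 * Real.pi * n * Complex.I : ℂ) ≠ 0 := by
      have h2 : (Real.pi : ℂ) ≠ 0 := by exact_mod_cast Real.pi_ne_zero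
      have h3 : (n : ℂ) ≠ 0 := by exact_mod_cast h
      simp [h2, h3]
    have h4 : ∀ y : ℝ, ex (n * y) = Complex.exp ((2 * Real.pi * n * Complex.I) * y) := by
      intro y
      unfold ex
      congr 1
      push_cast
      ring
    simp_rw [h4]
    rw [integral_exp_mul_complex h1]
    have h5 : Complex.exp (2 * Real.pi * n * Complex.I * (1 : ℝ)) = 1 := by
      rw [Complex.exp_eq_one_iff]
      exact ⟨n, by push_cast; ring⟩
    rw [h5]
    simp

/-- Coefficients of a trigonometric polynomial by integration. -/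
lemma coeff_int (N : ℕ) (s : ℤ) (c : ℕ → ℂ) (k₀ : ℕ) (hk : k₀ < N) :
    ∫ y in (0 : ℝ)..1, (∑ k ∈ range N, c k * ex (((k : ℤ) - s : ℤ) * y)) *
      ex (-((((k₀ : ℤ) - s : ℤ) : ℝ) * y)) = c k₀ := by
  have h1 : ∀ y : ℝ, (∑ k ∈ range N, c k * ex (((k : ℤ) - s : ℤ) * y)) *
      ex (-((((k₀ : ℤ) - s : ℤ) : ℝ) * y)) =
      ∑ k ∈ range N, c k * ex (((k : ℤ) - k₀ : ℤ) * y) := by
    intro y
    rw [Finset.sum_mul]
    apply Finset.sum_congr rfl
    intro k _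
    rw [mul_assoc, ← ex_add]
    congr 2
    push_cast
    ring
  simp_rw [h1]
  rw [intervalIntegral.integral_finsetSum]
  · rw [Finset.sum_eq_single k₀]
    · rw [intervalIntegral.integral_const_mul, int_ex]
      simp
    · intro b _ hb
      rw [intervalIntegral.integral_const_mul, int_ex, if_neg, mul_zero]
      omega
    · intro h
      exact absurd (Finset.mem_range.mpr hk) h
  · intro k _
    apply Continuous.intervalIntegrable
    have := ex_cont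
    fun_prop

/-- Parseval for trigonometric polynomials. -/
lemma parseval (N : ℕ) (c : ℕ → ℂ) :
    ∫ y in (0 : ℝ)..1, ‖∑ k ∈ range N, c k * ex (k * y)‖ ^ 2 = ∑ k ∈ range N, ‖c k‖ ^ 2 := by
  have h1 : ∀ y : ℝ, ((‖∑ k ∈ range N, c k * ex (k * y)‖ ^ 2 : ℝ) : ℂ) =
      ∑ l ∈ range N, (starRingEnd ℂ) (c l) *
        ((∑ k ∈ range N, c k * ex (((k : ℤ) - (0 : ℤ) : ℤ) * y)) *
          ex (-((((l : ℤ) - (0 : ℤ) : ℤ) : ℝ) * y))) := by
    intro y
    have h2 : ∀ z : ℂ, ((‖z‖ ^ 2 : ℝ) : ℂ) = z * (starRingEnd ℂ) z := by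
      intro z
      rw [Complex.mul_conj, Complex.normSq_eq_norm_sq]
    rw [h2, map_sum, Finset.mul_sum]
    apply Finset.sum_congr rfl
    intro l _
    rw [map_mul, ex_conj]
    push_cast
    simp only [sub_zero]
    ring
  have h3 : ((∫ y in (0 : ℝ)..1, ‖∑ k ∈ range N, c k * ex (k * y)‖ ^ 2 : ℝ) : ℂ) =
      ((∑ k ∈ range N, ‖c k‖ ^ 2 : ℝ) : ℂ) := by
    rw [← intervalIntegral.integral_ofReal]
    simp_rw [h1]
    rw [intervalIntegral.integral_finsetSum]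
    · rw [Complex.ofReal_sum]
      apply Finset.sum_congr rfl
      intro l hl
      rw [intervalIntegral.integral_const_mul]
      have h4 := coeff_int N 0 c l (Finset.mem_range.mp hl)
      rw [h4, mul_comm, Complex.mul_conj, Complex.normSq_eq_norm_sq]
    · intro l _
      apply Continuous.intervalIntegrable
      have := ex_cont
      fun_prop
  exact_mod_cast h3

/-- the Dirichlet kernel -/
noncomputable def Dk (L : ℕ) (y : ℝ) : ℂ := ∑ k ∈ range L, ex (k * y)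

lemma Dk_cont (L : ℕ) : Continuous (Dk L) := by
  unfold Dk
  have := ex_cont
  fun_prop

lemma Dk_norm_le (L : ℕ) (y : ℝ) : ‖Dk L y‖ ≤ L := by
  unfold Dk
  calc ‖∑ k ∈ range L, ex (k * y)‖ ≤ ∑ k ∈ range L, ‖ex (k * y)‖ := norm_sum_le _ _
    _ = L := by simp [ex_norm]

lemma norm_ex_sub_one (y : ℝ) : ‖ex y - 1‖ = 2 * |Real.sin (Real.pi * y)| := by
  have h := Complex.norm_exp_I_mul_ofReal_sub_one (2 * Real.pi * y)
  unfold ex
  rw [show (2 * Real.pi * y * Complex.I : ℂ) = Complex.I * ((2 * Real.pi * y : ℝ) : ℂ) by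
    push_cast; ring, h]
  rw [Real.norm_eq_abs, abs_mul, abs_of_pos (by norm_num : (0 : ℝ) < 2)]
  congr 3
  ring

lemma Dk_sin (L : ℕ) (y : ℝ) : ‖Dk L y‖ ^ 2 * Real.sin (Real.pi * y) ^ 2 ≤ 1 := by
  have h1 : Dk L y * (ex y - 1) = ex (L * y) - 1 := by
    unfold Dk
    simp_rw [ex_nat]
    exact geom_sum_mul (ex y) L
  have h2 : ‖Dk L y‖ * (2 * |Real.sin (Real.pi * y)|) ≤ 2 := by
    rw [← norm_ex_sub_one, ← norm_mul, h1]
    calc ‖ex (L * y) - 1‖ ≤ ‖ex (L * y)‖ + ‖(1 : ℂ)‖ := norm_sub_le _ _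
      _ = 2 := by rw [ex_norm, norm_one]; norm_num
  have h3 : ‖Dk L y‖ * |Real.sin (Real.pi * y)| ≤ 1 := by linarith
  have h4 : 0 ≤ ‖Dk L y‖ * |Real.sin (Real.pi * y)| := by positivity
  calc ‖Dk L y‖ ^ 2 * Real.sin (Real.pi * y) ^ 2 =
      (‖Dk L y‖ * |Real.sin (Real.pi * y)|) ^ 2 := by rw [mul_pow, sq_abs]
    _ ≤ 1 := by nlinarith

lemma Dk_two (L : ℕ) : ∫ y in (0 : ℝ)..1, ‖Dk L y‖ ^ 2 = L := by
  have h := parseval L (fun _ => 1)
  simp only [one_mul] at h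
  unfold Dk
  rw [h]
  simp

/-- the polynomial `1 + z + … + z ^ (L - 1)` -/
noncomputable def PD (L : ℕ) : Polynomial ℂ := ∑ k ∈ range L, Polynomial.X ^ k

lemma PD_eval (L : ℕ) (y : ℝ) : (PD L).eval (ex y) = Dk L y := by
  unfold PD Dk
  rw [Polynomial.eval_finsetSum]
  apply Finset.sum_congr rfl
  intro k _
  rw [Polynomial.eval_pow, Polynomial.eval_X, ex_nat]

lemma PD_deg (L : ℕ) (hL : 1 ≤ L) : (PD L).natDegree ≤ L - 1 := by
  unfold PD
  apply Polynomial.natDegree_sum_le_of_forall_le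
  intro k hk
  rw [Polynomial.natDegree_X_pow]
  have := Finset.mem_range.mp hk
  omega

lemma Dk_four (L : ℕ) (hL : 1 ≤ L) : (L : ℝ) ^ 3 / 2 ≤ ∫ y in (0 : ℝ)..1, ‖Dk L y‖ ^ 4 := by
  set Q : Polynomial ℂ := PD L ^ 2 with hQ
  have hdeg : Q.natDegree < 2 * L := by
    have h1 : Q.natDegree ≤ 2 * (PD L).natDegree := Polynomial.natDegree_pow_le
    have h2 := PD_deg L hL
    omega
  have hev : ∀ y : ℝ, (Dk L y) ^ 2 = ∑ k ∈ range (2 * L), Q.coeff k * ex (k * y) := by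
    intro y
    rw [← PD_eval, ← Polynomial.eval_pow, ← hQ, Polynomial.eval_eq_sum_range' hdeg]
    apply Finset.sum_congr rfl
    intro k _
    rw [ex_nat]
  have h1 := parseval (2 * L) Q.coeff
  have h2 : ∫ y in (0 : ℝ)..1, ‖Dk L y‖ ^ 4 = ∑ k ∈ range (2 * L), ‖Q.coeff k‖ ^ 2 := by
    rw [← h1]
    apply intervalIntegral.integral_congr
    intro y _
    simp only
    rw [← hev, norm_pow]
    ring
  rw [h2]
  have h3 : (Dk L 0) ^ 2 = ∑ k ∈ range (2 * L), Q.coeff k := by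
    rw [hev]
    simp [ex_zero]
  have h4 : Dk L 0 = L := by
    unfold Dk
    simp [ex_zero]
  have h5 : (L : ℝ) ^ 2 ≤ ∑ k ∈ range (2 * L), ‖Q.coeff k‖ := by
    calc (L : ℝ) ^ 2 = ‖(Dk L 0) ^ 2‖ := by rw [h4]; simp
      _ = ‖∑ k ∈ range (2 * L), Q.coeff k‖ := by rw [h3]
      _ ≤ _ := norm_sum_le _ _
  have h6 : (∑ k ∈ range (2 * L), ‖Q.coeff k‖) ^ 2 ≤
      ((2 * L : ℕ) : ℝ) * ∑ k ∈ range (2 * L), ‖Q.coeff k‖ ^ 2 := by
    have := sq_sum_le_card_mul_sum_sq (s := range (2 * L)) (f := fun k => ‖Q.coeff k‖)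
    simpa using this
  have hL0 : (0 : ℝ) < L := by exact_mod_cast hL
  have h7 : ((L : ℝ) ^ 2) ^ 2 ≤ (∑ k ∈ range (2 * L), ‖Q.coeff k‖) ^ 2 := by
    gcongr
  push_cast at h6
  have h8 : (L : ℝ) ^ 4 ≤ 2 * L * ∑ k ∈ range (2 * L), ‖Q.coeff k‖ ^ 2 := by nlinarith
  have h9 : (2 * (L : ℝ)) * ((L : ℝ) ^ 3 / 2) ≤
      (2 * (L : ℝ)) * ∑ k ∈ range (2 * L), ‖Q.coeff k‖ ^ 2 := by
    calc (2 * (L : ℝ)) * ((L : ℝ) ^ 3 / 2) = (L : ℝ) ^ 4 := by ring
      _ ≤ _ := h8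
  exact le_of_mul_le_mul_left h9 (by positivity)

lemma Dk_four_le (L : ℕ) : ∫ y in (0 : ℝ)..1, ‖Dk L y‖ ^ 4 ≤ (L : ℝ) ^ 3 := by
  have h1 : ∫ y in (0 : ℝ)..1, ‖Dk L y‖ ^ 4 ≤ ∫ y in (0 : ℝ)..1, (L : ℝ) ^ 2 * ‖Dk L y‖ ^ 2 := by
    apply intervalIntegral.integral_mono_on (by norm_num)
    · apply Continuous.intervalIntegrable
      have := Dk_cont L
      fun_prop
    · apply Continuous.intervalIntegrable
      have := Dk_cont L
      fun_prop
    · intro y _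
      have h2 := Dk_norm_le L y
      have h3 : ‖Dk L y‖ ^ 2 ≤ (L : ℝ) ^ 2 := by gcongr
      have h4 : 0 ≤ ‖Dk L y‖ ^ 2 := by positivity
      nlinarith
  rw [intervalIntegral.integral_const_mul, Dk_two] at h1
  calc _ ≤ _ := h1
    _ = _ := by ring

/-- the minorant -/
noncomputable def mk (L : ℕ) (y : ℝ) : ℝ :=
  ‖Dk L y‖ ^ 4 * (Real.cos (2 * Real.pi * y) - Real.cos (2 * Real.pi / L))

lemma cos_diff (L : ℕ) (y : ℝ) :
    Real.cos (2 * Real.pi * y) - Real.cos (2 * Real.pi / L) =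
      2 * Real.sin (Real.pi / L) ^ 2 - 2 * Real.sin (Real.pi * y) ^ 2 := by
  have h1 : Real.cos (2 * Real.pi * y) = 1 - 2 * Real.sin (Real.pi * y) ^ 2 := by
    rw [show 2 * Real.pi * y = 2 * (Real.pi * y) by ring, Real.cos_two_mul, Real.cos_sq']
    ring
  have h2 : Real.cos (2 * Real.pi / L) = 1 - 2 * Real.sin (Real.pi / L) ^ 2 := by
    rw [show 2 * Real.pi / L = 2 * (Real.pi / L) by ring, Real.cos_two_mul, Real.cos_sq']
    ring
  rw [h1, h2]
  ring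

lemma mk_cont (L : ℕ) : Continuous (mk L) := by
  unfold mk
  have := Dk_cont L
  fun_prop

lemma sin_le (L : ℕ) (hL : 1 ≤ L) : Real.sin (Real.pi / L) ^ 2 ≤ 10 / (L : ℝ) ^ 2 := by
  have hL0 : (0 : ℝ) < L := by exact_mod_cast hL
  have h1 : |Real.sin (Real.pi / L)| ≤ |Real.pi / L| := Real.abs_sin_le_abs
  have h2 : Real.sin (Real.pi / L) ^ 2 ≤ (Real.pi / L) ^ 2 := sq_le_sq.mpr h1
  have h3 : Real.pi ^ 2 ≤ 10 := by
    have := Real.pi_lt_d2
    have := Real.pi_pos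
    nlinarith
  calc _ ≤ _ := h2
    _ = Real.pi ^ 2 / (L : ℝ) ^ 2 := by rw [div_pow]
    _ ≤ _ := by gcongr

lemma le_sin (L : ℕ) (hL : 2 ≤ L) : 4 / (L : ℝ) ^ 2 ≤ Real.sin (Real.pi / L) ^ 2 := by
  have hL0 : (2 : ℝ) ≤ L := by exact_mod_cast hL
  have h1 : 2 / Real.pi * (Real.pi / L) ≤ Real.sin (Real.pi / L) := by
    apply Real.mul_le_sin
    · positivity
    · have := Real.pi_pos
      rw [div_le_div_iff₀ (by positivity) (by norm_num)]
      nlinarith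
  have h2 : 2 / Real.pi * (Real.pi / L) = 2 / L := by
    have := Real.pi_ne_zero
    field_simp
  rw [h2] at h1
  have h3 : (0 : ℝ) ≤ 2 / L := by positivity
  calc 4 / (L : ℝ) ^ 2 = (2 / (L : ℝ)) ^ 2 := by rw [div_pow]; norm_num
    _ ≤ _ := by gcongr

lemma mk_le (L : ℕ) (hL : 1 ≤ L) (y : ℝ) : mk L y ≤ 20 * (L : ℝ) ^ 2 := by
  have hL0 : (0 : ℝ) < L := by exact_mod_cast hL
  unfold mk
  rw [cos_diff]
  have h1 := sin_le L hL
  have h2 : ‖Dk L y‖ ^ 4 ≤ (L : ℝ) ^ 4 := by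
    have := Dk_norm_le L y
    gcongr
  have h3 : 2 * Real.sin (Real.pi / L) ^ 2 - 2 * Real.sin (Real.pi * y) ^ 2 ≤
      20 / (L : ℝ) ^ 2 := by
    have h4 : 0 ≤ Real.sin (Real.pi * y) ^ 2 := by positivity
    have h5 : 20 / (L : ℝ) ^ 2 = 2 * (10 / (L : ℝ) ^ 2) := by ring
    rw [h5]
    linarith
  calc _ ≤ ‖Dk L y‖ ^ 4 * (20 / (L : ℝ) ^ 2) := by gcongr
    _ ≤ (L : ℝ) ^ 4 * (20 / (L : ℝ) ^ 2) := by gcongr
    _ = 20 * (L : ℝ) ^ 2 := by field_simp

lemma abs_mk_le (L : ℕ) (hL : 1 ≤ L) (y : ℝ) :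
    |mk L y| ≤ 20 / (L : ℝ) ^ 2 * ‖Dk L y‖ ^ 4 + 2 * ‖Dk L y‖ ^ 2 := by
  unfold mk
  rw [cos_diff, abs_mul, abs_of_nonneg (by positivity : (0 : ℝ) ≤ ‖Dk L y‖ ^ 4)]
  have h1 := sin_le L hL
  have h2 := Dk_sin L y
  have h3 : |2 * Real.sin (Real.pi / L) ^ 2 - 2 * Real.sin (Real.pi * y) ^ 2| ≤
      2 * Real.sin (Real.pi / L) ^ 2 + 2 * Real.sin (Real.pi * y) ^ 2 := by
    rw [abs_le]
    have h4 : 0 ≤ Real.sin (Real.pi * y) ^ 2 := by positivity
    have h5 : 0 ≤ Real.sin (Real.pi / L) ^ 2 := by positivity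
    constructor <;> linarith
  calc ‖Dk L y‖ ^ 4 * |2 * Real.sin (Real.pi / L) ^ 2 - 2 * Real.sin (Real.pi * y) ^ 2|
      ≤ ‖Dk L y‖ ^ 4 * (2 * (10 / (L : ℝ) ^ 2) + 2 * Real.sin (Real.pi * y) ^ 2) := by
        gcongr
        linarith
    _ = 20 / (L : ℝ) ^ 2 * ‖Dk L y‖ ^ 4 +
        2 * ‖Dk L y‖ ^ 2 * (‖Dk L y‖ ^ 2 * Real.sin (Real.pi * y) ^ 2) := by ring
    _ ≤ 20 / (L : ℝ) ^ 2 * ‖Dk L y‖ ^ 4 + 2 * ‖Dk L y‖ ^ 2 * 1 := by gcongr
    _ = _ := by ring

lemma int_abs_mk (L : ℕ) (hL : 1 ≤ L) : ∫ y in (0 : ℝ)..1, |mk L y| ≤ 22 * L := by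
  have hL0 : (0 : ℝ) < L := by exact_mod_cast hL
  have hc := Dk_cont L
  have h1 : ∫ y in (0 : ℝ)..1, |mk L y| ≤
      ∫ y in (0 : ℝ)..1, (20 / (L : ℝ) ^ 2 * ‖Dk L y‖ ^ 4 + 2 * ‖Dk L y‖ ^ 2) := by
    apply intervalIntegral.integral_mono_on (by norm_num)
    · apply Continuous.intervalIntegrable
      have := mk_cont L
      fun_prop
    · apply Continuous.intervalIntegrable
      fun_prop
    · intro y _
      exact abs_mk_le L hL y
  rw [intervalIntegral.integral_add, intervalIntegral.integral_const_mul,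
    intervalIntegral.integral_const_mul, Dk_two] at h1
  · have h2 := Dk_four_le L
    calc _ ≤ _ := h1
      _ ≤ 20 / (L : ℝ) ^ 2 * (L : ℝ) ^ 3 + 2 * L := by gcongr
      _ = 22 * L := by field_simp; ring
  · apply Continuous.intervalIntegrable
    fun_prop
  · apply Continuous.intervalIntegrable
    fun_prop

lemma int_mk (L : ℕ) (hL : 2 ≤ L) : 2 * (L : ℝ) ≤ ∫ y in (0 : ℝ)..1, mk L y := by
  have hL0 : (0 : ℝ) < L := by
    have : 0 < L := by omega
    exact_mod_cast this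
  have hc := Dk_cont L
  have h1 : ∫ y in (0 : ℝ)..1, (2 * Real.sin (Real.pi / L) ^ 2 * ‖Dk L y‖ ^ 4 - 2 * ‖Dk L y‖ ^ 2) ≤
      ∫ y in (0 : ℝ)..1, mk L y := by
    apply intervalIntegral.integral_mono_on (by norm_num)
    · apply Continuous.intervalIntegrable
      fun_prop
    · apply Continuous.intervalIntegrable
      have := mk_cont L
      fun_prop
    · intro y _
      unfold mk
      rw [cos_diff]
      have h2 := Dk_sin L y
      have h3 : 0 ≤ ‖Dk L y‖ ^ 2 := by positivity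
      have h4 : ‖Dk L y‖ ^ 2 * (‖Dk L y‖ ^ 2 * Real.sin (Real.pi * y) ^ 2) ≤
          ‖Dk L y‖ ^ 2 * 1 := by gcongr
      nlinarith
  rw [intervalIntegral.integral_sub, intervalIntegral.integral_const_mul,
    intervalIntegral.integral_const_mul, Dk_two] at h1
  · have h2 := Dk_four L (by omega)
    have h3 := le_sin L hL
    refine le_trans ?_ h1
    have h4 : 2 * (4 / (L : ℝ) ^ 2) * ((L : ℝ) ^ 3 / 2) ≤
        2 * Real.sin (Real.pi / L) ^ 2 * ∫ y in (0 : ℝ)..1, ‖Dk L y‖ ^ 4 := by gcongr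
    have h5 : 2 * (4 / (L : ℝ) ^ 2) * ((L : ℝ) ^ 3 / 2) = 4 * L := by field_simp
    linarith
  · apply Continuous.intervalIntegrable
    fun_prop
  · apply Continuous.intervalIntegrable
    fun_prop

lemma mk_nonpos (L : ℕ) (hL : 2 ≤ L) (y : ℝ) (hy : ∀ k : ℤ, 1 / (L : ℝ) ≤ |y - k|) :
    mk L y ≤ 0 := by
  have hL0 : (2 : ℝ) ≤ L := by exact_mod_cast hL
  unfold mk
  rw [cos_diff]
  have h1 := hy (round y)
  have h2 : |y - round y| ≤ 1 / 2 := abs_sub_round y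
  set r : ℝ := y - round y with hr
  have h3 : Real.sin (Real.pi * y) ^ 2 = Real.sin (Real.pi * |r|) ^ 2 := by
    have h4 : y = r + (round y : ℤ) := by rw [hr]; ring
    have h5 : Real.sin (Real.pi * y) ^ 2 = Real.sin (Real.pi * r) ^ 2 := by
      rw [h4]
      rw [show Real.pi * (r + ((round y : ℤ) : ℝ)) = Real.pi * r + (round y : ℤ) * Real.pi by ring]
      rw [Real.sin_add_int_mul_pi, mul_pow]
      have h6 : ((-1 : ℝ) ^ (round y)) ^ 2 = 1 := by
        rw [← zpow_natCast, ← zpow_mul]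
        exact Even.neg_one_zpow ⟨round y, by push_cast; ring⟩
      rw [h6, one_mul]
    rw [h5]
    rcases abs_cases r with ⟨h7, _⟩ | ⟨h7, _⟩
    · rw [h7]
    · rw [h7, mul_neg, Real.sin_neg, neg_sq]
  have h4 : Real.sin (Real.pi / L) ≤ Real.sin (Real.pi * |r|) := by
    have hpi := Real.pi_pos
    apply Real.sin_le_sin_of_le_of_le_pi_div_two
    · have : 0 ≤ Real.pi / L := by positivity
      linarith
    · nlinarith
    · calc Real.pi / L = Real.pi * (1 / L) := by ring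
        _ ≤ _ := by gcongr
  have h5 : 0 ≤ Real.sin (Real.pi / L) := by
    apply Real.sin_nonneg_of_nonneg_of_le_pi
    · positivity
    · have hpi := Real.pi_pos
      rw [div_le_iff₀ (by positivity)]
      nlinarith
  have h6 : Real.sin (Real.pi / L) ^ 2 ≤ Real.sin (Real.pi * |r|) ^ 2 := by gcongr
  rw [h3]
  have h7 : 0 ≤ ‖Dk L y‖ ^ 4 := by positivity
  nlinarith

/-- the Fourier expansion of the minorant -/
lemma mk_fourier (L : ℕ) (hL : 2 ≤ L) : ∃ c : ℕ → ℂ,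
    (∀ y : ℝ, (mk L y : ℂ) = ∑ k ∈ range (4 * L), c k * ex (((k : ℤ) - (2 * L - 1 : ℤ) : ℤ) * y)) ∧
    (∀ k, k < 4 * L → ‖c k‖ ≤ 22 * L) ∧ (c (2 * L - 1) = ((∫ y in (0 : ℝ)..1, mk L y : ℝ) : ℂ)) := by
  set θ : ℝ := 2 * Real.pi / L with hθ
  set Q : Polynomial ℂ := PD L ^ 4 *
    (Polynomial.C (1 / 2) * (Polynomial.X ^ 2 + 1) - Polynomial.C (Real.cos θ : ℂ) * Polynomial.X)
    with hQ
  have hdeg : Q.natDegree < 4 * L := by
    have h1 : (PD L ^ 4).natDegree ≤ 4 * (PD L).natDegree := Polynomial.natDegree_pow_le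
    have h2 := PD_deg L (by omega)
    have h3 : (Polynomial.C (1 / 2 : ℂ) * (Polynomial.X ^ 2 + 1) -
        Polynomial.C (Real.cos θ : ℂ) * Polynomial.X).natDegree ≤ 2 := by
      compute_degree
    have h4 : Q.natDegree ≤ (PD L ^ 4).natDegree + (Polynomial.C (1 / 2 : ℂ) *
        (Polynomial.X ^ 2 + 1) - Polynomial.C (Real.cos θ : ℂ) * Polynomial.X).natDegree :=
      Polynomial.natDegree_mul_le
    omega
  have hexp : ∀ y : ℝ, (mk L y : ℂ) =
      ∑ k ∈ range (4 * L), Q.coeff k * ex (((k : ℤ) - (2 * L - 1 : ℤ) : ℤ) * y) := by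
    intro y
    have h1 : ∑ k ∈ range (4 * L), Q.coeff k * ex (((k : ℤ) - (2 * L - 1 : ℤ) : ℤ) * y) =
        Q.eval (ex y) * ex (-((2 * L - 1) * y)) := by
      rw [Polynomial.eval_eq_sum_range' hdeg, Finset.sum_mul]
      apply Finset.sum_congr rfl
      intro k _
      rw [← ex_nat, mul_assoc, ← ex_add]
      congr 2
      push_cast
      ring
    have h2 : (starRingEnd ℂ) (Dk L y) = ex (-((L - 1) * y)) * Dk L y := by
      unfold Dk
      rw [map_sum, Finset.mul_sum, ← Finset.sum_range_reflect]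
      apply Finset.sum_congr rfl
      intro k hk
      have hk' := Finset.mem_range.mp hk
      rw [ex_conj, ← ex_add]
      congr 1
      rw [Nat.cast_sub (by omega), Nat.cast_sub (by omega)]
      push_cast
      ring
    have h3 : ((‖Dk L y‖ ^ 4 : ℝ) : ℂ) = ex (-(2 * (L - 1) * y)) * (Dk L y) ^ 4 := by
      have h4 : ((‖Dk L y‖ ^ 2 : ℝ) : ℂ) = ex (-((L - 1) * y)) * (Dk L y) ^ 2 := by
        have h5 : ((‖Dk L y‖ ^ 2 : ℝ) : ℂ) = Dk L y * (starRingEnd ℂ) (Dk L y) := by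
          rw [Complex.mul_conj, Complex.normSq_eq_norm_sq]
        rw [h5, h2]
        ring
      calc ((‖Dk L y‖ ^ 4 : ℝ) : ℂ) = ((‖Dk L y‖ ^ 2 : ℝ) : ℂ) ^ 2 := by push_cast; ring
        _ = (ex (-((L - 1) * y)) * ex (-((L - 1) * y))) * (Dk L y) ^ 4 := by rw [h4]; ring
        _ = _ := by
            rw [← ex_add]
            congr 2
            ring
    have h4 : ((Real.cos (2 * Real.pi * y) : ℝ) : ℂ) = (ex y + ex (-y)) / 2 := by
      unfold ex
      rw [Complex.ofReal_cos, Complex.cos]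
      push_cast
      congr 3
      ring_nf
    have h5 : ex (-((2 * L - 1) * y)) = ex (-(2 * (L - 1) * y)) * ex (-y) := by
      rw [← ex_add]
      congr 1
      ring
    have h6 : ex y * ex (-y) = 1 := by
      rw [← ex_add]
      simp [ex_zero]
    rw [h1, hQ, Polynomial.eval_mul, Polynomial.eval_pow, PD_eval, h5]
    unfold mk
    rw [Complex.ofReal_mul, h3, Complex.ofReal_sub, h4, ← hθ]
    simp only [Polynomial.eval_sub, Polynomial.eval_mul, Polynomial.eval_C, Polynomial.eval_add,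
      Polynomial.eval_pow, Polynomial.eval_X, Polynomial.eval_one]
    linear_combination (-(ex (-(2 * (L - 1) * y)) * Dk L y ^ 4 * (ex y / 2 - (Real.cos θ : ℂ)))) * h6
  refine ⟨Q.coeff, hexp, ?_, ?_⟩
  · intro k hk
    have h1 := coeff_int (4 * L) (2 * L - 1 : ℤ) Q.coeff k hk
    rw [← h1]
    have h2 : ∀ y : ℝ, (∑ k ∈ range (4 * L), Q.coeff k * ex (((k : ℤ) - (2 * L - 1 : ℤ) : ℤ) * y)) *
        ex (-((((k : ℤ) - (2 * L - 1 : ℤ) : ℤ) : ℝ) * y)) =
        (mk L y : ℂ) * ex (-((((k : ℤ) - (2 * L - 1 : ℤ) : ℤ) : ℝ) * y)) := by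
      intro y
      rw [hexp y]
    simp_rw [h2]
    calc _ ≤ ∫ y in (0 : ℝ)..1,
          ‖(mk L y : ℂ) * ex (-((((k : ℤ) - (2 * L - 1 : ℤ) : ℤ) : ℝ) * y))‖ :=
          intervalIntegral.norm_integral_le_integral_norm (by norm_num)
      _ = ∫ y in (0 : ℝ)..1, |mk L y| := by
          apply intervalIntegral.integral_congr
          intro y _
          simp only
          rw [norm_mul, ex_norm, mul_one, Complex.norm_real, Real.norm_eq_abs]
      _ ≤ _ := int_abs_mk L (by omega)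
  · have h1 := coeff_int (4 * L) (2 * L - 1 : ℤ) Q.coeff (2 * L - 1) (by omega)
    rw [← h1, ← intervalIntegral.integral_ofReal]
    apply intervalIntegral.integral_congr
    intro y _
    simp only
    rw [← hexp y]
    have h2 : (((2 * L - 1 : ℕ) : ℤ) - (2 * L - 1 : ℤ) : ℤ) = 0 := by omega
    rw [h2]
    simp [ex_zero]

end Pool.Agent.Q148.CN
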