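import Pool.Agent.Q148.CN.Ker

set_option autoImplicit false

/-! # First derivative test for oscillatory integrals -/

namespace Pool.Agent.Q148.CN

open Finset MeasureTheory Set

lemma ex_hasDeriv (x : ℝ) : HasDerivAt ex (2 * Real.pi * Complex.I * ex x) x := by
  unfold ex
  have h1 : HasDerivAt (fun x : ℝ => (2 * Real.pi * x * Complex.I : ℂ))
      (2 * Real.pi * Complex.I) x := by
    have h2 : HasDerivAt (fun x : ℝ => (x : ℂ)) 1 x := Complex.ofRealCLM.hasDerivAt
    have h3 := (h2.const_mul (2 * Real.pi : ℂ)).mul_const Complex.I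
    simpa using h3
  have h4 := h1.cexp
  convert h4 using 1
  ring

lemma osc (P P' P'' : ℝ → ℝ) (a b l μ : ℝ) (hab : a ≤ b) (hl : 0 < l)
    (h1 : ∀ x ∈ Icc a b, HasDerivAt P (P' x) x) (h2 : ∀ x ∈ Icc a b, HasDerivAt P' (P'' x) x)
    (h3 : ContinuousOn P'' (Icc a b)) (h4 : ∀ x ∈ Icc a b, l ≤ |P' x|)
    (h5 : ∀ x ∈ Icc a b, |P'' x| ≤ μ) :
    ‖∫ x in a..b, ex (P x)‖ ≤ 1 / (Real.pi * l) + μ * (b - a) / (2 * Real.pi * l ^ 2) := by
  have hpi := Real.pi_pos
  have hpc : (Real.pi : ℂ) ≠ 0 := by exact_mod_cast Real.pi_ne_zero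
  have hP'0 : ∀ x ∈ Icc a b, (P' x : ℂ) ≠ 0 := by
    intro x hx h
    have h6 := h4 x hx
    have h7 : P' x = 0 := by exact_mod_cast h
    rw [h7, abs_zero] at h6
    linarith
  set F : ℝ → ℂ := fun x => ex (P x) / (2 * Real.pi * Complex.I * P' x) with hF
  set G : ℝ → ℂ := fun x => ex (P x) * P'' x / (2 * Real.pi * Complex.I * (P' x) ^ 2) with hG
  have hder : ∀ x ∈ Icc a b, HasDerivAt F (ex (P x) - G x) x := by
    intro x hx
    have h6 : HasDerivAt (fun x => ex (P x)) ((P' x : ℝ) • (2 * Real.pi * Complex.I * ex (P x))) x :=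
      (ex_hasDeriv (P x)).scomp x (h1 x hx)
    have h7 : HasDerivAt (fun x => (2 * Real.pi * Complex.I * P' x : ℂ))
        (2 * Real.pi * Complex.I * P'' x) x := (h2 x hx).ofReal_comp.const_mul _
    have h8 : (2 * Real.pi * Complex.I * P' x : ℂ) ≠ 0 := by
      have := hP'0 x hx
      simp [hpc, this]
    have h9 := h6.div h7 h8
    refine HasDerivAt.congr_deriv h9 ?_
    have := hP'0 x hx
    simp only [Complex.real_smul, hG]
    field_simp
  have hPc : ContinuousOn P (Icc a b) := fun x hx => (h1 x hx).continuousAt.continuousWithinAt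
  have hP'c : ContinuousOn P' (Icc a b) := fun x hx => (h2 x hx).continuousAt.continuousWithinAt
  have hexc : ContinuousOn (fun x => ex (P x)) (Icc a b) := ex_cont.comp_continuousOn hPc
  have hGc : ContinuousOn G (Icc a b) := by
    apply ContinuousOn.div
    · exact hexc.mul (Complex.continuous_ofReal.comp_continuousOn h3)
    · exact continuousOn_const.mul ((Complex.continuous_ofReal.comp_continuousOn hP'c).pow 2)
    · intro x hx
      have := hP'0 x hx
      simp [hpc, this]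
  have huI : uIcc a b = Icc a b := uIcc_of_le hab
  have hi1 : IntervalIntegrable (fun x => ex (P x)) volume a b :=
    ContinuousOn.intervalIntegrable (by rw [huI]; exact hexc)
  have hi2 : IntervalIntegrable G volume a b :=
    ContinuousOn.intervalIntegrable (by rw [huI]; exact hGc)
  have hftc : ∫ x in a..b, (ex (P x) - G x) = F b - F a :=
    intervalIntegral.integral_eq_sub_of_hasDerivAt (by rw [huI]; exact hder) (hi1.sub hi2)
  rw [intervalIntegral.integral_sub hi1 hi2] at hftc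
  have heq : ∫ x in a..b, ex (P x) = F b - F a + ∫ x in a..b, G x := by
    rw [← hftc]
    ring
  have hnI : ‖(2 * Real.pi * Complex.I : ℂ)‖ = 2 * Real.pi := by
    rw [norm_mul, norm_mul, Complex.norm_I, Complex.norm_real, Real.norm_eq_abs, abs_of_pos hpi]
    simp
  have hFn : ∀ x ∈ Icc a b, ‖F x‖ ≤ 1 / (2 * Real.pi * l) := by
    intro x hx
    rw [hF]
    simp only
    rw [norm_div, norm_mul, hnI, ex_norm, Complex.norm_real, Real.norm_eq_abs]
    have := h4 x hx
    gcongr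
  have hGn : ∀ x ∈ Icc a b, ‖G x‖ ≤ μ / (2 * Real.pi * l ^ 2) := by
    intro x hx
    rw [hG]
    simp only
    rw [norm_div, norm_mul, norm_mul, hnI, ex_norm, norm_pow, Complex.norm_real, Complex.norm_real,
      Real.norm_eq_abs, Real.norm_eq_abs, one_mul]
    have h6 := h4 x hx
    have h7 := h5 x hx
    have h8 : 0 ≤ μ := (abs_nonneg _).trans h7
    gcongr
  rw [heq]
  have h6 : ‖∫ x in a..b, G x‖ ≤ μ / (2 * Real.pi * l ^ 2) * |b - a| := by
    apply intervalIntegral.norm_integral_le_of_norm_le_const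
    intro x hx
    rw [uIoc_of_le hab] at hx
    exact hGn x ⟨hx.1.le, hx.2⟩
  rw [abs_of_nonneg (by linarith : 0 ≤ b - a)] at h6
  have h7 := hFn a ⟨le_refl _, hab⟩
  have h8 := hFn b ⟨hab, le_refl _⟩
  calc ‖F b - F a + ∫ x in a..b, G x‖ ≤ ‖F b‖ + ‖F a‖ + ‖∫ x in a..b, G x‖ :=
        (norm_add_le _ _).trans (by gcongr; exact norm_sub_le _ _)
    _ ≤ 1 / (2 * Real.pi * l) + 1 / (2 * Real.pi * l) + μ / (2 * Real.pi * l ^ 2) * (b - a) := by
        gcongr
    _ = _ := by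
        field_simp
        ring

/-- first derivative test with monotone derivative -/
lemma osc_mono (P P' P'' : ℝ → ℝ) (a b l : ℝ) (hab : a ≤ b) (hl : 0 < l)
    (h1 : ∀ x ∈ Icc a b, HasDerivAt P (P' x) x) (h2 : ∀ x ∈ Icc a b, HasDerivAt P' (P'' x) x)
    (h3 : ContinuousOn P'' (Icc a b)) (h4 : ∀ x ∈ Icc a b, l ≤ |P' x|)
    (h5 : ∀ x ∈ Icc a b, 0 ≤ P'' x) :
    ‖∫ x in a..b, ex (P x)‖ ≤ 2 / (Real.pi * l) := by
  have hpi := Real.pi_pos
  have hpc : (Real.pi : ℂ) ≠ 0 := by exact_mod_cast Real.pi_ne_zero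
  have hP'r : ∀ x ∈ Icc a b, P' x ≠ 0 := by
    intro x hx h7
    have h6 := h4 x hx
    rw [h7, abs_zero] at h6
    linarith
  have hP'0 : ∀ x ∈ Icc a b, (P' x : ℂ) ≠ 0 := by
    intro x hx h
    exact hP'r x hx (by exact_mod_cast h)
  set F : ℝ → ℂ := fun x => ex (P x) / (2 * Real.pi * Complex.I * P' x) with hF
  set G : ℝ → ℂ := fun x => ex (P x) * P'' x / (2 * Real.pi * Complex.I * (P' x) ^ 2) with hG
  have hder : ∀ x ∈ Icc a b, HasDerivAt F (ex (P x) - G x) x := by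
    intro x hx
    have h6 : HasDerivAt (fun x => ex (P x)) ((P' x : ℝ) • (2 * Real.pi * Complex.I * ex (P x))) x :=
      (ex_hasDeriv (P x)).scomp x (h1 x hx)
    have h7 : HasDerivAt (fun x => (2 * Real.pi * Complex.I * P' x : ℂ))
        (2 * Real.pi * Complex.I * P'' x) x := (h2 x hx).ofReal_comp.const_mul _
    have h8 : (2 * Real.pi * Complex.I * P' x : ℂ) ≠ 0 := by
      have := hP'0 x hx
      simp [hpc, this]
    have h9 := h6.div h7 h8
    refine HasDerivAt.congr_deriv h9 ?_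
    have := hP'0 x hx
    simp only [Complex.real_smul, hG]
    field_simp
  have hPc : ContinuousOn P (Icc a b) := fun x hx => (h1 x hx).continuousAt.continuousWithinAt
  have hP'c : ContinuousOn P' (Icc a b) := fun x hx => (h2 x hx).continuousAt.continuousWithinAt
  have hexc : ContinuousOn (fun x => ex (P x)) (Icc a b) := ex_cont.comp_continuousOn hPc
  have hGc : ContinuousOn G (Icc a b) := by
    apply ContinuousOn.div
    · exact hexc.mul (Complex.continuous_ofReal.comp_continuousOn h3)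
    · exact continuousOn_const.mul ((Complex.continuous_ofReal.comp_continuousOn hP'c).pow 2)
    · intro x hx
      have := hP'0 x hx
      simp [hpc, this]
  have huI : uIcc a b = Icc a b := uIcc_of_le hab
  have hi1 : IntervalIntegrable (fun x => ex (P x)) volume a b :=
    ContinuousOn.intervalIntegrable (by rw [huI]; exact hexc)
  have hi2 : IntervalIntegrable G volume a b :=
    ContinuousOn.intervalIntegrable (by rw [huI]; exact hGc)
  have hftc : ∫ x in a..b, (ex (P x) - G x) = F b - F a :=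
    intervalIntegral.integral_eq_sub_of_hasDerivAt (by rw [huI]; exact hder) (hi1.sub hi2)
  rw [intervalIntegral.integral_sub hi1 hi2] at hftc
  have heq : ∫ x in a..b, ex (P x) = F b - F a + ∫ x in a..b, G x := by
    rw [← hftc]
    ring
  have hnI : ‖(2 * Real.pi * Complex.I : ℂ)‖ = 2 * Real.pi := by
    rw [norm_mul, norm_mul, Complex.norm_I, Complex.norm_real, Real.norm_eq_abs, abs_of_pos hpi]
    simp
  have hFn : ∀ x ∈ Icc a b, ‖F x‖ ≤ 1 / (2 * Real.pi * l) := by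
    intro x hx
    rw [hF]
    simp only
    rw [norm_div, norm_mul, hnI, ex_norm, Complex.norm_real, Real.norm_eq_abs]
    have := h4 x hx
    gcongr
  -- the integral of `P'' / P' ^ 2`
  set R : ℝ → ℝ := fun x => -(P' x)⁻¹ / (2 * Real.pi) with hR
  set Q : ℝ → ℝ := fun x => P'' x / (2 * Real.pi * (P' x) ^ 2) with hQ
  have hRd : ∀ x ∈ Icc a b, HasDerivAt R (Q x) x := by
    intro x hx
    have h6 := ((h2 x hx).inv (hP'r x hx)).neg.div_const (2 * Real.pi)
    refine HasDerivAt.congr_deriv h6 ?_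
    have := hP'r x hx
    rw [hQ]
    simp only
    field_simp
  have hQc : ContinuousOn Q (Icc a b) := by
    apply ContinuousOn.div h3
    · exact continuousOn_const.mul (hP'c.pow 2)
    · intro x hx
      have := hP'r x hx
      positivity
  have hQi : IntervalIntegrable Q volume a b :=
    ContinuousOn.intervalIntegrable (by rw [huI]; exact hQc)
  have hQint : ∫ x in a..b, Q x = R b - R a :=
    intervalIntegral.integral_eq_sub_of_hasDerivAt (by rw [huI]; exact hRd) hQi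
  have hRn : ∀ x ∈ Icc a b, |R x| ≤ 1 / (2 * Real.pi * l) := by
    intro x hx
    rw [hR]
    simp only
    rw [abs_div, abs_neg, abs_inv, abs_of_pos (by positivity : 0 < 2 * Real.pi), inv_eq_one_div,
      div_div]
    have := h4 x hx
    rw [mul_comm]
    gcongr
  have hGn : ‖∫ x in a..b, G x‖ ≤ ∫ x in a..b, Q x := by
    refine (intervalIntegral.norm_integral_le_integral_norm hab).trans ?_
    apply intervalIntegral.integral_mono_on hab hi2.norm hQi
    intro x hx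
    rw [hG, hQ]
    simp only
    rw [norm_div, norm_mul, norm_mul, hnI, ex_norm, norm_pow, Complex.norm_real, Complex.norm_real,
      Real.norm_eq_abs, Real.norm_eq_abs, one_mul, abs_of_nonneg (h5 x hx), sq_abs]
  have h7 := hFn a ⟨le_refl _, hab⟩
  have h8 := hFn b ⟨hab, le_refl _⟩
  have h9 := hRn a ⟨le_refl _, hab⟩
  have h10 := hRn b ⟨hab, le_refl _⟩
  have h11 := neg_abs_le (R a)
  have h12 := le_abs_self (R b)
  rw [heq]
  calc ‖F b - F a + ∫ x in a..b, G x‖ ≤ ‖F b‖ + ‖F a‖ + ‖∫ x in a..b, G x‖ :=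
        (norm_add_le _ _).trans (by gcongr; exact norm_sub_le _ _)
    _ ≤ 1 / (2 * Real.pi * l) + 1 / (2 * Real.pi * l) + (R b - R a) := by
        rw [← hQint]
        gcongr
    _ ≤ 1 / (2 * Real.pi * l) + 1 / (2 * Real.pi * l) +
        (1 / (2 * Real.pi * l) + 1 / (2 * Real.pi * l)) := by
        gcongr
        linarith
    _ = _ := by
        field_simp
        norm_num

/-- monotonicity of `P'` quantified -/
lemma slope (P' P'' : ℝ → ℝ) (a b m : ℝ)
    (h2 : ∀ x ∈ Icc a b, HasDerivAt P' (P'' x) x) (h5 : ∀ x ∈ Icc a b, m ≤ P'' x)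
    (x y : ℝ) (hx : a ≤ x) (hxy : x ≤ y) (hy : y ≤ b) : P' x + m * (y - x) ≤ P' y := by
  have hmono : MonotoneOn (fun z => P' z - m * z) (Icc a b) := by
    apply monotoneOn_of_deriv_nonneg (convex_Icc a b)
    · intro z hz
      exact ((h2 z hz).sub ((hasDerivAt_id z).const_mul m)).continuousAt.continuousWithinAt
    · intro z hz
      have hz' := interior_subset hz
      exact ((h2 z hz').sub ((hasDerivAt_id z).const_mul m)).differentiableAt.differentiableWithinAt
    · intro z hz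
      have hz' := interior_subset hz
      have h6 := ((h2 z hz').sub ((hasDerivAt_id z).const_mul m)).deriv
      have h7 : deriv (fun z => P' z - m * z) z = P'' z - m * 1 := h6
      rw [h7]
      have := h5 z hz'
      linarith
  have h6 := hmono ⟨hx, hxy.trans hy⟩ ⟨hx.trans hxy, hy⟩ hxy
  simp only at h6
  linarith

lemma triv_int (P : ℝ → ℝ) (a b : ℝ) (hab : a ≤ b) : ‖∫ x in a..b, ex (P x)‖ ≤ b - a := by
  have h4 : ‖∫ x in a..b, ex (P x)‖ ≤ 1 * |b - a| := by
    apply intervalIntegral.norm_integral_le_of_norm_le_const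
    intro x _
    rw [ex_norm]
  rw [abs_of_nonneg (by linarith), one_mul] at h4
  exact h4

lemma half_right (P P' P'' : ℝ → ℝ) (a b m : ℝ) (hab : a ≤ b) (hm : 0 < m)
    (h1 : ∀ x ∈ Icc a b, HasDerivAt P (P' x) x) (h2 : ∀ x ∈ Icc a b, HasDerivAt P' (P'' x) x)
    (h3 : ContinuousOn P'' (Icc a b)) (h5 : ∀ x ∈ Icc a b, m ≤ P'' x) (h6 : 0 ≤ P' a) :
    ‖∫ x in a..b, ex (P x)‖ ≤ 2 / Real.sqrt m := by
  have hsm : 0 < Real.sqrt m := Real.sqrt_pos.mpr hm
  have hss : Real.sqrt m * Real.sqrt m = m := Real.mul_self_sqrt hm.le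
  have hpi := Real.pi_gt_three
  by_cases hc : b - a ≤ 1 / Real.sqrt m
  · refine (triv_int P a b hab).trans (hc.trans ?_)
    gcongr
    norm_num
  · push Not at hc
    set c : ℝ := a + 1 / Real.sqrt m with hcdef
    have hac : a ≤ c := by
      have : 0 < 1 / Real.sqrt m := by positivity
      linarith
    have hcb : c ≤ b := by linarith
    have hPc : ContinuousOn (fun x => ex (P x)) (Icc a b) :=
      ex_cont.comp_continuousOn (fun x hx => (h1 x hx).continuousAt.continuousWithinAt)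
    have hi1 : IntervalIntegrable (fun x => ex (P x)) volume a c := by
      apply ContinuousOn.intervalIntegrable
      rw [uIcc_of_le hac]
      exact hPc.mono (Icc_subset_Icc le_rfl hcb)
    have hi2 : IntervalIntegrable (fun x => ex (P x)) volume c b := by
      apply ContinuousOn.intervalIntegrable
      rw [uIcc_of_le hcb]
      exact hPc.mono (Icc_subset_Icc hac le_rfl)
    rw [← intervalIntegral.integral_add_adjacent_intervals hi1 hi2]
    have h7 := triv_int P a c hac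
    have hsub : ∀ x ∈ Icc c b, x ∈ Icc a b := fun x hx => ⟨hac.trans hx.1, hx.2⟩
    have h8 := osc_mono P P' P'' c b (Real.sqrt m) hcb hsm (fun x hx => h1 x (hsub x hx))
      (fun x hx => h2 x (hsub x hx)) (h3.mono (Icc_subset_Icc hac le_rfl)) ?_
      (fun x hx => hm.le.trans (h5 x (hsub x hx)))
    · have h9 : c - a = 1 / Real.sqrt m := by rw [hcdef]; ring
      have h10 : 2 / (Real.pi * Real.sqrt m) ≤ 2 / (3 * Real.sqrt m) := by gcongr
      have h11 : 2 / (3 * Real.sqrt m) = (2 / 3) * (1 / Real.sqrt m) := by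
        field_simp
      have h12 : 2 / Real.sqrt m = 2 * (1 / Real.sqrt m) := by ring
      have h13 : 0 < 1 / Real.sqrt m := by positivity
      calc _ ≤ ‖∫ x in a..c, ex (P x)‖ + ‖∫ x in c..b, ex (P x)‖ := norm_add_le _ _
        _ ≤ 1 / Real.sqrt m + (2 / 3) * (1 / Real.sqrt m) := by linarith
        _ ≤ _ := by rw [h12]; linarith
    · intro x hx
      have h9 := slope P' P'' a b m h2 h5 a x le_rfl (hac.trans hx.1) hx.2
      have h10 : Real.sqrt m ≤ m * (x - a) := by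
        have h11 : 1 / Real.sqrt m ≤ x - a := by
          have := hx.1
          linarith
        calc Real.sqrt m = m * (1 / Real.sqrt m) := by
              rw [mul_one_div, Real.div_sqrt]
          _ ≤ _ := by gcongr
      have h11 := le_abs_self (P' x)
      linarith

lemma half_left (P P' P'' : ℝ → ℝ) (a b m : ℝ) (hab : a ≤ b) (hm : 0 < m)
    (h1 : ∀ x ∈ Icc a b, HasDerivAt P (P' x) x) (h2 : ∀ x ∈ Icc a b, HasDerivAt P' (P'' x) x)
    (h3 : ContinuousOn P'' (Icc a b)) (h5 : ∀ x ∈ Icc a b, m ≤ P'' x) (h6 : P' b ≤ 0) :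
    ‖∫ x in a..b, ex (P x)‖ ≤ 2 / Real.sqrt m := by
  have hsm : 0 < Real.sqrt m := Real.sqrt_pos.mpr hm
  have hss : Real.sqrt m * Real.sqrt m = m := Real.mul_self_sqrt hm.le
  have hpi := Real.pi_gt_three
  by_cases hc : b - a ≤ 1 / Real.sqrt m
  · refine (triv_int P a b hab).trans (hc.trans ?_)
    gcongr
    norm_num
  · push Not at hc
    set c : ℝ := b - 1 / Real.sqrt m with hcdef
    have hcb : c ≤ b := by
      have : 0 < 1 / Real.sqrt m := by positivity
      linarith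
    have hac : a ≤ c := by linarith
    have hPc : ContinuousOn (fun x => ex (P x)) (Icc a b) :=
      ex_cont.comp_continuousOn (fun x hx => (h1 x hx).continuousAt.continuousWithinAt)
    have hi1 : IntervalIntegrable (fun x => ex (P x)) volume a c := by
      apply ContinuousOn.intervalIntegrable
      rw [uIcc_of_le hac]
      exact hPc.mono (Icc_subset_Icc le_rfl hcb)
    have hi2 : IntervalIntegrable (fun x => ex (P x)) volume c b := by
      apply ContinuousOn.intervalIntegrable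
      rw [uIcc_of_le hcb]
      exact hPc.mono (Icc_subset_Icc hac le_rfl)
    rw [← intervalIntegral.integral_add_adjacent_intervals hi1 hi2]
    have h7 := triv_int P c b hcb
    have hsub : ∀ x ∈ Icc a c, x ∈ Icc a b := fun x hx => ⟨hx.1, hx.2.trans hcb⟩
    have h8 := osc_mono P P' P'' a c (Real.sqrt m) hac hsm (fun x hx => h1 x (hsub x hx))
      (fun x hx => h2 x (hsub x hx)) (h3.mono (Icc_subset_Icc le_rfl hcb)) ?_
      (fun x hx => hm.le.trans (h5 x (hsub x hx)))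
    · have h9 : b - c = 1 / Real.sqrt m := by rw [hcdef]; ring
      have h10 : 2 / (Real.pi * Real.sqrt m) ≤ 2 / (3 * Real.sqrt m) := by gcongr
      have h11 : 2 / (3 * Real.sqrt m) = (2 / 3) * (1 / Real.sqrt m) := by
        field_simp
      have h12 : 2 / Real.sqrt m = 2 * (1 / Real.sqrt m) := by ring
      have h13 : 0 < 1 / Real.sqrt m := by positivity
      calc _ ≤ ‖∫ x in a..c, ex (P x)‖ + ‖∫ x in c..b, ex (P x)‖ := norm_add_le _ _
        _ ≤ (2 / 3) * (1 / Real.sqrt m) + 1 / Real.sqrt m := by linarith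
        _ ≤ _ := by rw [h12]; linarith
    · intro x hx
      have h9 := slope P' P'' a b m h2 h5 x b hx.1 (hx.2.trans hcb) le_rfl
      have h10 : Real.sqrt m ≤ m * (b - x) := by
        have h11 : 1 / Real.sqrt m ≤ b - x := by
          have := hx.2
          linarith
        calc Real.sqrt m = m * (1 / Real.sqrt m) := by
              rw [mul_one_div, Real.div_sqrt]
          _ ≤ _ := by gcongr
      have h11 := neg_abs_le (P' x)
      linarith

/-- second derivative test -/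
lemma osc_two (P P' P'' : ℝ → ℝ) (a b m : ℝ) (hab : a ≤ b) (hm : 0 < m)
    (h1 : ∀ x ∈ Icc a b, HasDerivAt P (P' x) x) (h2 : ∀ x ∈ Icc a b, HasDerivAt P' (P'' x) x)
    (h3 : ContinuousOn P'' (Icc a b)) (h5 : ∀ x ∈ Icc a b, m ≤ P'' x) :
    ‖∫ x in a..b, ex (P x)‖ ≤ 4 / Real.sqrt m := by
  have hsm : 0 < Real.sqrt m := Real.sqrt_pos.mpr hm
  have h24 : 2 / Real.sqrt m ≤ 4 / Real.sqrt m := by
    gcongr
    norm_num
  by_cases ha : 0 ≤ P' a
  · exact (half_right P P' P'' a b m hab hm h1 h2 h3 h5 ha).trans h24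
  by_cases hb : P' b ≤ 0
  · exact (half_left P P' P'' a b m hab hm h1 h2 h3 h5 hb).trans h24
  push Not at ha hb
  have hP'c : ContinuousOn P' (Icc a b) := fun x hx => (h2 x hx).continuousAt.continuousWithinAt
  obtain ⟨c, hc, hc0⟩ : (0 : ℝ) ∈ P' '' (Icc a b) :=
    intermediate_value_Icc hab hP'c ⟨ha.le, hb.le⟩
  have hPc : ContinuousOn (fun x => ex (P x)) (Icc a b) :=
    ex_cont.comp_continuousOn (fun x hx => (h1 x hx).continuousAt.continuousWithinAt)
  have hi1 : IntervalIntegrable (fun x => ex (P x)) volume a c := by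
    apply ContinuousOn.intervalIntegrable
    rw [uIcc_of_le hc.1]
    exact hPc.mono (Icc_subset_Icc le_rfl hc.2)
  have hi2 : IntervalIntegrable (fun x => ex (P x)) volume c b := by
    apply ContinuousOn.intervalIntegrable
    rw [uIcc_of_le hc.2]
    exact hPc.mono (Icc_subset_Icc hc.1 le_rfl)
  have hs1 : ∀ x ∈ Icc a c, x ∈ Icc a b := fun x hx => ⟨hx.1, hx.2.trans hc.2⟩
  have hs2 : ∀ x ∈ Icc c b, x ∈ Icc a b := fun x hx => ⟨hc.1.trans hx.1, hx.2⟩
  have h6 := half_left P P' P'' a c m hc.1 hm (fun x hx => h1 x (hs1 x hx))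
    (fun x hx => h2 x (hs1 x hx)) (h3.mono (Icc_subset_Icc le_rfl hc.2))
    (fun x hx => h5 x (hs1 x hx)) hc0.le
  have h7 := half_right P P' P'' c b m hc.2 hm (fun x hx => h1 x (hs2 x hx))
    (fun x hx => h2 x (hs2 x hx)) (h3.mono (Icc_subset_Icc hc.1 le_rfl))
    (fun x hx => h5 x (hs2 x hx)) hc0.ge
  rw [← intervalIntegral.integral_add_adjacent_intervals hi1 hi2]
  calc _ ≤ ‖∫ x in a..c, ex (P x)‖ + ‖∫ x in c..b, ex (P x)‖ := norm_add_le _ _
    _ ≤ 2 / Real.sqrt m + 2 / Real.sqrt m := by gcongr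
    _ = _ := by ring

lemma int_conj (P : ℝ → ℝ) (a b : ℝ) :
    ‖∫ x in a..b, ex (P x)‖ = ‖∫ x in a..b, ex (-P x)‖ := by
  have h1 : ∫ x in a..b, ex (-P x) = (starRingEnd ℂ) (∫ x in a..b, ex (P x)) := by
    rw [intervalIntegral, intervalIntegral, map_sub, ← integral_conj, ← integral_conj]
    simp_rw [ex_conj]
  rw [h1, RCLike.norm_conj]

/-- second derivative test, both signs -/
lemma osc_two' (P P' P'' : ℝ → ℝ) (a b m : ℝ) (hab : a ≤ b) (hm : 0 < m)
    (h1 : ∀ x ∈ Icc a b, HasDerivAt P (P' x) x) (h2 : ∀ x ∈ Icc a b, HasDerivAt P' (P'' x) x)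
    (h3 : ContinuousOn P'' (Icc a b))
    (h5 : (∀ x ∈ Icc a b, m ≤ P'' x) ∨ (∀ x ∈ Icc a b, P'' x ≤ -m)) :
    ‖∫ x in a..b, ex (P x)‖ ≤ 4 / Real.sqrt m := by
  rcases h5 with h5 | h5
  · exact osc_two P P' P'' a b m hab hm h1 h2 h3 h5
  · rw [int_conj]
    apply osc_two (fun x => -P x) (fun x => -P' x) (fun x => -P'' x) a b m hab hm
    · intro x hx
      exact (h1 x hx).neg
    · intro x hx
      exact (h2 x hx).neg
    · exact h3.neg
    · intro x hx
      have := h5 x hx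
      linarith

/-- the phase functions -/
noncomputable def ph (α β γ ε c x : ℝ) : ℝ := α * x + β / x + γ / x ^ 5 + ε / x ^ 7 + c

lemma ph_deriv (α β γ ε c x : ℝ) (hx : 0 < x) :
    HasDerivAt (ph α β γ ε c) (α - β / x ^ 2 - 5 * γ / x ^ 6 - 7 * ε / x ^ 8) x := by
  have hx0 : x ≠ 0 := hx.ne'
  have h1 : HasDerivAt (fun y : ℝ => α * y) (α * 1) x := (hasDerivAt_id x).const_mul α
  have h2 : HasDerivAt (fun y : ℝ => β / y) ((0 * x - β * 1) / x ^ 2) x :=
    (hasDerivAt_const x β).div (hasDerivAt_id x) hx0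
  have h3 : HasDerivAt (fun y : ℝ => γ / y ^ 5) ((0 * x ^ 5 - γ * (5 * x ^ 4)) / (x ^ 5) ^ 2) x := by
    have h4 := (hasDerivAt_const x γ).div (hasDerivAt_pow 5 x) (pow_ne_zero 5 hx0)
    exact HasDerivAt.congr_deriv h4 (by norm_num)
  have h3' : HasDerivAt (fun y : ℝ => ε / y ^ 7) ((0 * x ^ 7 - ε * (7 * x ^ 6)) / (x ^ 7) ^ 2) x := by
    have h4 := (hasDerivAt_const x ε).div (hasDerivAt_pow 7 x) (pow_ne_zero 7 hx0)
    exact HasDerivAt.congr_deriv h4 (by norm_num)
  have h5 := (((h1.add h2).add h3).add h3').add_const c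
  refine HasDerivAt.congr_deriv h5 ?_
  field_simp
  ring

lemma ph_deriv2 (α β γ ε x : ℝ) (hx : 0 < x) :
    HasDerivAt (fun y => α - β / y ^ 2 - 5 * γ / y ^ 6 - 7 * ε / y ^ 8)
      (2 * β / x ^ 3 + 30 * γ / x ^ 7 + 56 * ε / x ^ 9) x := by
  have hx0 : x ≠ 0 := hx.ne'
  have h2 : HasDerivAt (fun y : ℝ => β / y ^ 2) ((0 * x ^ 2 - β * (2 * x ^ 1)) / (x ^ 2) ^ 2) x := by
    have h4 := (hasDerivAt_const x β).div (hasDerivAt_pow 2 x) (pow_ne_zero 2 hx0)
    exact HasDerivAt.congr_deriv h4 (by norm_num)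
  have h3 : HasDerivAt (fun y : ℝ => 5 * γ / y ^ 6)
      ((0 * x ^ 6 - (5 * γ) * (6 * x ^ 5)) / (x ^ 6) ^ 2) x := by
    have h4 := (hasDerivAt_const x (5 * γ)).div (hasDerivAt_pow 6 x) (pow_ne_zero 6 hx0)
    exact HasDerivAt.congr_deriv h4 (by norm_num)
  have h3' : HasDerivAt (fun y : ℝ => 7 * ε / y ^ 8)
      ((0 * x ^ 8 - (7 * ε) * (8 * x ^ 7)) / (x ^ 8) ^ 2) x := by
    have h4 := (hasDerivAt_const x (7 * ε)).div (hasDerivAt_pow 8 x) (pow_ne_zero 8 hx0)
    exact HasDerivAt.congr_deriv h4 (by norm_num)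
  have h5 := (((hasDerivAt_const x α).sub h2).sub h3).sub h3'
  refine HasDerivAt.congr_deriv h5 ?_
  field_simp
  ring

lemma ph2_cont (β γ ε : ℝ) (a b : ℝ) (ha : 0 < a) :
    ContinuousOn (fun x => 2 * β / x ^ 3 + 30 * γ / x ^ 7 + 56 * ε / x ^ 9) (Icc a b) := by
  have h0 : ∀ x ∈ Icc a b, x ≠ 0 := fun x hx => (lt_of_lt_of_le ha hx.1).ne'
  apply ContinuousOn.add
  · apply ContinuousOn.add
    · apply ContinuousOn.div continuousOn_const (by fun_prop)
      intro x hx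
      exact pow_ne_zero _ (h0 x hx)
    · apply ContinuousOn.div continuousOn_const (by fun_prop)
      intro x hx
      exact pow_ne_zero _ (h0 x hx)
  · apply ContinuousOn.div continuousOn_const (by fun_prop)
    intro x hx
    exact pow_ne_zero _ (h0 x hx)

lemma div_bd (A c Z x : ℝ) (n : ℕ) (hZ : 0 < Z) (hx : Z ≤ x) (hc : 0 ≤ c)
    (h : |A| ≤ c * Z ^ n) : |A / x ^ n| ≤ c := by
  have hx0 : 0 < x := lt_of_lt_of_le hZ hx
  rw [abs_div, abs_of_pos (by positivity : 0 < x ^ n), div_le_iff₀ (by positivity)]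
  calc |A| ≤ c * Z ^ n := h
    _ ≤ _ := by gcongr

/-- different frequencies, no stationary point -/
lemma osc_A1 (Z α β γ ε c : ℝ) (hZ : 0 < Z) (hα : 0 < |α|)
    (hβ : |β| ≤ |α| * Z ^ 2 / 2) (hγ : |γ| ≤ |α| * Z ^ 6 / 1000) (hε : |ε| ≤ |α| * Z ^ 8 / 1000) :
    ‖∫ x in Z..(2 * Z), ex (ph α β γ ε c x)‖ ≤ 8 / |α| := by
  have hpi := Real.pi_gt_three
  have h1 := osc (ph α β γ ε c) (fun y => α - β / y ^ 2 - 5 * γ / y ^ 6 - 7 * ε / y ^ 8)
    (fun x => 2 * β / x ^ 3 + 30 * γ / x ^ 7 + 56 * ε / x ^ 9) Z (2 * Z) (|α| / 4) (2 * |α| / Z)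
    (by linarith) (by positivity)
    (fun x hx => ph_deriv α β γ ε c x (lt_of_lt_of_le hZ hx.1))
    (fun x hx => ph_deriv2 α β γ ε x (lt_of_lt_of_le hZ hx.1))
    (ph2_cont β γ ε Z (2 * Z) hZ) ?_ ?_
  · refine h1.trans ?_
    have h2 : 2 * |α| / Z * (2 * Z - Z) / (2 * Real.pi * (|α| / 4) ^ 2) =
        16 / (Real.pi * |α|) := by
      field_simp
      ring
    have h3 : 1 / (Real.pi * (|α| / 4)) = 4 / (Real.pi * |α|) := by
      field_simp
    rw [h2, h3]
    have h4 : 4 / (Real.pi * |α|) ≤ 4 / (3 * |α|) := by gcongr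
    have h5 : 16 / (Real.pi * |α|) ≤ 16 / (3 * |α|) := by gcongr
    have h6 : 4 / (3 * |α|) + 16 / (3 * |α|) = (20 / 3) * (1 / |α|) := by
      field_simp
      norm_num
    have h7 : 8 / |α| = 8 * (1 / |α|) := by ring
    have h8 : 0 < 1 / |α| := by positivity
    linarith
  · intro x hx
    have h6 : |β / x ^ 2| ≤ |α| / 2 := div_bd β (|α| / 2) Z x 2 hZ hx.1 (by positivity)
      (by linarith)
    have h7 : |5 * γ / x ^ 6| ≤ |α| / 200 := by
      apply div_bd _ (|α| / 200) Z x 6 hZ hx.1 (by positivity)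
      rw [abs_mul, abs_of_pos (by norm_num : (0 : ℝ) < 5)]
      linarith
    have h7' : |7 * ε / x ^ 8| ≤ 7 * |α| / 1000 := by
      apply div_bd _ (7 * |α| / 1000) Z x 8 hZ hx.1 (by positivity)
      rw [abs_mul, abs_of_pos (by norm_num : (0 : ℝ) < 7)]
      linarith
    have h8 : |α| ≤ |α - β / x ^ 2 - 5 * γ / x ^ 6 - 7 * ε / x ^ 8| + |β / x ^ 2| +
        |5 * γ / x ^ 6| + |7 * ε / x ^ 8| := by
      have h9 : α = (α - β / x ^ 2 - 5 * γ / x ^ 6 - 7 * ε / x ^ 8) + β / x ^ 2 + 5 * γ / x ^ 6 +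
        7 * ε / x ^ 8 := by ring
      calc |α| = |(α - β / x ^ 2 - 5 * γ / x ^ 6 - 7 * ε / x ^ 8) + β / x ^ 2 + 5 * γ / x ^ 6 +
            7 * ε / x ^ 8| := by rw [← h9]
        _ ≤ |(α - β / x ^ 2 - 5 * γ / x ^ 6 - 7 * ε / x ^ 8) + β / x ^ 2 + 5 * γ / x ^ 6| +
            |7 * ε / x ^ 8| := abs_add_le _ _
        _ ≤ |(α - β / x ^ 2 - 5 * γ / x ^ 6 - 7 * ε / x ^ 8) + β / x ^ 2| + |5 * γ / x ^ 6| +
            |7 * ε / x ^ 8| := by gcongr; exact abs_add_le _ _
        _ ≤ _ := by gcongr; exact abs_add_le _ _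
    linarith
  · intro x hx
    have h6 : |2 * β / x ^ 3| ≤ |α| / Z := by
      apply div_bd _ (|α| / Z) Z x 3 hZ hx.1 (by positivity)
      rw [abs_mul, abs_of_pos (by norm_num : (0 : ℝ) < 2)]
      have : |α| / Z * Z ^ 3 = |α| * Z ^ 2 := by field_simp
      linarith
    have h7 : |30 * γ / x ^ 7| ≤ (3 / 100) * (|α| / Z) := by
      apply div_bd _ ((3 / 100) * (|α| / Z)) Z x 7 hZ hx.1 (by positivity)
      rw [abs_mul, abs_of_pos (by norm_num : (0 : ℝ) < 30)]
      have : (3 / 100) * (|α| / Z) * Z ^ 7 = (3 / 100) * (|α| * Z ^ 6) := by field_simp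
      linarith
    have h7' : |56 * ε / x ^ 9| ≤ (6 / 100) * (|α| / Z) := by
      apply div_bd _ ((6 / 100) * (|α| / Z)) Z x 9 hZ hx.1 (by positivity)
      rw [abs_mul, abs_of_pos (by norm_num : (0 : ℝ) < 56)]
      have : (6 / 100) * (|α| / Z) * Z ^ 9 = (6 / 100) * (|α| * Z ^ 8) := by field_simp
      have h0 : 0 ≤ |α| * Z ^ 8 := by positivity
      linarith
    have h0 : 0 < |α| / Z := by positivity
    calc _ ≤ |2 * β / x ^ 3 + 30 * γ / x ^ 7| + |56 * ε / x ^ 9| := abs_add_le _ _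
      _ ≤ |2 * β / x ^ 3| + |30 * γ / x ^ 7| + |56 * ε / x ^ 9| := by
          gcongr
          exact abs_add_le _ _
      _ ≤ |α| / Z + (3 / 100) * (|α| / Z) + (6 / 100) * (|α| / Z) := by gcongr
      _ ≤ 2 * (|α| / Z) := by linarith
      _ = _ := by ring

/-- different frequencies, possibly a stationary point -/
lemma osc_A2 (Z α β γ ε c : ℝ) (hZ : 0 < Z) (hα : 0 < |α|)
    (hβ : |α| * Z ^ 2 / 2 ≤ |β|) (hγ : |γ| ≤ |α| * Z ^ 6 / 4000) (hε : |ε| ≤ |α| * Z ^ 8 / 8000) :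
    ‖∫ x in Z..(2 * Z), ex (ph α β γ ε c x)‖ ≤ 4 / Real.sqrt (|α| / (10 * Z)) := by
  apply osc_two' (ph α β γ ε c) (fun y => α - β / y ^ 2 - 5 * γ / y ^ 6 - 7 * ε / y ^ 8)
    (fun x => 2 * β / x ^ 3 + 30 * γ / x ^ 7 + 56 * ε / x ^ 9) Z (2 * Z) (|α| / (10 * Z))
    (by linarith) (by positivity)
    (fun x hx => ph_deriv α β γ ε c x (lt_of_lt_of_le hZ hx.1))
    (fun x hx => ph_deriv2 α β γ ε x (lt_of_lt_of_le hZ hx.1))
    (ph2_cont β γ ε Z (2 * Z) hZ)
  have h7 : ∀ x ∈ Icc Z (2 * Z), |30 * γ / x ^ 7| ≤ (1 / 100) * (|α| / Z) := by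
    intro x hx
    apply div_bd _ ((1 / 100) * (|α| / Z)) Z x 7 hZ hx.1 (by positivity)
    rw [abs_mul, abs_of_pos (by norm_num : (0 : ℝ) < 30)]
    have : (1 / 100) * (|α| / Z) * Z ^ 7 = (1 / 100) * (|α| * Z ^ 6) := by field_simp
    have h0 : 0 ≤ |α| * Z ^ 6 := by positivity
    linarith
  have h8 : ∀ x ∈ Icc Z (2 * Z), |56 * ε / x ^ 9| ≤ (1 / 100) * (|α| / Z) := by
    intro x hx
    apply div_bd _ ((1 / 100) * (|α| / Z)) Z x 9 hZ hx.1 (by positivity)
    rw [abs_mul, abs_of_pos (by norm_num : (0 : ℝ) < 56)]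
    have : (1 / 100) * (|α| / Z) * Z ^ 9 = (1 / 100) * (|α| * Z ^ 8) := by field_simp
    have h0 : 0 ≤ |α| * Z ^ 8 := by positivity
    linarith
  have hm : |α| / (10 * Z) = (1 / 10) * (|α| / Z) := by field_simp
  have h0 : 0 < |α| / Z := by positivity
  rw [hm]
  have h9 : ∀ x ∈ Icc Z (2 * Z), (1 / 8) * (|α| / Z) ≤ 2 * |β| / x ^ 3 := by
    intro x hx
    have hx0 : 0 < x := lt_of_lt_of_le hZ hx.1
    have h10 : x ^ 3 ≤ (2 * Z) ^ 3 := by
      have := hx.2
      gcongr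
    rw [le_div_iff₀ (by positivity)]
    calc (1 / 8) * (|α| / Z) * x ^ 3 ≤ (1 / 8) * (|α| / Z) * (2 * Z) ^ 3 := by gcongr
      _ = |α| * Z ^ 2 := by field_simp; norm_num
      _ ≤ 2 * |β| := by linarith
  rcases le_or_gt 0 β with hb | hb
  · left
    intro x hx
    have h10 := h9 x hx
    rw [abs_of_nonneg hb] at h10
    have h11 := neg_abs_le (30 * γ / x ^ 7)
    have h12 := neg_abs_le (56 * ε / x ^ 9)
    have h13 := h7 x hx
    have h14 := h8 x hx
    linarith
  · right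
    intro x hx
    have h10 := h9 x hx
    rw [abs_of_neg hb] at h10
    have h11 := le_abs_self (30 * γ / x ^ 7)
    have h12 := le_abs_self (56 * ε / x ^ 9)
    have h13 := h7 x hx
    have h14 := h8 x hx
    have h15 : 2 * -β / x ^ 3 = -(2 * β / x ^ 3) := by ring
    rw [h15] at h10
    linarith

/-- equal frequencies -/
lemma osc_B (Z β γ ε c : ℝ) (hZ : 0 < Z) (hβ : β ≠ 0) (hγ : |γ| ≤ |β| * Z ^ 4 / 1000)
    (hε : |ε| ≤ |β| * Z ^ 6 / 1000) :
    ‖∫ x in Z..(2 * Z), ex (ph 0 β γ ε c x)‖ ≤ 40 * Z ^ 2 / |β| := by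
  have hpi := Real.pi_gt_three
  have hb : 0 < |β| := abs_pos.mpr hβ
  have h1 := osc (ph 0 β γ ε c) (fun y => 0 - β / y ^ 2 - 5 * γ / y ^ 6 - 7 * ε / y ^ 8)
    (fun x => 2 * β / x ^ 3 + 30 * γ / x ^ 7 + 56 * ε / x ^ 9) Z (2 * Z) (|β| / (8 * Z ^ 2))
    (3 * |β| / Z ^ 3) (by linarith) (by positivity)
    (fun x hx => ph_deriv 0 β γ ε c x (lt_of_lt_of_le hZ hx.1))
    (fun x hx => ph_deriv2 0 β γ ε x (lt_of_lt_of_le hZ hx.1))
    (ph2_cont β γ ε Z (2 * Z) hZ) ?_ ?_
  · refine h1.trans ?_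
    have h2 : 3 * |β| / Z ^ 3 * (2 * Z - Z) / (2 * Real.pi * (|β| / (8 * Z ^ 2)) ^ 2) =
        96 * Z ^ 2 / (Real.pi * |β|) := by
      field_simp
      ring
    have h3 : 1 / (Real.pi * (|β| / (8 * Z ^ 2))) = 8 * Z ^ 2 / (Real.pi * |β|) := by
      field_simp
    rw [h2, h3]
    have h4 : 8 * Z ^ 2 / (Real.pi * |β|) ≤ 8 * Z ^ 2 / (3 * |β|) := by gcongr
    have h5 : 96 * Z ^ 2 / (Real.pi * |β|) ≤ 96 * Z ^ 2 / (3 * |β|) := by gcongr
    have h6 : 8 * Z ^ 2 / (3 * |β|) + 96 * Z ^ 2 / (3 * |β|) = (104 / 3) * (Z ^ 2 / |β|) := by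
      field_simp
      ring
    have h7 : 40 * Z ^ 2 / |β| = 40 * (Z ^ 2 / |β|) := by ring
    have h8 : 0 < Z ^ 2 / |β| := by positivity
    linarith
  · intro x hx
    have hx0 : 0 < x := lt_of_lt_of_le hZ hx.1
    have hx1 := hx.1
    have hx2 := hx.2
    have h6 : |5 * γ / x ^ 6| ≤ |β| / (20 * x ^ 2) := by
      rw [abs_div, abs_of_pos (by positivity : 0 < x ^ 6), div_le_iff₀ (by positivity), abs_mul,
        abs_of_pos (by norm_num : (0 : ℝ) < 5)]
      calc 5 * |γ| ≤ 5 * (|β| * Z ^ 4 / 1000) := by gcongr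
        _ ≤ 5 * (|β| * x ^ 4 / 1000) := by gcongr
        _ ≤ |β| * x ^ 4 / 20 := by
            have : 0 ≤ |β| * x ^ 4 := by positivity
            linarith
        _ = _ := by field_simp
    have h6' : |7 * ε / x ^ 8| ≤ |β| / (20 * x ^ 2) := by
      rw [abs_div, abs_of_pos (by positivity : 0 < x ^ 8), div_le_iff₀ (by positivity), abs_mul,
        abs_of_pos (by norm_num : (0 : ℝ) < 7)]
      calc 7 * |ε| ≤ 7 * (|β| * Z ^ 6 / 1000) := by gcongr
        _ ≤ 7 * (|β| * x ^ 6 / 1000) := by gcongr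
        _ ≤ |β| * x ^ 6 / 20 := by
            have : 0 ≤ |β| * x ^ 6 := by positivity
            linarith
        _ = _ := by field_simp
    have h7 : |β / x ^ 2| = |β| / x ^ 2 := by
      rw [abs_div, abs_of_pos (by positivity : 0 < x ^ 2)]
    have h8 : |β / x ^ 2| ≤ |0 - β / x ^ 2 - 5 * γ / x ^ 6 - 7 * ε / x ^ 8| + |5 * γ / x ^ 6| +
        |7 * ε / x ^ 8| := by
      have h9 : -(β / x ^ 2) = (0 - β / x ^ 2 - 5 * γ / x ^ 6 - 7 * ε / x ^ 8) + 5 * γ / x ^ 6 +
        7 * ε / x ^ 8 := by ring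
      calc |β / x ^ 2| = |-(β / x ^ 2)| := (abs_neg _).symm
        _ = |(0 - β / x ^ 2 - 5 * γ / x ^ 6 - 7 * ε / x ^ 8) + 5 * γ / x ^ 6 +
            7 * ε / x ^ 8| := by rw [← h9]
        _ ≤ |(0 - β / x ^ 2 - 5 * γ / x ^ 6 - 7 * ε / x ^ 8) + 5 * γ / x ^ 6| +
            |7 * ε / x ^ 8| := abs_add_le _ _
        _ ≤ _ := by gcongr; exact abs_add_le _ _
    have h9 : |β| / (8 * Z ^ 2) ≤ |β| / (2 * x ^ 2) := by
      have h11 : x ^ 2 ≤ (2 * Z) ^ 2 := by gcongr
      apply div_le_div_of_nonneg_left hb.le (by positivity)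
      nlinarith
    have h10 : |β| / (2 * x ^ 2) + |β| / (20 * x ^ 2) + |β| / (20 * x ^ 2) ≤ |β| / x ^ 2 := by
      have : |β| / (2 * x ^ 2) + |β| / (20 * x ^ 2) + |β| / (20 * x ^ 2) =
          (3 / 5) * (|β| / x ^ 2) := by
        field_simp
        norm_num
      rw [this]
      have : 0 < |β| / x ^ 2 := by positivity
      linarith
    linarith
  · intro x hx
    have h0 : 0 < |β| / Z ^ 3 := by positivity
    have h6 : |2 * β / x ^ 3| ≤ 2 * (|β| / Z ^ 3) := by
      apply div_bd _ (2 * (|β| / Z ^ 3)) Z x 3 hZ hx.1 (by positivity)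
      rw [abs_mul, abs_of_pos (by norm_num : (0 : ℝ) < 2)]
      have : 2 * (|β| / Z ^ 3) * Z ^ 3 = 2 * |β| := by field_simp
      linarith
    have h7 : |30 * γ / x ^ 7| ≤ (3 / 100) * (|β| / Z ^ 3) := by
      apply div_bd _ ((3 / 100) * (|β| / Z ^ 3)) Z x 7 hZ hx.1 (by positivity)
      rw [abs_mul, abs_of_pos (by norm_num : (0 : ℝ) < 30)]
      have : (3 / 100) * (|β| / Z ^ 3) * Z ^ 7 = (3 / 100) * (|β| * Z ^ 4) := by field_simp
      linarith
    have h7' : |56 * ε / x ^ 9| ≤ (6 / 100) * (|β| / Z ^ 3) := by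
      apply div_bd _ ((6 / 100) * (|β| / Z ^ 3)) Z x 9 hZ hx.1 (by positivity)
      rw [abs_mul, abs_of_pos (by norm_num : (0 : ℝ) < 56)]
      have : (6 / 100) * (|β| / Z ^ 3) * Z ^ 9 = (6 / 100) * (|β| * Z ^ 6) := by field_simp
      have h1 : 0 ≤ |β| * Z ^ 6 := by positivity
      linarith
    calc _ ≤ |2 * β / x ^ 3 + 30 * γ / x ^ 7| + |56 * ε / x ^ 9| := abs_add_le _ _
      _ ≤ |2 * β / x ^ 3| + |30 * γ / x ^ 7| + |56 * ε / x ^ 9| := by
          gcongr
          exact abs_add_le _ _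
      _ ≤ 2 * (|β| / Z ^ 3) + (3 / 100) * (|β| / Z ^ 3) + (6 / 100) * (|β| / Z ^ 3) := by gcongr
      _ ≤ 3 * (|β| / Z ^ 3) := by linarith
      _ = _ := by ring

end Pool.Agent.Q148.CN
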