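import Pool.Agent.Q148.CN.Osc

set_option autoImplicit false

/-! # The variance of the counting function -/

namespace Pool.Agent.Q148.CN

open Finset MeasureTheory

lemma sq_int {ι : Type*} (s : Finset ι) (a : ι → ℂ) (φ : ι → ℝ → ℝ) (x₀ x₁ : ℝ)
    (hφ : ∀ i ∈ s, ContinuousOn (φ i) (Set.uIcc x₀ x₁)) :
    ∫ x in x₀..x₁, ‖∑ i ∈ s, a i * ex (φ i x)‖ ^ 2 ≤
      ∑ i ∈ s, ∑ j ∈ s, ‖a i‖ * ‖a j‖ * ‖∫ x in x₀..x₁, ex (φ i x - φ j x)‖ := by
  have h1 : ∀ x : ℝ, ((‖∑ i ∈ s, a i * ex (φ i x)‖ ^ 2 : ℝ) : ℂ) =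
      ∑ i ∈ s, ∑ j ∈ s, (a i * (starRingEnd ℂ) (a j)) * ex (φ i x - φ j x) := by
    intro x
    have h2 : ∀ z : ℂ, ((‖z‖ ^ 2 : ℝ) : ℂ) = z * (starRingEnd ℂ) z := by
      intro z
      rw [Complex.mul_conj, Complex.normSq_eq_norm_sq]
    rw [h2, map_sum, Finset.sum_mul_sum]
    apply Finset.sum_congr rfl
    intro i _
    apply Finset.sum_congr rfl
    intro j _
    rw [map_mul, ex_conj, sub_eq_add_neg, ex_add]
    ring
  have hint : ∀ i ∈ s, ∀ j ∈ s, IntervalIntegrable (fun x => ex (φ i x - φ j x)) volume x₀ x₁ := by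
    intro i hi j hj
    apply ContinuousOn.intervalIntegrable
    exact ex_cont.comp_continuousOn ((hφ i hi).sub (hφ j hj))
  have h3 : ((∫ x in x₀..x₁, ‖∑ i ∈ s, a i * ex (φ i x)‖ ^ 2 : ℝ) : ℂ) =
      ∑ i ∈ s, ∑ j ∈ s, (a i * (starRingEnd ℂ) (a j)) * ∫ x in x₀..x₁, ex (φ i x - φ j x) := by
    rw [← intervalIntegral.integral_ofReal]
    simp_rw [h1]
    rw [intervalIntegral.integral_finsetSum]
    · apply Finset.sum_congr rfl
      intro i hi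
      rw [intervalIntegral.integral_finsetSum]
      · apply Finset.sum_congr rfl
        intro j hj
        rw [intervalIntegral.integral_const_mul]
      · intro j hj
        exact (hint i hi j hj).const_mul _
    · intro i hi
      apply ContinuousOn.intervalIntegrable
      apply continuousOn_finsetSum
      intro j hj
      exact continuousOn_const.mul (ex_cont.comp_continuousOn ((hφ i hi).sub (hφ j hj)))
  have h4 : (∫ x in x₀..x₁, ‖∑ i ∈ s, a i * ex (φ i x)‖ ^ 2) ≤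
      ‖((∫ x in x₀..x₁, ‖∑ i ∈ s, a i * ex (φ i x)‖ ^ 2 : ℝ) : ℂ)‖ := by
    rw [Complex.norm_real, Real.norm_eq_abs]
    exact le_abs_self _
  refine h4.trans ?_
  rw [h3]
  refine (norm_sum_le _ _).trans ?_
  apply Finset.sum_le_sum
  intro i _
  refine (norm_sum_le _ _).trans ?_
  apply Finset.sum_le_sum
  intro j _
  rw [norm_mul, norm_mul, RCLike.norm_conj]

lemma harm (T t : ℕ) (ht : t ∈ Ioc T (2 * T)) (hT : 1 ≤ T) :
    ∑ t' ∈ (Ioc T (2 * T)).erase t, 1 / |(t : ℝ) - t'| ≤ 2 * (1 + Real.log T) := by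
  have hh : ∑ d ∈ Icc 1 T, 1 / (d : ℝ) ≤ 1 + Real.log T := by
    have h1 := harmonic_le_one_add_log T
    have h2 : ((harmonic T : ℚ) : ℝ) = ∑ d ∈ Icc 1 T, 1 / (d : ℝ) := by
      rw [harmonic_eq_sum_Icc]
      push_cast
      apply Finset.sum_congr rfl
      intro d _
      rw [one_div]
    rw [← h2]
    exact h1
  rw [Finset.mem_Ioc] at ht
  have hsplit : (Ioc T (2 * T)).erase t = (Ioc T (t - 1)) ∪ (Ioc t (2 * T)) := by
    ext x
    simp only [Finset.mem_erase, Finset.mem_Ioc, Finset.mem_union]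
    omega
  have hdisj : Disjoint (Ioc T (t - 1)) (Ioc t (2 * T)) := by
    rw [Finset.disjoint_left]
    intro x hx hx2
    simp only [Finset.mem_Ioc] at hx hx2
    omega
  rw [hsplit, Finset.sum_union hdisj]
  have hA : ∑ t' ∈ Ioc T (t - 1), 1 / |(t : ℝ) - t'| ≤ ∑ d ∈ Icc 1 T, 1 / (d : ℝ) := by
    have h1 : ∑ t' ∈ Ioc T (t - 1), 1 / |(t : ℝ) - t'| =
        ∑ d ∈ (Ioc T (t - 1)).image (fun t' => t - t'), 1 / (d : ℝ) := by
      rw [Finset.sum_image]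
      · apply Finset.sum_congr rfl
        intro x hx
        rw [Finset.mem_Ioc] at hx
        rw [Nat.cast_sub (by omega), abs_of_nonneg]
        have : (x : ℝ) ≤ t := by exact_mod_cast (by omega : x ≤ t)
        linarith
      · intro x hx y hy hxy
        simp only [Finset.coe_Ioc, Set.mem_Ioc] at hx hy
        simp only at hxy
        omega
    rw [h1]
    apply Finset.sum_le_sum_of_subset_of_nonneg
    · intro d hd
      rw [Finset.mem_image] at hd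
      obtain ⟨x, hx, rfl⟩ := hd
      rw [Finset.mem_Ioc] at hx
      rw [Finset.mem_Icc]
      omega
    · intro d _ _
      positivity
  have hB : ∑ t' ∈ Ioc t (2 * T), 1 / |(t : ℝ) - t'| ≤ ∑ d ∈ Icc 1 T, 1 / (d : ℝ) := by
    have h1 : ∑ t' ∈ Ioc t (2 * T), 1 / |(t : ℝ) - t'| =
        ∑ d ∈ (Ioc t (2 * T)).image (fun t' => t' - t), 1 / (d : ℝ) := by
      rw [Finset.sum_image]
      · apply Finset.sum_congr rfl
        intro x hx
        rw [Finset.mem_Ioc] at hx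
        rw [Nat.cast_sub (by omega), abs_of_nonpos]
        · congr 1
          ring
        · have : (t : ℝ) ≤ x := by exact_mod_cast (by omega : t ≤ x)
          linarith
      · intro x hx y hy hxy
        simp only [Finset.coe_Ioc, Set.mem_Ioc] at hx hy
        simp only at hxy
        omega
    rw [h1]
    apply Finset.sum_le_sum_of_subset_of_nonneg
    · intro d hd
      rw [Finset.mem_image] at hd
      obtain ⟨x, hx, rfl⟩ := hd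
      rw [Finset.mem_Ioc] at hx
      rw [Finset.mem_Icc]
      omega
    · intro d _ _
      positivity
  linarith

lemma sum_dist (S : Finset ℕ) (N k : ℕ) (hS : ∀ x ∈ S, x < N) (hk : k < N) (f : ℕ → ℝ)
    (hf : ∀ d, 0 ≤ f d) :
    ∑ x ∈ S.erase k, f ((x - k) + (k - x)) ≤ 2 * ∑ d ∈ Icc 1 N, f d := by
  have hsplit : S.erase k = (S.filter (fun x => x < k)) ∪ (S.filter (fun x => k < x)) := by
    ext x
    simp only [Finset.mem_erase, Finset.mem_filter, Finset.mem_union]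
    constructor
    · rintro ⟨h1, h2⟩
      rcases lt_or_gt_of_ne h1 with h3 | h3
      · exact Or.inl ⟨h2, h3⟩
      · exact Or.inr ⟨h2, h3⟩
    · rintro (⟨h1, h2⟩ | ⟨h1, h2⟩)
      · exact ⟨by omega, h1⟩
      · exact ⟨by omega, h1⟩
  have hdisj : Disjoint (S.filter (fun x => x < k)) (S.filter (fun x => k < x)) := by
    rw [Finset.disjoint_left]
    intro x hx hx2
    rw [Finset.mem_filter] at hx hx2
    omega
  rw [hsplit, Finset.sum_union hdisj]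
  have hA : ∑ x ∈ S.filter (fun x => x < k), f ((x - k) + (k - x)) ≤ ∑ d ∈ Icc 1 N, f d := by
    have h1 : ∑ x ∈ S.filter (fun x => x < k), f ((x - k) + (k - x)) =
        ∑ d ∈ (S.filter (fun x => x < k)).image (fun x => (x - k) + (k - x)), f d := by
      rw [Finset.sum_image]
      intro x hx y hy hxy
      simp only [Finset.coe_filter, Set.mem_ofPred_eq] at hx hy
      simp only at hxy
      omega
    rw [h1]
    apply Finset.sum_le_sum_of_subset_of_nonneg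
    · intro d hd
      rw [Finset.mem_image] at hd
      obtain ⟨x, hx, rfl⟩ := hd
      rw [Finset.mem_filter] at hx
      rw [Finset.mem_Icc]
      omega
    · intro d _ _
      exact hf d
  have hB : ∑ x ∈ S.filter (fun x => k < x), f ((x - k) + (k - x)) ≤ ∑ d ∈ Icc 1 N, f d := by
    have h1 : ∑ x ∈ S.filter (fun x => k < x), f ((x - k) + (k - x)) =
        ∑ d ∈ (S.filter (fun x => k < x)).image (fun x => (x - k) + (k - x)), f d := by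
      rw [Finset.sum_image]
      intro x hx y hy hxy
      simp only [Finset.coe_filter, Set.mem_ofPred_eq] at hx hy
      simp only at hxy
      omega
    rw [h1]
    apply Finset.sum_le_sum_of_subset_of_nonneg
    · intro d hd
      rw [Finset.mem_image] at hd
      obtain ⟨x, hx, rfl⟩ := hd
      rw [Finset.mem_filter] at hx
      have := hS x hx.1
      rw [Finset.mem_Icc]
      omega
    · intro d _ _
      exact hf d
  linarith

lemma sum_sqrt (n : ℕ) : ∑ d ∈ Icc 1 n, 1 / Real.sqrt d ≤ 2 * Real.sqrt n := by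
  induction n with
  | zero => simp
  | succ n ih =>
    rw [Finset.sum_Icc_succ_top (by omega)]
    have h1 : 0 < Real.sqrt ((n + 1 : ℕ) : ℝ) := by
      apply Real.sqrt_pos.mpr
      positivity
    have h2 : Real.sqrt ((n + 1 : ℕ) : ℝ) * Real.sqrt ((n + 1 : ℕ) : ℝ) = n + 1 := by
      rw [Real.mul_self_sqrt (by positivity)]
      push_cast
      ring
    have h3 : Real.sqrt (n : ℝ) * Real.sqrt (n : ℝ) = n := Real.mul_self_sqrt (by positivity)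
    have h4 : 0 ≤ Real.sqrt (n : ℝ) := Real.sqrt_nonneg _
    have h5 : 1 / Real.sqrt ((n + 1 : ℕ) : ℝ) ≤
        2 * Real.sqrt ((n + 1 : ℕ) : ℝ) - 2 * Real.sqrt (n : ℝ) := by
      rw [div_le_iff₀ h1]
      nlinarith [sq_nonneg (Real.sqrt ((n + 1 : ℕ) : ℝ) - Real.sqrt (n : ℝ))]
    linarith

/-- the weight of a frequency difference -/
noncomputable def wt (D : ℝ) (d : ℕ) : ℝ := if (d : ℝ) ≤ D then 1 / Real.sqrt d else 0

lemma wt_nonneg (D : ℝ) (d : ℕ) : 0 ≤ wt D d := by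
  unfold wt
  split_ifs
  · positivity
  · exact le_refl _

lemma sum_wt (D : ℝ) (hD : 0 ≤ D) (N : ℕ) : ∑ d ∈ Icc 1 N, wt D d ≤ 2 * Real.sqrt D := by
  have h1 : ∑ d ∈ Icc 1 N, wt D d = ∑ d ∈ (Icc 1 N).filter (fun d : ℕ => (d : ℝ) ≤ D),
      1 / Real.sqrt d := by
    rw [Finset.sum_filter]
    rfl
  have h2 : (Icc 1 N).filter (fun d : ℕ => (d : ℝ) ≤ D) ⊆ Icc 1 ⌊D⌋₊ := by
    intro d hd
    rw [Finset.mem_filter, Finset.mem_Icc] at hd
    rw [Finset.mem_Icc]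
    exact ⟨hd.1.1, Nat.le_floor hd.2⟩
  rw [h1]
  calc _ ≤ ∑ d ∈ Icc 1 ⌊D⌋₊, 1 / Real.sqrt d := by
        apply Finset.sum_le_sum_of_subset_of_nonneg h2
        intro d _ _
        positivity
    _ ≤ 2 * Real.sqrt (⌊D⌋₊ : ℝ) := sum_sqrt _
    _ ≤ _ := by
        gcongr
        exact Nat.floor_le hD

/-- `v_t = B W² t²` -/
noncomputable def vv (B W t : ℕ) : ℝ := B * W ^ 2 * t ^ 2

/-- the normalised approximate inverse function of `u ↦ u³ - v_t² u` -/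
noncomputable def yt (B W L t : ℕ) (x : ℝ) : ℝ :=
  ph (1 / W) ((vv B W t) ^ 2 / (3 * W)) (-(vv B W t) ^ 6 / (81 * W)) ((vv B W t) ^ 8 / (243 * W))
    (2 / L - 1 / W) x

lemma yt_comb (B W L t t' : ℕ) (h h' x : ℝ) :
    h * yt B W L t x - h' * yt B W L t' x =
      ph ((h - h') / W) ((h * (vv B W t) ^ 2 - h' * (vv B W t') ^ 2) / (3 * W))
        (-(h * (vv B W t) ^ 6 - h' * (vv B W t') ^ 6) / (81 * W))
        ((h * (vv B W t) ^ 8 - h' * (vv B W t') ^ 8) / (243 * W))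
        ((h - h') * (2 / L - 1 / W)) x := by
  unfold yt ph
  ring

lemma vv_nonneg (B W t : ℕ) : 0 ≤ vv B W t := by
  unfold vv
  positivity

lemma vv_sq (B W T t : ℕ) (ht : t ∈ Ioc T (2 * T)) :
    (vv B W t) ^ 2 ≤ 16 * (B : ℝ) ^ 2 * W ^ 4 * T ^ 4 := by
  rw [Finset.mem_Ioc] at ht
  have h1 : (t : ℝ) ≤ 2 * T := by exact_mod_cast ht.2
  unfold vv
  calc ((B : ℝ) * W ^ 2 * t ^ 2) ^ 2 ≤ ((B : ℝ) * W ^ 2 * (2 * T) ^ 2) ^ 2 := by gcongr
    _ = _ := by ring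

lemma vv_six (B W T t : ℕ) (Z : ℝ) (ht : t ∈ Ioc T (2 * T)) (hT : 1 ≤ T)
    (hZ : (T : ℝ) ^ 7 ≤ Z ^ 3) (hT0 : (10 : ℝ) ^ 15 * (B : ℝ) ^ 6 * W ^ 12 ≤ T) :
    T * ((vv B W t) ^ 2) ^ 3 ≤ Z ^ 6 / 10 ^ 8 := by
  have h1 := vv_sq B W T t ht
  have hT1 : (1 : ℝ) ≤ T := by exact_mod_cast hT
  have h2 : ((T : ℝ) ^ 7) ^ 2 ≤ (Z ^ 3) ^ 2 := by gcongr
  have h3 : (10 : ℝ) ^ 15 * (B : ℝ) ^ 6 * W ^ 12 * T ^ 13 ≤ T * T ^ 13 := by gcongr
  calc T * ((vv B W t) ^ 2) ^ 3 ≤ T * (16 * (B : ℝ) ^ 2 * W ^ 4 * T ^ 4) ^ 3 := by gcongr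
    _ = 4096 / 10 ^ 15 * ((10 : ℝ) ^ 15 * (B : ℝ) ^ 6 * W ^ 12 * T ^ 13) := by ring
    _ ≤ 4096 / 10 ^ 15 * (T * T ^ 13) := by gcongr
    _ = 4096 / 10 ^ 15 * ((T : ℝ) ^ 7) ^ 2 := by ring
    _ ≤ 4096 / 10 ^ 15 * (Z ^ 3) ^ 2 := by gcongr
    _ = 4096 / 10 ^ 15 * Z ^ 6 := by ring
    _ ≤ _ := by
        have : 0 ≤ Z ^ 6 := by positivity
        linarith

lemma vv_two (B W T t : ℕ) (Z : ℝ) (ht : t ∈ Ioc T (2 * T)) (hT : 1 ≤ T) (hZ0 : 0 < Z)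
    (hZ : (T : ℝ) ^ 7 ≤ Z ^ 3) (hT0 : (10 : ℝ) ^ 15 * (B : ℝ) ^ 6 * W ^ 12 ≤ T) :
    (vv B W t) ^ 2 ≤ Z ^ 2 / 400 := by
  have h1 := vv_six B W T t Z ht hT hZ hT0
  have hT1 : (1 : ℝ) ≤ T := by exact_mod_cast hT
  have h2 : ((vv B W t) ^ 2) ^ 3 ≤ (Z ^ 2 / 400) ^ 3 := by
    have h3 : 0 ≤ ((vv B W t) ^ 2) ^ 3 := by positivity
    have h4 : 0 ≤ Z ^ 6 := by positivity
    calc ((vv B W t) ^ 2) ^ 3 = 1 * ((vv B W t) ^ 2) ^ 3 := by ring
      _ ≤ T * ((vv B W t) ^ 2) ^ 3 := by gcongr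
      _ ≤ Z ^ 6 / 10 ^ 8 := h1
      _ ≤ Z ^ 6 / 400 ^ 3 := by gcongr; norm_num
      _ = _ := by ring
  exact le_of_pow_le_pow_left₀ (by norm_num) (by positivity) h2

/-- distinct frequencies -/
lemma case_A (B W L T t t' : ℕ) (Z : ℝ) (h h' : ℤ) (hW : 2 ≤ W) (hL : 2 ≤ L)
    (hLT : L ≤ T) (hZ : (T : ℝ) ^ 7 ≤ Z ^ 3) (hT0 : (10 : ℝ) ^ 15 * (B : ℝ) ^ 6 * W ^ 12 ≤ T)
    (hZ0 : 0 < Z)
    (ht : t ∈ Ioc T (2 * T)) (ht' : t' ∈ Ioc T (2 * T)) (hne : h ≠ h')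
    (hh : |h| ≤ 2 * L) (hh' : |h'| ≤ 2 * L) :
    ‖∫ x in Z..(2 * Z), ex (h * yt B W L t x - h' * yt B W L t' x)‖ ≤ 8 * W +
      13 * Real.sqrt (Z * W) * wt (43 * (B : ℝ) ^ 2 * W ^ 4 * L * T ^ 4 / Z ^ 2) (h - h').natAbs := by
  simp_rw [yt_comb]
  have hW0 : (2 : ℝ) ≤ W := by exact_mod_cast hW
  have hT1 : 1 ≤ T := by omega
  have hL0 : (2 : ℝ) ≤ L := by exact_mod_cast hL
  have hLT' : (L : ℝ) ≤ T := by exact_mod_cast hLT
  have hhr : |(h : ℝ)| ≤ 2 * L := by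
    have h1 : ((|h| : ℤ) : ℝ) ≤ ((2 * L : ℤ) : ℝ) := by exact_mod_cast hh
    rw [Int.cast_abs] at h1
    push_cast at h1
    linarith
  have hhr' : |(h' : ℝ)| ≤ 2 * L := by
    have h1 : ((|h'| : ℤ) : ℝ) ≤ ((2 * L : ℤ) : ℝ) := by exact_mod_cast hh'
    rw [Int.cast_abs] at h1
    push_cast at h1
    linarith
  have hv := vv_sq B W T t ht
  have hv' := vv_sq B W T t' ht'
  have hw := vv_two B W T t Z ht hT1 hZ0 hZ hT0
  have hw' := vv_two B W T t' Z ht' hT1 hZ0 hZ hT0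
  have hx := vv_six B W T t Z ht hT1 hZ hT0
  have hx' := vv_six B W T t' Z ht' hT1 hZ hT0
  have hc : ∀ (s : ℕ) (g : ℤ), |(g : ℝ)| ≤ 2 * L → T * ((vv B W s) ^ 2) ^ 3 ≤ Z ^ 6 / 10 ^ 8 →
      |(g : ℝ) * (vv B W s) ^ 6| ≤ 2 * (Z ^ 6 / 10 ^ 8) := by
    intro s g hg hs
    rw [show (vv B W s) ^ 6 = ((vv B W s) ^ 2) ^ 3 by ring, abs_mul,
      abs_of_nonneg (by positivity : 0 ≤ ((vv B W s) ^ 2) ^ 3)]
    calc _ ≤ (2 * L) * ((vv B W s) ^ 2) ^ 3 := by gcongr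
      _ ≤ (2 * T) * ((vv B W s) ^ 2) ^ 3 := by gcongr
      _ = 2 * (T * ((vv B W s) ^ 2) ^ 3) := by ring
      _ ≤ _ := by gcongr
  have he : ∀ (s : ℕ) (g : ℤ), |(g : ℝ)| ≤ 2 * L → T * ((vv B W s) ^ 2) ^ 3 ≤ Z ^ 6 / 10 ^ 8 →
      (vv B W s) ^ 2 ≤ Z ^ 2 / 400 →
      |(g : ℝ) * (vv B W s) ^ 8| ≤ 2 * (Z ^ 8 / 10 ^ 8) := by
    intro s g hg hs hs2
    rw [show (g : ℝ) * (vv B W s) ^ 8 = ((g : ℝ) * (vv B W s) ^ 6) * (vv B W s) ^ 2 by ring,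
      abs_mul, abs_of_nonneg (by positivity : 0 ≤ (vv B W s) ^ 2)]
    calc _ ≤ (2 * (Z ^ 6 / 10 ^ 8)) * (Z ^ 2 / 400) := by
          have := hc s g hg hs
          gcongr
      _ = (1 / 400) * (2 * (Z ^ 8 / 10 ^ 8)) := by ring
      _ ≤ 1 * (2 * (Z ^ 8 / 10 ^ 8)) := by gcongr; norm_num
      _ = _ := by ring
  have hγ : |-((h : ℝ) * (vv B W t) ^ 6 - h' * (vv B W t') ^ 6) / (81 * W)| ≤
      (1 / W) * Z ^ 6 / 4000 := by
    rw [abs_div, abs_neg, abs_of_pos (by linarith : (0 : ℝ) < 81 * W), div_le_iff₀ (by linarith)]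
    have h1 : (1 / W) * Z ^ 6 / 4000 * (81 * W) = 81 / 4000 * Z ^ 6 := by
      field_simp
    rw [h1]
    have h2 : 0 ≤ Z ^ 6 := by positivity
    calc _ ≤ |(h : ℝ) * (vv B W t) ^ 6| + |(h' : ℝ) * (vv B W t') ^ 6| := abs_sub _ _
      _ ≤ 2 * (Z ^ 6 / 10 ^ 8) + 2 * (Z ^ 6 / 10 ^ 8) := by
          have := hc t h hhr hx
          have := hc t' h' hhr' hx'
          gcongr
      _ ≤ _ := by linarith
  have hε : |((h : ℝ) * (vv B W t) ^ 8 - h' * (vv B W t') ^ 8) / (243 * W)| ≤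
      (1 / W) * Z ^ 8 / 8000 := by
    rw [abs_div, abs_of_pos (by linarith : (0 : ℝ) < 243 * W), div_le_iff₀ (by linarith)]
    have h1 : (1 / W) * Z ^ 8 / 8000 * (243 * W) = 243 / 8000 * Z ^ 8 := by
      field_simp
    rw [h1]
    have h2 : 0 ≤ Z ^ 8 := by positivity
    calc _ ≤ |(h : ℝ) * (vv B W t) ^ 8| + |(h' : ℝ) * (vv B W t') ^ 8| := abs_sub _ _
      _ ≤ 2 * (Z ^ 8 / 10 ^ 8) + 2 * (Z ^ 8 / 10 ^ 8) := by
          have := he t h hhr hx hw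
          have := he t' h' hhr' hx' hw'
          gcongr
      _ ≤ _ := by linarith
  have hdpos : 1 ≤ (h - h').natAbs := by
    have : h - h' ≠ 0 := sub_ne_zero.mpr hne
    exact Int.natAbs_pos.mpr this
  have hdr : (((h - h').natAbs : ℕ) : ℝ) = |(h : ℝ) - h'| := by
    rw [Nat.cast_natAbs]
    push_cast
    rfl
  set d : ℕ := (h - h').natAbs with hd
  have hd1 : (1 : ℝ) ≤ d := by exact_mod_cast hdpos
  have hα : |((h : ℝ) - h') / W| = d / W := by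
    rw [abs_div, abs_of_pos (by linarith : (0 : ℝ) < W), hdr]
  have hα0 : 0 < |((h : ℝ) - h') / W| := by
    rw [hα]
    positivity
  have hα1 : 1 / (W : ℝ) ≤ |((h : ℝ) - h') / W| := by
    rw [hα]
    gcongr
  have hwt := wt_nonneg (43 * (B : ℝ) ^ 2 * W ^ 4 * L * T ^ 4 / Z ^ 2) d
  by_cases hβ : |((h : ℝ) * (vv B W t) ^ 2 - h' * (vv B W t') ^ 2) / (3 * W)| ≤
      |((h : ℝ) - h') / W| * Z ^ 2 / 2
  · have h1 := osc_A1 Z _ _
      (-((h : ℝ) * (vv B W t) ^ 6 - h' * (vv B W t') ^ 6) / (81 * W))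
      (((h : ℝ) * (vv B W t) ^ 8 - h' * (vv B W t') ^ 8) / (243 * W))
      (((h : ℝ) - (h' : ℝ)) * (2 / (L : ℝ) - 1 / (W : ℝ))) hZ0 hα0 hβ
      (hγ.trans (by
        calc (1 / W) * Z ^ 6 / 4000 ≤ |((h : ℝ) - h') / W| * Z ^ 6 / 4000 := by gcongr
          _ ≤ |((h : ℝ) - h') / W| * Z ^ 6 / 1000 := by gcongr; norm_num))
      (hε.trans (by
        calc (1 / W) * Z ^ 8 / 8000 ≤ |((h : ℝ) - h') / W| * Z ^ 8 / 8000 := by gcongr
          _ ≤ |((h : ℝ) - h') / W| * Z ^ 8 / 1000 := by gcongr; norm_num))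
    refine h1.trans ?_
    have h2 : 8 / |((h : ℝ) - h') / W| ≤ 8 * W := by
      rw [div_le_iff₀ hα0]
      calc (8 : ℝ) = 8 * W * (1 / W) := by field_simp
        _ ≤ _ := by gcongr
    have h3 : 0 ≤ 13 * Real.sqrt (Z * W) *
        wt (43 * (B : ℝ) ^ 2 * W ^ 4 * L * T ^ 4 / Z ^ 2) d := by positivity
    linarith
  · push Not at hβ
    have h1 := osc_A2 Z _ _
      (-((h : ℝ) * (vv B W t) ^ 6 - h' * (vv B W t') ^ 6) / (81 * W))
      (((h : ℝ) * (vv B W t) ^ 8 - h' * (vv B W t') ^ 8) / (243 * W))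
      (((h : ℝ) - (h' : ℝ)) * (2 / (L : ℝ) - 1 / (W : ℝ))) hZ0 hα0 hβ.le
      (hγ.trans (by gcongr)) (hε.trans (by gcongr))
    refine h1.trans ?_
    have hD : (d : ℝ) ≤ 43 * (B : ℝ) ^ 2 * W ^ 4 * L * T ^ 4 / Z ^ 2 := by
      rw [hα, abs_div, abs_of_pos (by linarith : (0 : ℝ) < 3 * W)] at hβ
      have h2 : |(h : ℝ) * (vv B W t) ^ 2 - h' * (vv B W t') ^ 2| ≤
          4 * L * (16 * (B : ℝ) ^ 2 * W ^ 4 * T ^ 4) := by
        have h3 : ∀ (s : ℕ) (g : ℤ), |(g : ℝ)| ≤ 2 * L →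
            (vv B W s) ^ 2 ≤ 16 * (B : ℝ) ^ 2 * W ^ 4 * T ^ 4 →
            |(g : ℝ) * (vv B W s) ^ 2| ≤ (2 * L) * (16 * (B : ℝ) ^ 2 * W ^ 4 * T ^ 4) := by
          intro s g hg hs
          rw [abs_mul, abs_of_nonneg (by positivity : 0 ≤ (vv B W s) ^ 2)]
          gcongr
        calc _ ≤ |(h : ℝ) * (vv B W t) ^ 2| + |(h' : ℝ) * (vv B W t') ^ 2| := abs_sub _ _
          _ ≤ (2 * L) * (16 * (B : ℝ) ^ 2 * W ^ 4 * T ^ 4) +
              (2 * L) * (16 * (B : ℝ) ^ 2 * W ^ 4 * T ^ 4) := by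
              gcongr
              · exact h3 t h hhr hv
              · exact h3 t' h' hhr' hv'
          _ = _ := by ring
      rw [lt_div_iff₀ (by linarith)] at hβ
      have h4 : (d : ℝ) / W * Z ^ 2 / 2 * (3 * W) = (3 / 2) * (d * Z ^ 2) := by
        field_simp
      rw [h4] at hβ
      rw [le_div_iff₀ (by positivity)]
      have h5 : 0 ≤ (B : ℝ) ^ 2 * W ^ 4 * L * T ^ 4 := by positivity
      nlinarith
    have hwt1 : wt (43 * (B : ℝ) ^ 2 * W ^ 4 * L * T ^ 4 / Z ^ 2) d = 1 / Real.sqrt d := by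
      unfold wt
      rw [if_pos hD]
    rw [hwt1, hα]
    have h2 : Real.sqrt (d / W / (10 * Z)) = Real.sqrt d / Real.sqrt (10 * (Z * W)) := by
      rw [← Real.sqrt_div (by positivity)]
      congr 1
      field_simp
    have h3 : Real.sqrt (10 * (Z * W)) = Real.sqrt 10 * Real.sqrt (Z * W) := by
      rw [Real.sqrt_mul (by norm_num)]
    have h4 : Real.sqrt 10 ≤ 13 / 4 := by
      rw [Real.sqrt_le_left (by norm_num)]
      norm_num
    have h5 : 0 < Real.sqrt (d : ℝ) := Real.sqrt_pos.mpr (by linarith)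
    have h6 : 0 ≤ Real.sqrt (Z * W) := Real.sqrt_nonneg _
    rw [h2, div_div_eq_mul_div, h3]
    have h7 : 4 * (Real.sqrt 10 * Real.sqrt (Z * W)) / Real.sqrt d ≤
        4 * (13 / 4 * Real.sqrt (Z * W)) / Real.sqrt d := by gcongr
    have h8 : 4 * (13 / 4 * Real.sqrt (Z * W)) / Real.sqrt d =
        13 * Real.sqrt (Z * W) * (1 / Real.sqrt d) := by ring
    linarith

lemma four_diff (T t t' : ℕ) (ht : t ∈ Ioc T (2 * T)) (ht' : t' ∈ Ioc T (2 * T)) :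
    4 * (T : ℝ) ^ 3 * |(t : ℝ) - t'| ≤ |(t : ℝ) ^ 4 - (t' : ℝ) ^ 4| := by
  rw [Finset.mem_Ioc] at ht ht'
  have h1 : (T : ℝ) ≤ t := by exact_mod_cast ht.1.le
  have h2 : (T : ℝ) ≤ t' := by exact_mod_cast ht'.1.le
  have h3 : (t : ℝ) ^ 4 - (t' : ℝ) ^ 4 = (t - t') * ((t + t') * (t ^ 2 + t' ^ 2)) := by ring
  have h4 : (0 : ℝ) ≤ T := by positivity
  have h5 : (T : ℝ) ^ 2 ≤ (t : ℝ) ^ 2 := by gcongr
  have h6 : (T : ℝ) ^ 2 ≤ (t' : ℝ) ^ 2 := by gcongr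
  have h7 : 4 * (T : ℝ) ^ 3 ≤ (t + t') * ((t : ℝ) ^ 2 + t' ^ 2) := by
    calc 4 * (T : ℝ) ^ 3 = (T + T) * ((T : ℝ) ^ 2 + T ^ 2) := by ring
      _ ≤ _ := by gcongr
  rw [h3, abs_mul, abs_of_nonneg (by positivity : 0 ≤ ((t : ℝ) + t') * ((t : ℝ) ^ 2 + t' ^ 2)),
    mul_comm]
  gcongr

/-- equal frequencies, distinct sequences -/
lemma case_B (B W L T t t' : ℕ) (Z : ℝ) (h : ℤ) (hB : 1 ≤ B) (hW : 2 ≤ W) (hT : 1 ≤ T)
    (hZ : (T : ℝ) ^ 7 ≤ Z ^ 3) (hT0 : (10 : ℝ) ^ 15 * (B : ℝ) ^ 6 * W ^ 12 ≤ T) (hZ0 : 0 < Z)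
    (ht : t ∈ Ioc T (2 * T)) (ht' : t' ∈ Ioc T (2 * T)) (hne : t ≠ t') (hh : h ≠ 0) :
    ‖∫ x in Z..(2 * Z), ex (h * yt B W L t x - h * yt B W L t' x)‖ ≤
      40 * Z ^ 2 / T ^ 3 * (1 / |(t : ℝ) - t'|) := by
  simp_rw [yt_comb]
  have hW0 : (2 : ℝ) ≤ W := by exact_mod_cast hW
  have hB0 : (1 : ℝ) ≤ B := by exact_mod_cast hB
  have hT1 : (1 : ℝ) ≤ T := by exact_mod_cast hT
  have hw := vv_two B W T t Z ht hT hZ0 hZ hT0
  have hw' := vv_two B W T t' Z ht' hT hZ0 hZ hT0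
  have hd : 0 < |(t : ℝ) - t'| := by
    apply abs_pos.mpr
    intro h0
    apply hne
    exact_mod_cast sub_eq_zero.mp h0
  set β : ℝ := ((h : ℝ) * (vv B W t) ^ 2 - h * (vv B W t') ^ 2) / (3 * W) with hβ
  have hβ1 : |β| = |(h : ℝ)| * |(vv B W t) ^ 2 - (vv B W t') ^ 2| / (3 * W) := by
    rw [hβ, abs_div, abs_of_pos (by linarith : (0 : ℝ) < 3 * W), ← abs_mul]
    congr 2
    ring
  have hh1 : (1 : ℝ) ≤ |(h : ℝ)| := by
    have := Int.one_le_abs hh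
    exact_mod_cast this
  have hv : (T : ℝ) ^ 3 * |(t : ℝ) - t'| * (3 * W) ≤ |(vv B W t) ^ 2 - (vv B W t') ^ 2| := by
    have h1 := four_diff T t t' ht ht'
    have h2 : (vv B W t) ^ 2 - (vv B W t') ^ 2 = (B : ℝ) ^ 2 * W ^ 4 * (t ^ 4 - t' ^ 4) := by
      unfold vv
      ring
    rw [h2, abs_mul, abs_of_nonneg (by positivity : (0 : ℝ) ≤ (B : ℝ) ^ 2 * W ^ 4)]
    have h3 : (1 : ℝ) ≤ (B : ℝ) ^ 2 := by nlinarith
    have h4 : (W : ℝ) ≤ W ^ 4 := by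
      calc (W : ℝ) = W * 1 := by ring
        _ ≤ W * W ^ 3 := by
            gcongr
            have : (1 : ℝ) ≤ W := by linarith
            exact one_le_pow₀ this
        _ = _ := by ring
    calc (T : ℝ) ^ 3 * |(t : ℝ) - t'| * (3 * W) ≤ (T : ℝ) ^ 3 * |(t : ℝ) - t'| * (4 * W) := by
          gcongr
          norm_num
      _ = 1 * W * (4 * (T : ℝ) ^ 3 * |(t : ℝ) - t'|) := by ring
      _ ≤ (B : ℝ) ^ 2 * W ^ 4 * |(t : ℝ) ^ 4 - t' ^ 4| := by gcongr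
  have hβ2 : (T : ℝ) ^ 3 * |(t : ℝ) - t'| ≤ |β| := by
    rw [hβ1, le_div_iff₀ (by linarith)]
    calc _ ≤ |(vv B W t) ^ 2 - (vv B W t') ^ 2| := hv
      _ = 1 * |(vv B W t) ^ 2 - (vv B W t') ^ 2| := by ring
      _ ≤ _ := by gcongr
  have hβ0 : 0 < |β| := lt_of_lt_of_le (by positivity) hβ2
  have hβne : β ≠ 0 := abs_pos.mp hβ0
  have hγ : |-((h : ℝ) * (vv B W t) ^ 6 - h * (vv B W t') ^ 6) / (81 * W)| ≤
      |β| * Z ^ 4 / 1000 := by
    have h1 : -((h : ℝ) * (vv B W t) ^ 6 - h * (vv B W t') ^ 6) / (81 * W) =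
        -β * (((vv B W t) ^ 2) ^ 2 + (vv B W t) ^ 2 * (vv B W t') ^ 2 + ((vv B W t') ^ 2) ^ 2) /
          27 := by
      rw [hβ]
      field_simp
      ring
    rw [h1, abs_div, abs_mul, abs_neg, abs_of_pos (by norm_num : (0 : ℝ) < 27)]
    have h2 : |((vv B W t) ^ 2) ^ 2 + (vv B W t) ^ 2 * (vv B W t') ^ 2 + ((vv B W t') ^ 2) ^ 2| ≤
        Z ^ 4 / 1000 := by
      rw [abs_of_nonneg (by positivity)]
      have h4 : 0 ≤ Z ^ 4 := by positivity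
      calc _ ≤ (Z ^ 2 / 400) ^ 2 + (Z ^ 2 / 400) * (Z ^ 2 / 400) + (Z ^ 2 / 400) ^ 2 := by gcongr
        _ = 3 / 160000 * Z ^ 4 := by ring
        _ ≤ _ := by linarith
    rw [div_le_div_iff₀ (by norm_num) (by norm_num)]
    have h3 : 0 ≤ |β| * Z ^ 4 := by positivity
    calc _ ≤ |β| * (Z ^ 4 / 1000) * 1000 := by gcongr
      _ ≤ _ := by nlinarith
  have hε : |((h : ℝ) * (vv B W t) ^ 8 - h * (vv B W t') ^ 8) / (243 * W)| ≤
      |β| * Z ^ 6 / 1000 := by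
    have h1 : ((h : ℝ) * (vv B W t) ^ 8 - h * (vv B W t') ^ 8) / (243 * W) =
        β * (((vv B W t) ^ 2 + (vv B W t') ^ 2) *
          (((vv B W t) ^ 2) ^ 2 + ((vv B W t') ^ 2) ^ 2)) / 81 := by
      rw [hβ]
      field_simp
      ring
    rw [h1, abs_div, abs_mul, abs_of_pos (by norm_num : (0 : ℝ) < 81)]
    have h2 : |((vv B W t) ^ 2 + (vv B W t') ^ 2) *
          (((vv B W t) ^ 2) ^ 2 + ((vv B W t') ^ 2) ^ 2)| ≤ Z ^ 6 / 1000 := by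
      rw [abs_of_nonneg (by positivity)]
      have h4 : 0 ≤ Z ^ 6 := by positivity
      calc _ ≤ (Z ^ 2 / 400 + Z ^ 2 / 400) * ((Z ^ 2 / 400) ^ 2 + (Z ^ 2 / 400) ^ 2) := by gcongr
        _ = 4 / 400 ^ 3 * Z ^ 6 := by ring
        _ ≤ _ := by linarith
    rw [div_le_div_iff₀ (by norm_num) (by norm_num)]
    have h3 : 0 ≤ |β| * Z ^ 6 := by positivity
    calc _ ≤ |β| * (Z ^ 6 / 1000) * 1000 := by gcongr
      _ ≤ _ := by nlinarith
  have h1 : ((h : ℝ) - h) / W = 0 := by simp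
  rw [h1]
  refine (osc_B Z β _ _ _ hZ0 hβne hγ hε).trans ?_
  calc 40 * Z ^ 2 / |β| ≤ 40 * Z ^ 2 / ((T : ℝ) ^ 3 * |(t : ℝ) - t'|) := by gcongr
    _ = _ := by field_simp

end Pool.Agent.Q148.CN
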