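import Pool.Agent.Q148.CN.Var

set_option autoImplicit false

/-! # The variance of the counting function, assembled -/

namespace Pool.Agent.Q148.CN

open Finset MeasureTheory

/-- the frequency number `k` -/
def fr (L k : ℕ) : ℤ := (k : ℤ) - (2 * L - 1 : ℤ)

/-- the nonzero frequencies -/
def KI (L : ℕ) : Finset ℕ := (range (4 * L)).erase (2 * L - 1)

lemma fr_abs (L k : ℕ) (hk : k ∈ KI L) : |fr L k| ≤ 2 * L := by
  unfold KI at hk
  rw [Finset.mem_erase, Finset.mem_range] at hk
  unfold fr
  rw [abs_le]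
  constructor <;> omega

lemma fr_ne (L k : ℕ) (hL : 1 ≤ L) (hk : k ∈ KI L) : fr L k ≠ 0 := by
  unfold KI at hk
  rw [Finset.mem_erase, Finset.mem_range] at hk
  unfold fr
  omega

lemma fr_inj (L k k' : ℕ) (h : k ≠ k') : fr L k ≠ fr L k' := by
  unfold fr
  omega

lemma KI_card (L : ℕ) : ((KI L).card : ℝ) ≤ 4 * L := by
  have h1 : (KI L).card ≤ (range (4 * L)).card := Finset.card_le_card (Finset.erase_subset _ _)
  rw [Finset.card_range] at h1
  exact_mod_cast h1

lemma fr_dist (L k k' : ℕ) : (fr L k - fr L k').natAbs = (k' - k) + (k - k') := by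
  unfold fr
  omega

lemma yt_cont (B W L t : ℕ) (Z : ℝ) (hZ : 0 < Z) :
    ContinuousOn (yt B W L t) (Set.uIcc Z (2 * Z)) := by
  rw [Set.uIcc_of_le (by linarith)]
  intro x hx
  exact (ph_deriv _ _ _ _ _ x (lt_of_lt_of_le hZ hx.1)).continuousAt.continuousWithinAt

/-- the critical frequency difference -/
noncomputable def Dc (B W L T : ℕ) (Z : ℝ) : ℝ := 43 * (B : ℝ) ^ 2 * W ^ 4 * L * T ^ 4 / Z ^ 2

lemma variance (B W T L : ℕ) (Z : ℝ) (hB : 1 ≤ B) (hW : 2 ≤ W) (hL : 2 ≤ L) (hLT : L ≤ T)
    (hZ : (T : ℝ) ^ 7 ≤ Z ^ 3) (hT0 : (10 : ℝ) ^ 15 * (B : ℝ) ^ 6 * W ^ 12 ≤ T) (hZ0 : 0 < Z) :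
    ∫ x in Z..(2 * Z), (∑ t ∈ Ioc T (2 * T), mk L (yt B W L t x) -
      T * ∫ y in (0 : ℝ)..1, mk L y) ^ 2 ≤
      (22 * L) ^ 2 * (4 * L * T * Z + 128 * W * L ^ 2 * T ^ 2 +
        208 * L * T ^ 2 * (Real.sqrt (Z * W) * Real.sqrt (Dc B W L T Z)) +
        320 * L * Z ^ 2 / T ^ 2 * (1 + Real.log T)) := by
  obtain ⟨c, hc1, hc2, hc3⟩ := mk_fourier L hL
  have hT1 : 1 ≤ T := by omega
  have hTr : (1 : ℝ) ≤ T := by exact_mod_cast hT1
  set I : Finset (ℕ × ℕ) := (KI L) ×ˢ (Ioc T (2 * T)) with hI
  have hcard : ((Ioc T (2 * T)).card : ℝ) = T := by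
    rw [Nat.card_Ioc]
    have : 2 * T - T = T := by omega
    rw [this]
  have hS : ∀ x : ℝ, ((∑ t ∈ Ioc T (2 * T), mk L (yt B W L t x) -
      T * ∫ y in (0 : ℝ)..1, mk L y : ℝ) : ℂ) =
      ∑ i ∈ I, c i.1 * ex ((fr L i.1 : ℝ) * yt B W L i.2 x) := by
    intro x
    rw [hI, Finset.sum_product_right]
    push_cast
    rw [← hc3]
    have h1 : ∀ t ∈ Ioc T (2 * T), ((mk L (yt B W L t x) : ℝ) : ℂ) =
        c (2 * L - 1) + ∑ k ∈ KI L, c k * ex ((fr L k : ℝ) * yt B W L t x) := by
      intro t _
      rw [hc1]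
      unfold KI fr
      have h2 : 2 * L - 1 ∈ range (4 * L) := by
        rw [Finset.mem_range]
        omega
      rw [← Finset.add_sum_erase _ _ h2]
      congr 1
      have h3 : (((2 * L - 1 : ℕ) : ℤ) - (2 * L - 1 : ℤ) : ℤ) = 0 := by omega
      rw [h3]
      simp [ex_zero]
    rw [Finset.sum_congr rfl h1, Finset.sum_add_distrib, Finset.sum_const, nsmul_eq_mul]
    have h4 : ((Ioc T (2 * T)).card : ℂ) = T := by exact_mod_cast hcard
    rw [h4]
    ring
  have hSn : ∀ x : ℝ, (∑ t ∈ Ioc T (2 * T), mk L (yt B W L t x) -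
      T * ∫ y in (0 : ℝ)..1, mk L y) ^ 2 =
      ‖∑ i ∈ I, c i.1 * ex ((fr L i.1 : ℝ) * yt B W L i.2 x)‖ ^ 2 := by
    intro x
    rw [← hS, Complex.norm_real, Real.norm_eq_abs, sq_abs]
  simp_rw [hSn]
  refine (sq_int I (fun i => c i.1) (fun i x => (fr L i.1 : ℝ) * yt B W L i.2 x) Z (2 * Z)
    (fun i _ => continuousOn_const.mul (yt_cont B W L i.2 Z hZ0))).trans ?_
  -- the bound for one pair
  set D : ℝ := Dc B W L T Z with hD
  have hD0 : 0 ≤ D := by
    rw [hD]
    unfold Dc
    positivity
  set bd : ℕ × ℕ → ℕ × ℕ → ℝ := fun i j => 8 * W +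
    if i.1 = j.1 then (if i.2 = j.2 then Z else 40 * Z ^ 2 / T ^ 3 * (1 / |(i.2 : ℝ) - j.2|))
    else 13 * Real.sqrt (Z * W) * wt D ((j.1 - i.1) + (i.1 - j.1))
    with hbd
  have hW0 : (2 : ℝ) ≤ W := by exact_mod_cast hW
  have hpair : ∀ i ∈ I, ∀ j ∈ I, ‖c i.1‖ * ‖c j.1‖ *
      ‖∫ x in Z..(2 * Z), ex ((fr L i.1 : ℝ) * yt B W L i.2 x -
        (fr L j.1 : ℝ) * yt B W L j.2 x)‖ ≤ (22 * L) ^ 2 * bd i j := by
    intro i hi j hj
    rw [hI, Finset.mem_product] at hi hj
    have hi1 : i.1 < 4 * L := by
      have := hi.1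
      unfold KI at this
      rw [Finset.mem_erase, Finset.mem_range] at this
      exact this.2
    have hj1 : j.1 < 4 * L := by
      have := hj.1
      unfold KI at this
      rw [Finset.mem_erase, Finset.mem_range] at this
      exact this.2
    have h1 := hc2 i.1 hi1
    have h2 := hc2 j.1 hj1
    have h3 : ‖∫ x in Z..(2 * Z), ex ((fr L i.1 : ℝ) * yt B W L i.2 x -
        (fr L j.1 : ℝ) * yt B W L j.2 x)‖ ≤ bd i j := by
      by_cases hij : i.1 = j.1
      · by_cases hij2 : i.2 = j.2
        · have h4 := triv_int (fun x => (fr L i.1 : ℝ) * yt B W L i.2 x -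
              (fr L j.1 : ℝ) * yt B W L j.2 x) Z (2 * Z) (by linarith)
          refine h4.trans ?_
          rw [hbd]
          simp only [hij, hij2, if_true]
          linarith
        · have h4 := case_B B W L T i.2 j.2 Z (fr L i.1) hB hW hT1 hZ hT0 hZ0 hi.2 hj.2 hij2
            (fr_ne L i.1 (by omega) hi.1)
          rw [← hij]
          refine h4.trans ?_
          rw [hbd]
          simp only [hij, hij2, if_true, if_false]
          linarith
      · have h4 := case_A B W L T i.2 j.2 Z (fr L i.1) (fr L j.1) hW hL hLT hZ hT0 hZ0 hi.2 hj.2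
          (fr_inj L i.1 j.1 hij) (fr_abs L i.1 hi.1) (fr_abs L j.1 hj.1)
        refine h4.trans ?_
        rw [hbd]
        simp only [hij, if_false]
        rw [fr_dist, hD]
        unfold Dc
        exact le_refl _
    calc _ ≤ (22 * L) * (22 * L) * bd i j := by gcongr
      _ = _ := by ring
  have hlog : 0 ≤ Real.log T := Real.log_nonneg hTr
  calc _ ≤ ∑ i ∈ I, ∑ j ∈ I, (22 * (L : ℝ)) ^ 2 * bd i j := by
        apply Finset.sum_le_sum
        intro i hi
        apply Finset.sum_le_sum
        intro j hj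
        exact hpair i hi j hj
    _ = (22 * L) ^ 2 * ∑ i ∈ I, ∑ j ∈ I, bd i j := by
        rw [Finset.mul_sum]
        apply Finset.sum_congr rfl
        intro i _
        rw [Finset.mul_sum]
    _ ≤ _ := by
        gcongr
        have h1 : ∀ i ∈ I, ∑ j ∈ I, bd i j ≤ 8 * W * (4 * L * T) +
            ((Z + 40 * Z ^ 2 / T ^ 3 * (2 * (1 + Real.log T))) +
              52 * T * (Real.sqrt (Z * W) * Real.sqrt D)) := by
          intro i hi
          rw [hbd]
          simp only
          rw [Finset.sum_add_distrib]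
          have hi' := hi
          rw [hI, Finset.mem_product] at hi'
          have h2 : ∑ j ∈ I, (8 * (W : ℝ)) ≤ 8 * W * (4 * L * T) := by
            rw [Finset.sum_const, nsmul_eq_mul, hI, Finset.card_product]
            push_cast
            rw [hcard]
            have := KI_card L
            calc ((KI L).card : ℝ) * T * (8 * W) ≤ (4 * L) * T * (8 * W) := by gcongr
              _ = _ := by ring
          have h3 : ∑ j ∈ I, (if i.1 = j.1 then (if i.2 = j.2 then Z else
              40 * Z ^ 2 / T ^ 3 * (1 / |(i.2 : ℝ) - j.2|))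
              else 13 * Real.sqrt (Z * W) * wt D ((j.1 - i.1) + (i.1 - j.1))) ≤
              (Z + 40 * Z ^ 2 / T ^ 3 * (2 * (1 + Real.log T))) +
              52 * T * (Real.sqrt (Z * W) * Real.sqrt D) := by
            rw [hI, Finset.sum_product]
            simp only
            rw [← Finset.add_sum_erase _ _ hi'.1]
            have h5 : ∑ x ∈ Ioc T (2 * T), (if i.1 = i.1 then (if i.2 = x then Z else
                  40 * Z ^ 2 / T ^ 3 * (1 / |(i.2 : ℝ) - x|))
                  else 13 * Real.sqrt (Z * W) * wt D ((i.1 - i.1) + (i.1 - i.1))) ≤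
                Z + 40 * Z ^ 2 / T ^ 3 * (2 * (1 + Real.log T)) := by
              simp only [if_true]
              rw [← Finset.add_sum_erase _ _ hi'.2]
              simp only [if_true]
              have h5 : ∑ x ∈ (Ioc T (2 * T)).erase i.2, (if i.2 = x then Z else
                  40 * Z ^ 2 / T ^ 3 * (1 / |(i.2 : ℝ) - x|)) =
                  40 * Z ^ 2 / T ^ 3 * ∑ x ∈ (Ioc T (2 * T)).erase i.2, 1 / |(i.2 : ℝ) - x| := by
                rw [Finset.mul_sum]
                apply Finset.sum_congr rfl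
                intro x hx
                rw [if_neg (Finset.ne_of_mem_erase hx).symm]
              rw [h5]
              have h6 := harm T i.2 hi'.2 hT1
              gcongr
            have h6 : ∑ k ∈ (KI L).erase i.1, ∑ x ∈ Ioc T (2 * T),
                (if i.1 = k then (if i.2 = x then Z else
                  40 * Z ^ 2 / T ^ 3 * (1 / |(i.2 : ℝ) - x|))
                  else 13 * Real.sqrt (Z * W) * wt D ((k - i.1) + (i.1 - k))) ≤
                52 * T * (Real.sqrt (Z * W) * Real.sqrt D) := by
              have h7 : ∑ k ∈ (KI L).erase i.1, ∑ x ∈ Ioc T (2 * T),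
                (if i.1 = k then (if i.2 = x then Z else
                  40 * Z ^ 2 / T ^ 3 * (1 / |(i.2 : ℝ) - x|))
                  else 13 * Real.sqrt (Z * W) * wt D ((k - i.1) + (i.1 - k))) =
                  (T * (13 * Real.sqrt (Z * W))) *
                    ∑ k ∈ (KI L).erase i.1, wt D ((k - i.1) + (i.1 - k)) := by
                rw [Finset.mul_sum]
                apply Finset.sum_congr rfl
                intro k hk
                have hne : ¬ (i.1 = k) := (Finset.ne_of_mem_erase hk).symm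
                simp only [hne, if_false]
                rw [Finset.sum_const, nsmul_eq_mul, hcard]
                ring
              rw [h7]
              have hKlt : ∀ x ∈ KI L, x < 4 * L := by
                intro x hx
                unfold KI at hx
                rw [Finset.mem_erase, Finset.mem_range] at hx
                exact hx.2
              have h8 := sum_dist (KI L) (4 * L) i.1 hKlt (hKlt _ hi'.1) (wt D) (wt_nonneg D)
              have h9 := sum_wt D hD0 (4 * L)
              calc _ ≤ (T * (13 * Real.sqrt (Z * W))) * (2 * (2 * Real.sqrt D)) := by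
                    gcongr
                    exact h8.trans (by gcongr)
                _ = _ := by ring
            exact add_le_add h5 h6
          linarith
        calc ∑ i ∈ I, ∑ j ∈ I, bd i j ≤ ∑ i ∈ I, (8 * W * (4 * L * T) +
            ((Z + 40 * Z ^ 2 / T ^ 3 * (2 * (1 + Real.log T))) +
              52 * T * (Real.sqrt (Z * W) * Real.sqrt D))) := Finset.sum_le_sum h1
          _ = (I.card : ℝ) * (8 * W * (4 * L * T) +
            ((Z + 40 * Z ^ 2 / T ^ 3 * (2 * (1 + Real.log T))) +
              52 * T * (Real.sqrt (Z * W) * Real.sqrt D))) := by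
              rw [Finset.sum_const, nsmul_eq_mul]
          _ ≤ (4 * L * T) * (8 * W * (4 * L * T) +
            ((Z + 40 * Z ^ 2 / T ^ 3 * (2 * (1 + Real.log T))) +
              52 * T * (Real.sqrt (Z * W) * Real.sqrt D))) := by
              have h2 : (I.card : ℝ) ≤ 4 * L * T := by
                rw [hI, Finset.card_product]
                push_cast
                rw [hcard]
                have := KI_card L
                gcongr
              gcongr
          _ = _ := by
              field_simp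
              ring

end Pool.Agent.Q148.CN
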